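import Pool.Agent.H675R2.LJ

/-!
The lattices of the c.e. ideals and of the c.e. subideals of `J` are not isomorphic.
-/

namespace Pool.Agent.H675R2.Core

open Encodable Pool.Agent.Helper446 Pool.Agent.Helper446.RE Pool.Agent.H675R2.UH
  Pool.Agent.H675R2.Inv Pool.Agent.H675R2.Tree Pool.Agent.H675R2.Low Pool.Agent.H675R2.LJ
  Pool.Agent.H675R2.Fk

set_option linter.unusedSectionVars false

variable {A : Type} [BooleanAlgebra A] [Primcodable A] [CBA A]

/-! ### The lattice of the c.e. subideals of a principal ideal -/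

theorem mem_pr {a a0 : A} : a ∈ Order.Ideal.principal a0 ↔ a ≤ a0 := Order.Ideal.mem_principal

theorem cp_pr_iff {a0 : A} {c : SubI (Order.Ideal.principal a0)} :
    Cp c ↔ ∃ a, ∃ h : a ≤ a0, c = prI a (mem_pr.2 h) := by
  rw [cp_iff]
  constructor
  · rintro ⟨d, h1, h2⟩
    obtain ⟨u, hu, v, hv, huv⟩ := h2 a0 (mem_pr.2 le_rfl)
    have hua : u ≤ a0 := by rw [huv]; exact le_sup_left
    refine ⟨u, hua, le_antisymm ?_ ((prI_le (hx := mem_pr.2 hua)).2 hu)⟩
    intro x hx
    refine Order.Ideal.mem_principal.2 ?_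
    have hxa : x ≤ a0 := mem_pr.1 (c.2.2 hx)
    have h3 : x ⊓ v = ⊥ := h1 _ (I_lower inf_le_left hx) (I_lower inf_le_right hv)
    have h4 : x ⊓ (u ⊔ v) = x := by rw [← huv]; exact inf_eq_left.2 hxa
    rw [inf_sup_left, h3, sup_bot_eq] at h4
    exact inf_eq_left.1 h4
  · rintro ⟨a, ha, rfl⟩
    refine ⟨prI (a0 ⊓ aᶜ) (mem_pr.2 inf_le_left), ?_, ?_⟩
    · intro x hx hx2
      have h1 : x ≤ a ⊓ aᶜ := le_inf (Order.Ideal.mem_principal.1 hx)
        ((Order.Ideal.mem_principal.1 hx2).trans inf_le_right)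
      rw [inf_compl_eq_bot] at h1
      exact le_bot_iff.1 h1
    · intro x hx
      refine ⟨x ⊓ a, Order.Ideal.mem_principal.2 inf_le_right, x ⊓ aᶜ,
        Order.Ideal.mem_principal.2 (inf_le_inf_right _ (mem_pr.1 hx)), ?_⟩
      rw [← inf_sup_left, sup_compl_eq_top, inf_top_eq]

theorem prI_inj {a0 a b : A} (ha : a ≤ a0) (hb : b ≤ a0) :
    prI a (mem_pr.2 ha) ≤ prI b (mem_pr.2 hb) ↔ a ≤ b := by
  rw [prI_le]
  exact Order.Ideal.mem_principal

/-- The complemented c.e. subideals are the principal ideals. -/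
noncomputable def isoA (a0 : A) :
    {x : A // x ≤ a0} ≃o {c : SubI (Order.Ideal.principal a0) // Cp c} :=
  RelIso.ofSurjective (f := OrderEmbedding.ofMapLEIff
    (fun a => (⟨prI a.1 (mem_pr.2 a.2), cp_pr_iff.2 ⟨a.1, a.2, rfl⟩⟩ :
      {c : SubI (Order.Ideal.principal a0) // Cp c})) fun a b => prI_inj a.2 b.2) (by
    rintro ⟨c, hc⟩
    obtain ⟨a, ha, h⟩ := cp_pr_iff.1 hc
    exact ⟨⟨a, ha⟩, Subtype.ext h.symm⟩)

theorem isoA_apply (a0 : A) (a : {x : A // x ≤ a0}) :
    (isoA a0 a).1 = prI a.1 (mem_pr.2 a.2) := rfl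

/-- The relative complementation predicate. -/
def DA (V : A → Prop) (a : A) : Prop := ∃ p, V p ∧ p ≤ a ∧ ∀ v, V v → v ≤ a → v ≤ p

theorem DV_pr {a0 : A} {V : SubI (Order.Ideal.principal a0)} {a : A} (ha : a ≤ a0) :
    DV V (prI a (mem_pr.2 ha)) ↔ DA (fun x => x ∈ V.1) a := by
  constructor
  · rintro ⟨P, hP, h1, h2, h3⟩
    obtain ⟨p, hp, rfl⟩ := cp_pr_iff.1 hP
    refine ⟨p, (prI_le (hx := mem_pr.2 hp)).1 h1, (prI_inj hp ha).1 h2, ?_⟩
    intro v hv hva
    exact (prI_inj (hva.trans ha) hp).1 (h3 (prI v (mem_pr.2 (hva.trans ha)))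
      ((prI_le (hx := mem_pr.2 (hva.trans ha))).2 hv) ((prI_inj (hva.trans ha) ha).2 hva))
  · rintro ⟨p, h1, h2, h3⟩
    refine ⟨prI p (mem_pr.2 (h2.trans ha)), cp_pr_iff.2 ⟨p, h2.trans ha, rfl⟩,
      (prI_le (hx := mem_pr.2 (h2.trans ha))).2 h1, (prI_inj (h2.trans ha) ha).2 h2, ?_⟩
    intro v hv hva x hx
    exact Order.Ideal.mem_principal.2 (h3 x (hv hx) (Order.Ideal.mem_principal.1 (hva hx)))

/-! Relativisation to `a0`. -/

theorem pk_rel {a0 : A} {D : A → Prop} (n : ℕ) : ∀ c : {x : A // x ≤ a0},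
    pk (fun x : {x : A // x ≤ a0} => D x.1) n c ↔ pk D n c.1 := by
  induction n with
  | zero => exact fun c => Iff.rfl
  | succ n ih =>
    intro c
    unfold pk
    simp only [ih]
    refine exists_congr fun N => ?_
    constructor
    · intro h a ha hdis
      have h1 : ∀ i < N, a i ⊓ a0 = a i := fun i hi => inf_eq_left.2 ((ha i hi).trans c.2)
      obtain ⟨i, hi, h2⟩ := h (fun i => ⟨a i ⊓ a0, inf_le_right⟩)
        (fun i hi => show a i ⊓ a0 ≤ c.1 from (h1 i hi).symm ▸ ha i hi)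
        (fun i hi j hj hij x hx hy y => by
          have h2 : x.1 ≤ a i := le_trans (Subtype.coe_le_coe.2 hx) inf_le_left
          have h3 : x.1 ≤ a j := le_trans (Subtype.coe_le_coe.2 hy) inf_le_left
          exact hdis i hi j hj hij x.1 h2 h3 y.1)
      refine ⟨i, hi, ?_⟩
      have h3 : pk D n (a i ⊓ a0) := h2
      rwa [h1 i hi] at h3
    · intro h a ha hdis
      exact h (fun i => (a i).1) (fun i hi => ha i hi) fun i hi j hj hij x hx hy y =>
        le_trans (Subtype.coe_le_coe.2 (hdis i hi j hj hij ⟨x, hx.trans (a i).2⟩ hx hy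
          ⟨⊥, bot_le⟩)) bot_le

theorem pk_inf {a0 : A} {D : A → Prop} (hD : ∀ x, D (x ⊓ a0) → D x) (n : ℕ) :
    ∀ c, pk D n (c ⊓ a0) → pk D n c := by
  induction n with
  | zero => exact hD
  | succ n ih =>
    rintro c ⟨N, hN⟩
    refine ⟨N, fun a ha hdis => ?_⟩
    obtain ⟨i, hi, h1⟩ := hN (fun i => a i ⊓ a0) (fun i hi => inf_le_inf_right _ (ha i hi))
      (fun i hi j hj hij x hx hy => hdis i hi j hj hij x (le_trans hx inf_le_left)
        (le_trans hy inf_le_left))
    exact ⟨i, hi, ih _ h1⟩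

theorem Sinv_rel {a0 : A} {D D' : A → Prop} (hD : ∀ x, D (x ⊓ a0) → D x) (n : ℕ) :
    Sinv (fun x : {x : A // x ≤ a0} => D x.1) (fun x => D' x.1) n ↔ Sinv D D' n := by
  unfold Sinv
  simp only [pk_rel]
  constructor
  · rintro ⟨c, h1, h2⟩
    exact ⟨c.1, fun r hr => h1 ⟨r, hr.trans c.2⟩ hr, h2⟩
  · rintro ⟨c, h1, h2⟩
    refine ⟨⟨c ⊓ a0, inf_le_right⟩, fun r hr => h1 r.1 (le_trans hr inf_le_left), ?_⟩
    exact fun h3 => h2 (pk_inf hD _ c h3)

theorem DA_inf {a0 : A} {V : A → Prop} (hV : ∀ v, V v → v ≤ a0) (x : A)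
    (h : DA V (x ⊓ a0)) : DA V x := by
  obtain ⟨p, h1, h2, h3⟩ := h
  exact ⟨p, h1, h2.trans inf_le_left, fun v hv hvx => h3 v hv (le_inf hvx (hV v hv))⟩

/-- The invariant of two c.e. ideals in the lattice of the c.e. subideals of a principal
ideal. -/
theorem top_US {a0 : A} (V V' : SubI (Order.Ideal.principal a0)) :
    US (fun n => 4 * n + 6)
      (Sinv (fun c : {c : SubI (Order.Ideal.principal a0) // Cp c} => DV V c.1)
      fun c => DV V' c.1) := by
  have h1 := Sinv_US (A := A) CBA.inf (D_US CBA.inf V.2.1) (D_US CBA.inf V'.2.1)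
  refine h1.of_iff fun n => ?_
  have h2 := Sinv_rel (a0 := a0) (D := DA fun x => x ∈ V.1) (D' := DA fun x => x ∈ V'.1)
    (DA_inf fun v hv => mem_pr.1 (V.2.2 hv)) n
  refine h2.symm.trans ?_
  refine Sinv_iso (isoA a0) ?_ ?_ n
  · intro a
    rw [isoA_apply, DV_pr a.2]
  · intro a
    rw [isoA_apply, DV_pr a.2]

/-! ### The other lattice -/

/-- Restriction of an isomorphism to the complemented elements. -/
def isoC {P P' : Type} [PartialOrder P] [PartialOrder P'] (φ : P ≃o P') :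
    {c : P // Cp c} ≃o {c : P' // Cp c} where
  toFun c := ⟨φ c.1, Cp_iso φ c.2⟩
  invFun c := ⟨φ.symm c.1, Cp_iso φ.symm c.2⟩
  left_inv c := Subtype.ext (φ.symm_apply_apply _)
  right_inv c := Subtype.ext (φ.apply_symm_apply _)
  map_rel_iff' := by
    intro a b
    exact φ.le_iff_le

theorem DV_iso_iff {P P' : Type} [PartialOrder P] [PartialOrder P'] (φ : P ≃o P') {V c : P} :
    DV V c ↔ DV (φ V) (φ c) := by
  refine ⟨DV_iso φ, fun h => ?_⟩
  have h1 := DV_iso φ.symm h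
  rwa [φ.symm_apply_apply, φ.symm_apply_apply] at h1

theorem no_iso (s : Sys A) {a0 : A} (Φ : SubI (J s) ≃o SubI (Order.Ideal.principal a0)) :
    False := by
  have hd : Computable dd := by
    unfold dd
    fun_prop
  have hS : UP (fun n => 2 * dd n + 2) Star := star_UP.of_eq fun n => by unfold dd; ring
  obtain ⟨Q, hQ1, hQ2, hQ3⟩ := descent hd hS
  -- the first class of points
  have hF : UP (fun _ => 2) (Ei Q 0) := by
    have h1 : UP (fun _ : List ℕ => 2) fun t => ∀ x : ℕ × List ℕ, t = x.2 ++ [x.1] →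
        (x.2.length < dd x.1 ∨ (x.2.length = dd x.1 ∧ Q x.1 x.2)) := by
      refine UP.all (P := fun (t : List ℕ) (x : ℕ × List ℕ) => t = x.2 ++ [x.1] →
        (x.2.length < dd x.1 ∨ (x.2.length = dd x.1 ∧ Q x.1 x.2))) (by fun_prop) ?_
      refine UP.imp (by fun_prop) (US.of_cp (by fun_prop) (cp_eq (by fun_prop) (by fun_prop))) ?_
      refine UP.or (by fun_prop) (UP.of_cp (by fun_prop) (cp_lt (by fun_prop)
        (hd.comp (by fun_prop)))) ?_
      exact hQ1.comp (g := fun x : List ℕ × (ℕ × List ℕ) => x.2) (by fun_prop)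
    refine h1.of_iff fun t => ?_
    constructor
    · intro h
      rcases List.eq_nil_or_concat t with rfl | ⟨l, n, rfl⟩
      · exact Or.inl rfl
      · right
        rw [List.concat_eq_append] at h ⊢
        exact ⟨n, l, rfl, h (n, l) rfl⟩
    · rintro h ⟨n, l⟩ rfl
      exact Ei_append.1 h
  have hF2 : ∀ t p : List ℕ, t <:+ p → Ei Q 0 p → Ei Q 0 t := by
    intro t p htp hp
    rcases hp with rfl | ⟨n, l, rfl, h1⟩
    · rw [List.suffix_nil.1 htp]
      exact Or.inl rfl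
    · rcases List.eq_nil_or_concat t with rfl | ⟨l', n', rfl⟩
      · exact Or.inl rfl
      · rw [List.concat_eq_append] at htp ⊢
        obtain ⟨r, hr⟩ := htp
        rw [← List.append_assoc] at hr
        obtain ⟨h2, h3⟩ := List.append_inj' hr rfl
        obtain rfl : n' = n := by simpa using h3
        rw [Ei_append]
        rcases r with _ | ⟨a, r⟩
        · rw [List.nil_append] at h2
          rw [h2]
          exact h1
        · left
          rw [← h2] at h1
          simp only [List.cons_append, List.length_cons, List.length_append] at h1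
          omega
  -- the second class
  have hG : UP (fun _ => 2) fun t : List ℕ => t.length ≤ 2 :=
    UP.of_cp (by fun_prop) (cp_le (by fun_prop) (by fun_prop))
  have hG2 : ∀ t p : List ℕ, t <:+ p → p.length ≤ 2 → t.length ≤ 2 := fun t p h1 h2 =>
    h1.length_le.trans h2
  obtain ⟨k, hk, hdom, hcmp⟩ := exists_k hF hF2
  obtain ⟨k', hk', hdom', hcmp'⟩ := exists_k hG hG2
  have hval := fun n => Sinv_iff (pd (s := s)) hQ3
    (D := fun c : CE s => DV (Vk hk (tp s)) c.1)
    (D' := fun c : CE s => DV (Vk hk' (tp s)) c.1)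
    (fun c => ⟨fun h => dv_small hk hdom c.2 h, fun h => small_dv hk hdom hcmp c.2 h⟩)
    (fun c => ⟨fun h => dv_small hk' hdom' c.2 h, fun h => small_dv hk' hdom' hcmp' c.2 h⟩) n
  have h1 := top_US (Φ (Vk hk (tp s))) (Φ (Vk hk' (tp s)))
  have h2 : US (fun n => 4 * n + 6) Star := by
    refine h1.of_iff fun n => ?_
    rw [hQ2 n, ← hval n]
    exact (Sinv_iso (isoC Φ) (fun c => DV_iso_iff Φ) (fun c => DV_iso_iff Φ) n).symm
  exact dg_diag h2

theorem J_ne_bot (s : Sys A) : J s ≠ ⊥ := by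
  intro h
  have h1 := w_mem_J s 0 0
  rw [h] at h1
  have h2 : s.w 0 0 ≤ ⊥ := by
    have h3 : (⊥ : Order.Ideal A) ≤ Order.Ideal.principal ⊥ := bot_le
    exact Order.Ideal.mem_principal.1 (h3 h1)
  exact s.w_ne 0 0 (le_bot_iff.1 h2)

/-- The ideal is not principal. -/
theorem J_not_principal (s : Sys A) (x : A) : J s ≠ Order.Ideal.principal x := by
  intro h
  have hx : x ∈ J s := by rw [h]; exact Order.Ideal.mem_principal.2 le_rfl
  obtain ⟨N, hN⟩ := hx
  have h1 := w_mem_J s N 0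
  rw [h, Order.Ideal.mem_principal] at h1
  have h2 := high hN le_rfl 0
  rw [inf_eq_right.2 h1] at h2
  exact s.w_ne N 0 h2

end Pool.Agent.H675R2.Core
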