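import Pool.Agent.H675R2.Tree

/-!
The approximable function `k` attached to a `Σ⁰₃` ideal of computable sets.
-/

namespace Pool.Agent.H675R2.Fk

open Encodable Pool.Agent.Helper446 Pool.Agent.Helper446.RE Pool.Agent.H675R2.UH
  Pool.Agent.H675R2.Inv Pool.Agent.H675R2.Tree Nat.Partrec

theorem cp_all_lt {α : Type} [Primcodable α] {p : α → ℕ → Prop}
    (hp : ComputablePred fun x : α × ℕ => p x.1 x.2) {f : α → ℕ} (hf : Computable f) :
    ComputablePred fun a => ∀ i < f a, p a i := by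
  refine cp_of_re (RE.all_lt (p := p) hp.to_re hf) ?_
  have h1 : REPred fun a => ∃ i, i < f a ∧ ¬ p a i := by
    refine RE.exN (p := fun a i => i < f a ∧ ¬ p a i) ?_
    exact RE.and (RE.lt (by fun_prop) (by fun_prop)) hp.not.to_re
  refine h1.of_eq fun a => ?_
  push Not
  rfl

theorem cp_ex_lt {α : Type} [Primcodable α] {p : α → ℕ → Prop}
    (hp : ComputablePred fun x : α × ℕ => p x.1 x.2) {f : α → ℕ} (hf : Computable f) :
    ComputablePred fun a => ∃ i < f a, p a i := by
  refine (cp_all_lt (p := fun a i => ¬ p a i) hp.not hf).not.of_eq fun a => ?_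
  push Not
  rfl

variable (q : (ℕ × ℕ) × ℕ → ℕ → Bool)

/-- The task `t` freezes the argument `n` at stage `s`. -/
def frz (t n s : ℕ) : Prop :=
  ev t.unpair.1 s n = some 1 ∧ ∀ b < n + 1, ∃ s' < s + 1, q (t.unpair, b) s' = true

/-- `φ_j` converges on `[0, n]` at stage `s`. -/
def conv (j n s : ℕ) : Prop := ∀ i < n + 1, (ev j s i).isSome = true

/-- `s` is the first stage at which `φ_j` converges on `[0, n]`. -/
def fst (j n s : ℕ) : Prop := conv j n s ∧ ∀ s' < s, ¬ conv j n s'

/-- `φ_j(n)` counts for `k(n)`. -/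
def G (j n s : ℕ) : Prop := fst j n s ∧ ∀ t < j + 1, ¬ frz q t n s

/-- the value -/
def val (j n s : ℕ) : ℕ := (ev j s n).getD 0

def K (n : ℕ) : Set ℕ := {v | ∃ j < n + 1, ∃ s, G q j n s ∧ val j n s = v}

noncomputable def k (n : ℕ) : ℕ := sSup (K q n)

theorem conv_mono {j n s s' : ℕ} (h : s ≤ s') (hc : conv j n s) : conv j n s' :=
  fun i hi => ev_isSome_mono h (hc i hi)

variable {q}

theorem frz_mono {t n s s' : ℕ} (h : s ≤ s') (hc : frz q t n s) : frz q t n s' :=
  ⟨ev_mono h hc.1, fun b hb => by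
    obtain ⟨r, hr, h1⟩ := hc.2 b hb
    exact ⟨r, by omega, h1⟩⟩

theorem fst_unique {j n s s' : ℕ} (h : fst j n s) (h' : fst j n s') : s = s' := by
  rcases lt_trichotomy s s' with h1 | h1 | h1
  · exact absurd h.1 (h'.2 s h1)
  · exact h1
  · exact absurd h'.1 (h.2 s' h1)

theorem K_finite (n : ℕ) : (K q n).Finite := by
  have h : (⋃ j ∈ Finset.range (n + 1), {v | ∃ s, G q j n s ∧ val j n s = v}).Finite := by
    refine Set.Finite.biUnion (Finset.finite_toSet _) fun j _ => ?_
    refine Set.Subsingleton.finite ?_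
    rintro v ⟨s, hs, rfl⟩ v' ⟨s', hs', rfl⟩
    rw [fst_unique hs.1 hs'.1]
  refine h.subset ?_
  rintro v ⟨j, hj, h1⟩
  simp only [Set.mem_iUnion, Finset.mem_range]
  exact ⟨j, hj, h1⟩

theorem le_k {j n s : ℕ} (hj : j < n + 1) (h : G q j n s) : val j n s ≤ k q n :=
  le_csSup (K_finite n).bddAbove ⟨j, hj, s, h, rfl⟩

theorem k_mem {n : ℕ} (h : k q n ≠ 0) : ∃ j < n + 1, ∃ s, G q j n s ∧ val j n s = k q n := by
  have h1 : (K q n).Nonempty := by
    rw [Set.nonempty_iff_ne_empty]
    intro h2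
    apply h
    unfold k
    rw [h2]
    simp
  exact Nat.sSup_mem h1 (K_finite n).bddAbove

theorem fst_exists {j n : ℕ} (h : ∃ s, conv j n s) : ∃ s, fst j n s := by
  classical
  exact ⟨Nat.find h, Nat.find_spec h, fun s' hs' => Nat.find_min h hs'⟩

theorem conv_exists {j : ℕ} (hj : Tot j) (n : ℕ) : ∃ s, conv j n s := by
  choose g hg using hj
  refine ⟨(Finset.range (n + 1)).sup g, fun i hi => ?_⟩
  exact ev_isSome_mono (Finset.le_sup (f := g) (Finset.mem_range.2 hi)) (hg i)

/-! ### Computability -/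

section comp

variable (hq : Computable₂ q)

include hq in
theorem cp_frz {α : Type} [Primcodable α] {t n s : α → ℕ} (ht : Computable t)
    (hn : Computable n) (hs : Computable s) : ComputablePred fun x => frz q (t x) (n x) (s x) := by
  unfold frz
  refine cp_and (cp_eq (by fun_prop) (by fun_prop)) ?_
  refine cp_all_lt (p := fun x b => ∃ s' < s x + 1, q ((t x).unpair, b) s' = true) ?_
    (by fun_prop)
  refine cp_ex_lt (p := fun (x : α × ℕ) s' => q ((t x.1).unpair, x.2) s' = true) ?_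
    (by fun_prop)
  refine cp_eq ?_ (by fun_prop)
  exact Computable₂.comp hq (g := fun x : (α × ℕ) × ℕ => ((t x.1.1).unpair, x.1.2))
    (h := fun x : (α × ℕ) × ℕ => x.2) (by fun_prop) (by fun_prop)

theorem cp_conv {α : Type} [Primcodable α] {j n s : α → ℕ} (hj : Computable j)
    (hn : Computable n) (hs : Computable s) : ComputablePred fun x => conv (j x) (n x) (s x) := by
  unfold conv
  refine cp_all_lt (p := fun x i => (ev (j x) (s x) i).isSome = true) ?_ (by fun_prop)
  exact cp_eq (by fun_prop) (by fun_prop)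

theorem cp_fst {α : Type} [Primcodable α] {j n s : α → ℕ} (hj : Computable j)
    (hn : Computable n) (hs : Computable s) : ComputablePred fun x => fst (j x) (n x) (s x) := by
  unfold fst
  refine cp_and (cp_conv hj hn hs) ?_
  refine cp_all_lt (p := fun x s' => ¬ conv (j x) (n x) s') ?_ hs
  exact (cp_conv (by fun_prop) (by fun_prop) (by fun_prop)).not

include hq in
theorem cp_G {α : Type} [Primcodable α] {j n s : α → ℕ} (hj : Computable j)
    (hn : Computable n) (hs : Computable s) : ComputablePred fun x => G q (j x) (n x) (s x) := by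
  unfold G
  refine cp_and (cp_fst hj hn hs) ?_
  refine cp_all_lt (p := fun x t => ¬ frz q t (n x) (s x)) ?_ (by fun_prop)
  exact (cp_frz hq (by fun_prop) (by fun_prop) (by fun_prop)).not

@[fun_prop] theorem val_comp {α : Type} [Primcodable α] {j n s : α → ℕ} (hj : Computable j)
    (hn : Computable n) (hs : Computable s) : Computable fun x => val (j x) (n x) (s x) :=
  Computable.option_getD (by fun_prop) (by fun_prop)

include hq in
/-- (P1) `k` is approximable from below. -/
theorem k_re : REPred fun x : ℕ × ℕ => x.2 ≤ k q x.1 := by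
  have h1 : REPred fun x : ℕ × ℕ => x.2 = 0 ∨ ∃ j, ∃ s, (j < x.1 + 1 ∧ G q j x.1 s) ∧
      x.2 ≤ val j x.1 s := by
    refine RE.or (RE.eq (by fun_prop) (by fun_prop)) ?_
    refine RE.exN (p := fun (x : ℕ × ℕ) j => ∃ s, (j < x.1 + 1 ∧ G q j x.1 s) ∧
      x.2 ≤ val j x.1 s) ?_
    refine RE.exN (p := fun (x : (ℕ × ℕ) × ℕ) s => (x.2 < x.1.1 + 1 ∧ G q x.2 x.1.1 s) ∧
      x.1.2 ≤ val x.2 x.1.1 s) ?_
    refine RE.and (RE.and (RE.lt (by fun_prop) (by fun_prop)) ?_) (RE.le (by fun_prop)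
      (by fun_prop))
    exact (cp_G hq (by fun_prop) (by fun_prop) (by fun_prop)).to_re
  refine h1.of_eq fun x => ?_
  constructor
  · rintro (h | ⟨j, s, ⟨hj, h2⟩, h3⟩)
    · omega
    · exact h3.trans (le_k hj h2)
  · intro h
    by_cases h0 : x.2 = 0
    · exact Or.inl h0
    · obtain ⟨j, hj, s, h2, h3⟩ := k_mem (q := q) (n := x.1) (by omega)
      exact Or.inr ⟨j, s, ⟨hj, h2⟩, by omega⟩

end comp

/-! ### The two properties -/

section props

variable {F : List ℕ → Prop} (hq : Computable₂ q)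
  (hIF : ∀ e, IF F e ↔ ∃ a, ∀ b, ∃ s, q ((e, a), b) s = true)

include hq hIF in
/-- (P2) `k` dominates every computable function off a small computable set. -/
theorem k_dom {f : ℕ → ℕ} (hf : Computable f) : ∃ Z : ℕ → Prop, ComputablePred Z ∧
    (∀ t, F t → Sm t Z) ∧ ∀ n, ¬ Z n → f n ≤ k q n := by
  obtain ⟨j, hj⟩ := ev_code hf
  have hT : Tot j := fun n => by
    obtain ⟨s, hs⟩ := hj n
    exact ⟨s, by rw [hs]; rfl⟩
  have hfst : ∀ n, ∃ s, fst j n s := fun n => fst_exists (conv_exists hT n)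
  refine ⟨fun n => n < j ∨ ∃ s, fst j n s ∧ ∃ t < j + 1, frz q t n s, ?_, ?_, ?_⟩
  · have h1 : ComputablePred fun x : ℕ × ℕ => ∃ t < j + 1, frz q t x.1 x.2 := by
      refine cp_ex_lt (p := fun (x : ℕ × ℕ) t => frz q t x.1 x.2) ?_ (by fun_prop)
      exact cp_frz hq (by fun_prop) (by fun_prop) (by fun_prop)
    have h2 : ComputablePred fun x : ℕ × ℕ => fst j x.1 x.2 :=
      cp_fst (by fun_prop) (by fun_prop) (by fun_prop)
    refine cp_of_re ?_ ?_
    · refine RE.or (RE.lt (by fun_prop) (by fun_prop)) ?_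
      refine RE.exN (p := fun n s => fst j n s ∧ ∃ t < j + 1, frz q t n s) ?_
      exact RE.and h2.to_re h1.to_re
    · have h3 : REPred fun n => j ≤ n ∧ ∃ s, fst j n s ∧ ¬ ∃ t < j + 1, frz q t n s := by
        refine RE.and (RE.le (by fun_prop) (by fun_prop)) ?_
        refine RE.exN (p := fun n s => fst j n s ∧ ¬ ∃ t < j + 1, frz q t n s) ?_
        exact RE.and h2.to_re h1.not.to_re
      refine h3.of_eq fun n => ?_
      rw [not_or, Nat.not_lt]
      refine and_congr_right fun _ => ?_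
      constructor
      · rintro ⟨s, hs, h4⟩ ⟨s', hs', h5⟩
        rw [fst_unique hs hs'] at h4
        exact h4 h5
      · intro h4
        obtain ⟨s, hs⟩ := hfst n
        exact ⟨s, hs, fun h5 => h4 ⟨s, hs, h5⟩⟩
  · intro p hp
    have h1 : ∀ t, Sm p fun n => ∃ s, fst j n s ∧ frz q t n s := by
      intro t
      by_cases hfin : {n | ∃ s, fst j n s ∧ frz q t n s}.Finite
      · exact Sm.of_finite hfin
      · have hinf : {n | ∃ s, fst j n s ∧ frz q t n s}.Infinite := hfin
        have h2 : IF F t.unpair.1 := by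
          rw [hIF]
          refine ⟨t.unpair.2, fun b => ?_⟩
          obtain ⟨n, ⟨s, -, hn⟩, hbn⟩ := hinf.exists_gt b
          obtain ⟨s', -, hs'⟩ := hn.2 b (by omega)
          exact ⟨s', hs'⟩
        refine (h2.2 p hp).mono ?_
        rintro n ⟨s, -, hn⟩
        exact ⟨s, hn.1⟩
    have h2 : ∀ N, Sm p fun n => ∃ t < N, ∃ s, fst j n s ∧ frz q t n s := by
      intro N
      induction N with
      | zero => exact Sm.of_finite (by convert Set.finite_empty; ext n; simp)
      | succ N ih =>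
        refine (ih.or (h1 N)).mono ?_
        rintro n ⟨t, ht, h3⟩
        rcases Nat.lt_succ_iff_lt_or_eq.1 ht with h4 | h4
        · exact Or.inl ⟨t, h4, h3⟩
        · rw [h4] at h3; exact Or.inr h3
    refine (Sm.or (Sm.of_finite (R := fun n => n < j) (Set.finite_Iio j)) (h2 (j + 1))).mono ?_
    rintro n (h3 | ⟨s, hs, t, ht, h3⟩)
    · exact Or.inl h3
    · exact Or.inr ⟨t, ht, s, hs, h3⟩
  · intro n hn
    push Not at hn
    obtain ⟨s, hs⟩ := hfst n
    have h1 : G q j n s := ⟨hs, hn.2 s hs⟩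
    have h2 : val j n s = f n := by
      obtain ⟨s', hs'⟩ := hj n
      obtain ⟨v, hv⟩ := Option.isSome_iff_exists.1 (hs.1 n (by omega))
      have h3 := ev_mono (le_max_left s s') hv
      rw [ev_mono (le_max_right s s') hs'] at h3
      unfold val
      rw [hv]
      simpa using h3.symm
    rw [← h2]
    exact le_k (by omega) h1

include hq hIF in
/-- (P3) `k` is computable on every small computable set. -/
theorem k_comp {R : ℕ → Prop} (hR : ComputablePred R) (hsm : ∀ t, F t → Sm t R) :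
    ∃ κ : ℕ → ℕ, Computable κ ∧ ∀ n, R n → κ n = k q n := by
  classical
  obtain ⟨e, heT, he⟩ := exists_code hR
  have hIFe : IF F e := by
    refine ⟨heT, fun t ht => ?_⟩
    exact (hsm t ht).mono fun n hn => (he n).2 hn
  obtain ⟨a, ha⟩ := (hIF e).1 hIFe
  set t0 := Nat.pair e a with ht0
  have hfr : ∀ n, R n → ∃ s, frz q t0 n s := by
    intro n hn
    choose g hg using ha
    obtain ⟨s1, hs1⟩ := (he n).1 hn
    refine ⟨max s1 ((Finset.range (n + 1)).sup g), ?_⟩
    unfold frz
    rw [ht0, Nat.unpair_pair]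
    refine ⟨ev_mono (le_max_left _ _) hs1, fun b hb => ⟨g b, ?_, hg b⟩⟩
    have h1 : g b ≤ (Finset.range (n + 1)).sup g :=
      Finset.le_sup (f := g) (Finset.mem_range.2 hb)
    omega
  -- the nontotal functions
  have h2 : ∀ j, ∃ i, ¬ Tot j → ∀ s, ¬ (ev j s i).isSome = true := by
    intro j
    by_cases hj : Tot j
    · exact ⟨0, fun h => absurd hj h⟩
    · unfold Tot at hj
      push Not at hj
      obtain ⟨i, hi⟩ := hj
      exact ⟨i, fun _ => hi⟩
  choose g hg using h2
  set n0 := (Finset.range t0).sup g with hn0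
  have hn0' : ∀ j < t0, ¬ Tot j → ∀ n ≥ n0, ∀ s, ¬ conv j n s := by
    intro j hj hjT n hn s hc
    have h3 : g j ≤ n0 := Finset.le_sup (f := g) (Finset.mem_range.2 hj)
    exact hg j hjT s (hc (g j) (by omega))
  let J1 : List ℕ := (List.range t0).filter fun j => decide (Tot j)
  have hJ1 : ∀ j, j ∈ J1 ↔ j < t0 ∧ Tot j := by
    intro j
    simp [J1]
  let settled : ℕ → ℕ → Prop := fun n s => frz q t0 n s ∧ ∀ j ∈ J1, conv j n s
  have hset : ∀ n, R n → ∃ s, settled n s := by
    intro n hn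
    obtain ⟨s1, hs1⟩ := hfr n hn
    have h3 : ∀ j, ∃ s, Tot j → conv j n s := by
      intro j
      by_cases hj : Tot j
      · obtain ⟨s, hs⟩ := conv_exists hj n
        exact ⟨s, fun _ => hs⟩
      · exact ⟨0, fun h => absurd h hj⟩
    choose c hc using h3
    refine ⟨max s1 ((Finset.range t0).sup c), frz_mono (le_max_left _ _) hs1, ?_⟩
    intro j hj
    rw [hJ1] at hj
    have h4 : c j ≤ (Finset.range t0).sup c := Finset.le_sup (f := c) (Finset.mem_range.2 hj.1)
    exact conv_mono (h4.trans (le_max_right _ _)) (hc j hj.2)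
  have hbd : ∀ n ≥ n0, ∀ s, settled n s → ∀ j s', G q j n s' → s' ≤ s := by
    intro n hn s hs j s' hG
    rcases Nat.lt_or_ge j t0 with hj | hj
    · by_cases hjT : Tot j
      · by_contra hlt
        exact hG.1.2 s (by omega) (hs.2 j ((hJ1 j).2 ⟨hj, hjT⟩))
      · exact absurd hG.1.1 (hn0' j hj hjT n hn s')
    · by_contra hlt
      exact hG.2 t0 (by omega) (frz_mono (by omega) hs.1)
  -- the function
  let tbl : List ℕ := (List.range n0).map (k q)
  refine ⟨fun n => if n < n0 ∨ R n then k q n else 0, ?_, fun n hn => if_pos (Or.inr hn)⟩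
  refine computable_of_graph ?_
  have hRc : ComputablePred fun x : ℕ × ℕ => R x.1 := cp_comp hR (by fun_prop)
  have hlt : ComputablePred fun x : ℕ × ℕ => x.1 < n0 := cp_lt (by fun_prop) (by fun_prop)
  have hsc : REPred fun x : (ℕ × ℕ) × ℕ => settled x.1.1 x.2 := by
    refine RE.and (cp_frz hq (by fun_prop) (by fun_prop) (by fun_prop)).to_re ?_
    exact RE.all_mem (p := fun (x : (ℕ × ℕ) × ℕ) j => conv j x.1.1 x.2)
      (cp_conv (by fun_prop) (by fun_prop) (by fun_prop)).to_re (by fun_prop)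
  have h3 : REPred fun x : ℕ × ℕ => (x.1 < n0 ∧ (tbl[x.1]?).getD 0 = x.2) ∨
      ((¬ x.1 < n0 ∧ ¬ R x.1) ∧ x.2 = 0) ∨
      ((¬ x.1 < n0 ∧ R x.1) ∧ ∃ s, settled x.1 s ∧
        (x.2 = 0 ∨ ∃ j < x.1 + 1, ∃ s' < s + 1, G q j x.1 s' ∧ val j x.1 s' = x.2) ∧
        ∀ j < x.1 + 1, ∀ s' < s + 1, ¬ (G q j x.1 s' ∧ ¬ val j x.1 s' ≤ x.2)) := by
    refine RE.or (RE.and hlt.to_re ?_) (RE.or (RE.and (RE.and hlt.not.to_re hRc.not.to_re) ?_)
      (RE.and (RE.and hlt.not.to_re hRc.to_re) ?_))
    · exact RE.eq (Computable.option_getD (by fun_prop) (by fun_prop)) (by fun_prop)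
    · exact RE.eq (by fun_prop) (by fun_prop)
    · refine RE.exN (p := fun (x : ℕ × ℕ) s => settled x.1 s ∧
        (x.2 = 0 ∨ ∃ j < x.1 + 1, ∃ s' < s + 1, G q j x.1 s' ∧ val j x.1 s' = x.2) ∧
        ∀ j < x.1 + 1, ∀ s' < s + 1, ¬ (G q j x.1 s' ∧ ¬ val j x.1 s' ≤ x.2)) ?_
      refine RE.and hsc (RE.and (RE.or (RE.eq (by fun_prop) (by fun_prop)) ?_) ?_)
      · refine ComputablePred.to_re ?_
        refine cp_ex_lt (p := fun (x : (ℕ × ℕ) × ℕ) j => ∃ s' < x.2 + 1,
          G q j x.1.1 s' ∧ val j x.1.1 s' = x.1.2) ?_ (by fun_prop)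
        refine cp_ex_lt (p := fun (x : ((ℕ × ℕ) × ℕ) × ℕ) s' =>
          G q x.2 x.1.1.1 s' ∧ val x.2 x.1.1.1 s' = x.1.1.2) ?_ (by fun_prop)
        exact cp_and (cp_G hq (by fun_prop) (by fun_prop) (by fun_prop))
          (cp_eq (by fun_prop) (by fun_prop))
      · refine ComputablePred.to_re ?_
        refine cp_all_lt (p := fun (x : (ℕ × ℕ) × ℕ) j => ∀ s' < x.2 + 1,
          ¬ (G q j x.1.1 s' ∧ ¬ val j x.1.1 s' ≤ x.1.2)) ?_ (by fun_prop)
        refine cp_all_lt (p := fun (x : ((ℕ × ℕ) × ℕ) × ℕ) s' =>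
          ¬ (G q x.2 x.1.1.1 s' ∧ ¬ val x.2 x.1.1.1 s' ≤ x.1.1.2)) ?_ (by fun_prop)
        exact (cp_and (cp_G hq (by fun_prop) (by fun_prop) (by fun_prop))
          (cp_le (by fun_prop) (by fun_prop)).not).not
  refine h3.of_eq ?_
  rintro ⟨n, v⟩
  dsimp only
  by_cases hn : n < n0
  · have h4 : (tbl[n]?).getD 0 = k q n := by
      simp [tbl, hn]
    rw [h4]
    simp [hn]
  · by_cases hRn : R n
    · simp only [hn, hRn, false_and, not_true_eq_false, and_false, not_false_eq_true, true_and,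
        false_or, or_true, if_true]
      constructor
      · rintro ⟨s, hs, h4, h5⟩
        apply le_antisymm
        · by_cases h0 : k q n = 0
          · omega
          · obtain ⟨j, hj, s', hG, hv⟩ := k_mem h0
            have h6 := h5 j hj s' (by have := hbd n (by omega) s hs j s' hG; omega)
            by_contra h7
            exact h6 ⟨hG, by omega⟩
        · rcases h4 with h4 | ⟨j, hj, s', hs', hG, hv⟩
          · omega
          · rw [← hv]; exact le_k hj hG
      · rintro rfl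
        obtain ⟨s, hs⟩ := hset n hRn
        refine ⟨s, hs, ?_, ?_⟩
        · by_cases h0 : k q n = 0
          · exact Or.inl h0
          · obtain ⟨j, hj, s', hG, hv⟩ := k_mem h0
            exact Or.inr ⟨j, hj, s', by have := hbd n (by omega) s hs j s' hG; omega, hG, hv⟩
        · rintro j hj s' hs' ⟨hG, h6⟩
          exact h6 (le_k hj hG)
    · simp only [hn, hRn, false_and, not_false_eq_true, and_self, true_and, false_or,
        and_false, or_false, if_false]
      exact eq_comm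

end props

/-- The function attached to a class of points of level two. -/
theorem exists_k {F : List ℕ → Prop} (hF : UP (fun _ => 2) F)
    (hsuf : ∀ t p : List ℕ, t <:+ p → F p → F t) :
    ∃ k : ℕ → ℕ, (REPred fun x : ℕ × ℕ => x.2 ≤ k x.1) ∧
      (∀ f : ℕ → ℕ, Computable f → ∃ Z : ℕ → Prop, ComputablePred Z ∧
        (∀ t, F t → Sm t Z) ∧ ∀ n, ¬ Z n → f n ≤ k n) ∧
      ∀ R : ℕ → Prop, ComputablePred R → (∀ t, F t → Sm t R) →
        ∃ κ : ℕ → ℕ, Computable κ ∧ ∀ n, R n → κ n = k n := by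
  obtain ⟨R, hR, h1⟩ := IF_US hF hsuf
  have h2 : REPred fun x : (ℕ × ℕ) × ℕ =>
      R (x.1.1, Nat.pair x.1.2 (Nat.pair x.2 0)) :=
    RE.comp hR (f := fun x : (ℕ × ℕ) × ℕ => (x.1.1, Nat.pair x.1.2 (Nat.pair x.2 0)))
      (by fun_prop)
  obtain ⟨q, hq, h3⟩ := RE.re_iff.1 h2
  have hIF : ∀ e, IF F e ↔ ∃ a, ∀ b, ∃ s, q ((e, a), b) s = true := by
    intro e
    rw [h1 e]
    simp only [Alt]
    refine exists_congr fun a => ?_
    push Not
    refine forall_congr' fun b => ?_
    rw [← h3 ((e, a), b)]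
  exact ⟨k q, k_re hq, fun f hf => k_dom hq hIF hf, fun R hR hsm => k_comp hq hIF hR hsm⟩

end Pool.Agent.H675R2.Fk
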