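import Mathlib

/-!
The order-theoretic invariant, and its value on a Boolean algebra whose points are coded by
finite sequences of natural numbers.
-/

namespace Pool.Agent.H675R2.Inv

section abs

variable {C : Type*} [PartialOrder C] {C' : Type*} [PartialOrder C']

/-- Disjointness, in terms of the order only. -/
def Dj (a b : C) : Prop := ∀ x, x ≤ a → x ≤ b → ∀ y, x ≤ y

/-- The iterated Cantor-Bendixson predicates. -/
def pk (D : C → Prop) : ℕ → C → Prop
  | 0 => D
  | n + 1 => fun c => ∃ N, ∀ a : ℕ → C, (∀ i < N, a i ≤ c) →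
      (∀ i < N, ∀ j < N, i ≠ j → Dj (a i) (a j)) → ∃ i < N, pk D n (a i)

/-- The depth of the `n`-th block. -/
def dd (n : ℕ) : ℕ := 2 * n + 2

/-- The set of natural numbers coded by two predicates. -/
def Sinv (D D' : C → Prop) (n : ℕ) : Prop :=
  ∃ c, (∀ r ≤ c, D' r → pk D (2 * n + 1) r) ∧ ¬ pk D (2 * n + 2) c

theorem disj_iso (φ : C ≃o C') {a b : C} (h : Dj a b) : Dj (φ a) (φ b) := by
  intro x hx hy y
  have h1 : φ.symm x ≤ a := by rw [φ.symm_apply_le]; exact hx
  have h2 : φ.symm x ≤ b := by rw [φ.symm_apply_le]; exact hy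
  have h3 := h _ h1 h2 (φ.symm y)
  rw [φ.symm_apply_le, φ.apply_symm_apply] at h3
  exact h3

theorem pk_iso (φ : C ≃o C') {D : C → Prop} {E : C' → Prop} (hD : ∀ c, D c ↔ E (φ c)) (n : ℕ) :
    ∀ c, pk D n c ↔ pk E n (φ c) := by
  induction n with
  | zero => exact hD
  | succ n ih =>
    intro c
    unfold pk
    refine exists_congr fun N => ?_
    constructor
    · intro h a ha hdis
      obtain ⟨i, hi, h1⟩ := h (fun i => φ.symm (a i))
        (fun i hi => by rw [φ.symm_apply_le]; exact ha i hi)
        (fun i hi j hj hij => disj_iso φ.symm (hdis i hi j hj hij))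
      refine ⟨i, hi, ?_⟩
      rw [ih] at h1
      simpa using h1
    · intro h a ha hdis
      obtain ⟨i, hi, h1⟩ := h (fun i => φ (a i)) (fun i hi => by simpa using ha i hi)
        (fun i hi j hj hij => disj_iso φ (hdis i hi j hj hij))
      exact ⟨i, hi, (ih _).2 h1⟩

theorem Sinv_iso (φ : C ≃o C') {D D' : C → Prop} {E E' : C' → Prop}
    (hD : ∀ c, D c ↔ E (φ c)) (hD' : ∀ c, D' c ↔ E' (φ c)) (n : ℕ) :
    Sinv D D' n ↔ Sinv E E' n := by
  unfold Sinv
  constructor
  · rintro ⟨c, h1, h2⟩
    refine ⟨φ c, ?_, fun h => h2 ((pk_iso φ hD _ c).2 h)⟩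
    intro r hr hE
    have h3 := h1 (φ.symm r) (by rw [φ.symm_apply_le]; exact hr) (by rw [hD']; simpa using hE)
    rw [pk_iso φ hD] at h3
    simpa using h3
  · rintro ⟨c, h1, h2⟩
    refine ⟨φ.symm c, ?_, fun h => h2 (by rw [pk_iso φ hD] at h; simpa using h)⟩
    intro r hr hE
    rw [pk_iso φ hD]
    exact h1 (φ r) (by rw [← φ.le_symm_apply]; exact hr) ((hD' r).1 hE)

end abs

/-! ### Points -/

/-- The length of the word of a sequence (the newest term is the head). -/
def len : List ℕ → ℕ
  | [] => 0
  | a :: t => len t + a + 1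

/-- The point of Cantor space of a finite sequence. -/
def bit : List ℕ → ℕ → Bool
  | [], _ => false
  | a :: t, i => (i == len t + a) || bit t i

theorem bit_ge {t : List ℕ} {i : ℕ} (h : len t ≤ i) : bit t i = false := by
  induction t with
  | nil => rfl
  | cons a t ih =>
    unfold len at h
    simp only [bit, Bool.or_eq_false_iff, beq_eq_false_iff_ne]
    exact ⟨by omega, ih (by omega)⟩

theorem len_le (l s : List ℕ) : len s ≤ len (l ++ s) := by
  induction l with
  | nil => simp
  | cons a l ih => rw [List.cons_append, len]; omega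

theorem bit_append {l s : List ℕ} {i : ℕ} (h : i < len s) : bit (l ++ s) i = bit s i := by
  induction l with
  | nil => rfl
  | cons a l ih =>
    rw [List.cons_append, bit, ih]
    have := len_le l s
    have h1 : (i == len (l ++ s) + a) = false := by
      rw [beq_eq_false_iff_ne]; omega
    rw [h1, Bool.false_or]

theorem bit_child {l t : List ℕ} {a i : ℕ} (h : i < len t + a) :
    bit (l ++ a :: t) i = bit t i := by
  rw [bit_append (by rw [len]; omega), bit]
  have h1 : (i == len t + a) = false := by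
    rw [beq_eq_false_iff_ne]; omega
  rw [h1, Bool.false_or]

/-- Parsing a finite word. -/
def pr (x : ℕ → Bool) : ℕ → List ℕ × ℕ
  | 0 => ([], 0)
  | m + 1 => bif x m then ((pr x m).2 :: (pr x m).1, 0) else ((pr x m).1, (pr x m).2 + 1)

theorem pr_congr {x y : ℕ → Bool} {m : ℕ} (h : ∀ k < m, x k = y k) : pr x m = pr y m := by
  induction m with
  | zero => rfl
  | succ m ih => rw [pr, pr, ih fun k hk => h k (by omega), h m (by omega)]

theorem pr_spec (x : ℕ → Bool) (m : ℕ) :
    len (pr x m).1 + (pr x m).2 = m ∧ ∀ k < m, bit (pr x m).1 k = x k := by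
  induction m with
  | zero => exact ⟨rfl, fun k hk => absurd hk (by omega)⟩
  | succ m ih =>
    obtain ⟨h1, h2⟩ := ih
    rw [pr]
    rcases hx : x m with _ | _
    · simp only [cond_false]
      refine ⟨by omega, fun k hk => ?_⟩
      rcases Nat.lt_succ_iff_lt_or_eq.1 hk with h | h
      · exact h2 k h
      · rw [h, hx]
        exact bit_ge (by omega)
    · simp only [cond_true]
      refine ⟨by rw [len]; omega, fun k hk => ?_⟩
      rw [bit, h1]
      rcases Nat.lt_succ_iff_lt_or_eq.1 hk with h | h
      · rw [h2 k h]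
        have h3 : (k == m) = false := by rw [beq_eq_false_iff_ne]; omega
        rw [h3, Bool.false_or]
      · rw [h, hx]; simp

theorem pr_mono (x : ℕ → Bool) {m m' : ℕ} (h : m ≤ m') : (pr x m).1 <:+ (pr x m').1 := by
  induction m', h using Nat.le_induction with
  | base => exact List.suffix_rfl
  | succ n hn ih =>
    refine ih.trans ?_
    rw [pr]
    rcases x n with _ | _
    · exact List.suffix_rfl
    · exact List.suffix_cons _ _

theorem pr_bit (t : List ℕ) (j : ℕ) : pr (bit t) (len t + j) = (t, j) := by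
  induction t generalizing j with
  | nil =>
    induction j with
    | zero => rfl
    | succ j ih =>
      rw [← Nat.add_assoc, pr, ih]
      rfl
  | cons a t ih =>
    have h1 : ∀ j ≤ a, pr (bit (a :: t)) (len t + j) = (t, j) := by
      intro j hj
      rw [← ih j]
      refine pr_congr fun k hk => ?_
      exact bit_child (l := []) (by omega)
    induction j with
    | zero =>
      have h2 : len (a :: t) + 0 = len t + a + 1 := rfl
      rw [h2, pr, h1 a le_rfl]
      have h3 : bit (a :: t) (len t + a) = true := by simp [bit]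
      rw [h3]
      rfl
    | succ j ihj =>
      rw [← Nat.add_assoc, pr, ihj, bit_ge (by omega)]
      rfl

theorem pr_suffix (p : List ℕ) (m : ℕ) : (pr (bit p) m).1 <:+ p := by
  have h := pr_mono (bit p) (m := m) (m' := len p + m) (by omega)
  rwa [pr_bit] at h

theorem suffix_iff {t p : List ℕ} : t <:+ p ↔ ∀ k < len t, bit p k = bit t k := by
  constructor
  · rintro ⟨l, rfl⟩ k hk
    exact bit_append hk
  · intro h
    have h1 := pr_suffix p (len t)
    rw [pr_congr h, show len t = len t + 0 from rfl, pr_bit] at h1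
    exact h1

theorem bit_inj {t p : List ℕ} (h : bit t = bit p) : t = p := by
  have h1 : t <:+ p := suffix_iff.2 fun k _ => by rw [h]
  have h2 : p <:+ t := suffix_iff.2 fun k _ => by rw [h]
  exact h1.eq_of_length_le h2.length_le

/-! ### The value of the invariant -/

/-- The derivatives of the basic closed set. -/
def Ei (Q : ℕ → List ℕ → Prop) (i : ℕ) (t : List ℕ) : Prop :=
  t = [] ∨ ∃ n l, t = l ++ [n] ∧ (l.length + i < dd n ∨ (l.length + i = dd n ∧ Q n l))

theorem Ei_append {Q : ℕ → List ℕ → Prop} {i n : ℕ} {l : List ℕ} :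
    Ei Q i (l ++ [n]) ↔ l.length + i < dd n ∨ (l.length + i = dd n ∧ Q n l) := by
  unfold Ei
  constructor
  · rintro (h | ⟨n', l', h, h1⟩)
    · simp at h
    · obtain ⟨rfl, h2⟩ := List.append_inj' h rfl
      obtain rfl : n = n' := by simpa using h2
      exact h1
  · intro h
    exact Or.inr ⟨n, l, rfl, h⟩

variable {C : Type*} [PartialOrder C]

section fin

variable {Ψ : C → List ℕ → Prop} {Q : ℕ → List ℕ → Prop}

omit [PartialOrder C] in
theorem fin_cone (h3 : ∀ c t, ∃ m, ∀ p, (∀ k < m, bit p k = bit t k) → (Ψ c p ↔ Ψ c t))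
    (hQ : ∀ n l, l.length < dd n → (Q n l ↔ {a | Q n (a :: l)}.Infinite)) {c : C} {i : ℕ}
    (hc : ∀ t, Ei Q (i + 1) t → ¬ Ψ c t) (n : ℕ) (k : ℕ) :
    ∀ l : List ℕ, dd n + 1 ≤ l.length + k →
      {t | (Ei Q i t ∧ Ψ c t) ∧ l ++ [n] <:+ t}.Finite := by
  induction k with
  | zero =>
    intro l hl
    convert Set.finite_empty
    ext t
    simp only [Set.mem_ofPred_eq, Set.mem_empty_iff_false, iff_false]
    rintro ⟨⟨h1, -⟩, ⟨l', rfl⟩⟩
    rw [← List.append_assoc, Ei_append, List.length_append] at h1
    omega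
  | succ k ih =>
    intro l hl
    by_cases hΨ : Ψ c (l ++ [n])
    · have h1 : ¬ Ei Q (i + 1) (l ++ [n]) := fun h => hc _ h hΨ
      rw [Ei_append] at h1
      push Not at h1
      have h2 : {a | l.length + i + 1 = dd n ∧ Q n (a :: l)}.Finite := by
        by_cases h3 : l.length + i + 1 = dd n
        · have h4 := h1.2 h3
          rw [hQ n l (by omega), Set.not_infinite] at h4
          exact h4.subset fun a ha => ha.2
        · convert Set.finite_empty
          ext a
          simp [h3]
      refine ((Set.finite_singleton (l ++ [n])).union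
        (h2.image fun a => a :: (l ++ [n]))).subset ?_
      rintro t ⟨⟨h3, -⟩, ⟨l', rfl⟩⟩
      rw [← List.append_assoc, Ei_append, List.length_append] at h3
      rcases l' with _ | ⟨a, _ | ⟨b, l''⟩⟩
      · left; simp
      · right
        refine ⟨a, ⟨?_, ?_⟩, by simp⟩
        · have := h1.1
          simp only [List.length_cons, List.length_nil] at h3
          omega
        · have := h1.1
          simp only [List.length_cons, List.length_nil] at h3
          rcases h3 with h3 | h3
          · omega
          · exact h3.2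
      · have := h1.1
        simp only [List.length_cons] at h3
        omega
    · obtain ⟨m, hm⟩ := h3 c (l ++ [n])
      have h4 : (⋃ a ∈ Finset.range m,
          {t | (Ei Q i t ∧ Ψ c t) ∧ (a :: l) ++ [n] <:+ t}).Finite := by
        refine Set.Finite.biUnion (Finset.finite_toSet _) fun a _ => ?_
        exact ih (a :: l) (by rw [List.length_cons]; omega)
      refine h4.subset ?_
      rintro t ⟨⟨h5, h6⟩, ⟨l', rfl⟩⟩
      rcases List.eq_nil_or_concat l' with rfl | ⟨l'', a, rfl⟩
      · exact absurd h6 hΨ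
      · simp only [Set.mem_iUnion, Finset.mem_range]
        refine ⟨a, ?_, ⟨h5, h6⟩, ⟨l'', by simp⟩⟩
        by_contra hcon
        rw [hm] at h6
        · exact hΨ h6
        · intro k hk
          rw [List.concat_eq_append, List.append_assoc, List.singleton_append]
          exact bit_child (by omega)

omit [PartialOrder C] in
theorem fin_iff (h3 : ∀ c t, ∃ m, ∀ p, (∀ k < m, bit p k = bit t k) → (Ψ c p ↔ Ψ c t))
    (hQ : ∀ n l, l.length < dd n → (Q n l ↔ {a | Q n (a :: l)}.Infinite)) (c : C) (i : ℕ) :
    {t | Ei Q i t ∧ Ψ c t}.Finite ↔ ∀ t, Ei Q (i + 1) t → ¬ Ψ c t := by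
  constructor
  · intro hfin t ht hΨ
    obtain ⟨m, hm⟩ := h3 c t
    -- infinitely many children
    have h4 : {a | Ei Q i (a :: t)}.Infinite := by
      rcases ht with rfl | ⟨n, l, rfl, h | h⟩
      · refine Set.infinite_of_injective_forall_mem (f := fun a : ℕ => a + i)
          (fun a b h => by simpa using h) fun a => ?_
        have h5 : Ei Q i ([] ++ [a + i]) := by
          rw [Ei_append]
          left
          simp only [List.length_nil, dd]
          omega
        exact h5
      · refine Set.infinite_of_injective_forall_mem (f := fun a : ℕ => a)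
          (fun a b h => h) fun a => ?_
        have h5 : Ei Q i ((a :: l) ++ [n]) := by
          rw [Ei_append, List.length_cons]
          left
          omega
        exact h5
      · have h6 := (hQ n l (by omega)).1 h.2
        refine h6.mono fun a ha => ?_
        have h5 : Ei Q i ((a :: l) ++ [n]) := by
          rw [Ei_append, List.length_cons]
          right
          exact ⟨by omega, ha⟩
        exact h5
    have h5 : ({a | Ei Q i (a :: t)} \ Set.Iio m).Infinite := h4.sdiff (Set.finite_Iio m)
    have h6 : ((fun a => a :: t) '' ({a | Ei Q i (a :: t)} \ Set.Iio m)).Infinite :=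
      h5.image fun a _ b _ h => by simpa using h
    refine h6 (hfin.subset ?_)
    rintro _ ⟨a, ⟨ha, ham⟩, rfl⟩
    refine ⟨ha, ?_⟩
    rw [hm]
    · exact hΨ
    · intro k hk
      refine bit_child (l := []) ?_
      simp only [Set.mem_Iio] at ham
      omega
  · intro hc
    obtain ⟨m, hm⟩ := h3 c []
    have h0 : ¬ Ψ c [] := hc [] (Or.inl rfl)
    have h4 : (⋃ n ∈ Finset.range m, {t | (Ei Q i t ∧ Ψ c t) ∧ [] ++ [n] <:+ t}).Finite := by
      refine Set.Finite.biUnion (Finset.finite_toSet _) fun n _ => ?_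
      exact fin_cone h3 hQ hc n (dd n + 1) [] (by simp)
    refine h4.subset ?_
    rintro t ⟨h5, h6⟩
    rcases List.eq_nil_or_concat t with rfl | ⟨l, n, rfl⟩
    · exact absurd h6 h0
    · simp only [Set.mem_iUnion, Finset.mem_range]
      refine ⟨n, ?_, ⟨h5, h6⟩, ⟨l, by simp⟩⟩
      by_contra hcon
      rw [hm] at h6
      · exact h0 h6
      · intro k hk
        rw [List.concat_eq_append]
        exact bit_child (t := []) (by omega)

end fin

/-- The structure of the points of a Boolean algebra. -/
structure PD (C : Type*) [PartialOrder C] where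
  Ψ : C → List ℕ → Prop
  h1 : ∀ c d t, c ≤ d → Ψ c t → Ψ d t
  h2 : ∀ c d t, Dj c d → Ψ c t → Ψ d t → False
  h3 : ∀ c t, ∃ m, ∀ p, (∀ k < m, bit p k = bit t k) → (Ψ c p ↔ Ψ c t)
  cut : C → (ℕ → Bool) → ℕ → C
  h4 : ∀ c x m, cut c x m ≤ c
  h5 : ∀ c x m t, Ψ (cut c x m) t ↔ Ψ c t ∧ ∀ k < m, bit t k = x k
  h6 : ∀ c x y m, (∃ k < m, x k ≠ y k) → Dj (cut c x m) (cut c y m)
  top : C
  h7 : ∀ t, Ψ top t

theorem exists_sep {N : ℕ} (s : ℕ → List ℕ) (hs : Function.Injective s) :
    ∃ m, ∀ i < N, ∀ j < N, i ≠ j → ∃ k < m, bit (s i) k ≠ bit (s j) k := by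
  have h : ∀ i j, ∃ m, i ≠ j → ∃ k < m, bit (s i) k ≠ bit (s j) k := by
    intro i j
    by_cases hij : i = j
    · exact ⟨0, fun h => absurd hij h⟩
    · have h1 : bit (s i) ≠ bit (s j) := fun h => hij (hs (bit_inj h))
      obtain ⟨k, hk⟩ := Function.ne_iff.1 h1
      exact ⟨k + 1, fun _ => ⟨k, by omega, hk⟩⟩
  choose g hg using h
  refine ⟨(Finset.range N).sup fun i => (Finset.range N).sup fun j => g i j, ?_⟩
  intro i hi j hj hij
  obtain ⟨k, hk, h1⟩ := hg i j hij
  refine ⟨k, lt_of_lt_of_le hk ?_, h1⟩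
  have h2 : (Finset.range N).sup (fun j => g i j) ≤
      (Finset.range N).sup fun i => (Finset.range N).sup fun j => g i j :=
    Finset.le_sup (f := fun i => (Finset.range N).sup fun j => g i j) (Finset.mem_range.2 hi)
  have h3 : g i j ≤ (Finset.range N).sup fun j => g i j :=
    Finset.le_sup (f := fun j => g i j) (Finset.mem_range.2 hj)
  omega

theorem pk_iff (P : PD C) {Q : ℕ → List ℕ → Prop}
    (hQ : ∀ n l, l.length < dd n → (Q n l ↔ {a | Q n (a :: l)}.Infinite))
    {D : C → Prop} (hD : ∀ c, D c ↔ ∀ t, Ei Q 0 t → ¬ P.Ψ c t) (i : ℕ) :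
    ∀ c, pk D i c ↔ ∀ t, Ei Q i t → ¬ P.Ψ c t := by
  classical
  induction i with
  | zero => exact hD
  | succ i ih =>
    intro c
    rw [← fin_iff P.h3 hQ c i]
    unfold pk
    simp only [ih]
    constructor
    · rintro ⟨N, hN⟩
      by_contra hinf
      have hinf' : {t | Ei Q i t ∧ P.Ψ c t}.Infinite := hinf
      let s : ℕ → List ℕ := fun k => hinf'.natEmbedding _ k
      have hs : Function.Injective s := fun a b h =>
        (hinf'.natEmbedding _).injective (Subtype.ext h)
      have hs1 : ∀ k, Ei Q i (s k) ∧ P.Ψ c (s k) := fun k => (hinf'.natEmbedding _ k).2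
      obtain ⟨m, hm⟩ := exists_sep (N := N) s hs
      obtain ⟨j, hj, h1⟩ := hN (fun j => P.cut c (bit (s j)) m) (fun j _ => P.h4 _ _ _)
        (fun i hi j hj hij => P.h6 _ _ _ _ (hm i hi j hj hij))
      exact h1 (s j) (hs1 j).1 ((P.h5 _ _ _ _).2 ⟨(hs1 j).2, fun _ _ => rfl⟩)
    · intro hfin
      refine ⟨hfin.toFinset.card + 1, fun a ha hdis => ?_⟩
      by_contra hcon
      push Not at hcon
      choose s hs1 hs2 using hcon
      -- the points are distinct
      have h1 : hfin.toFinset.card < (Finset.range (hfin.toFinset.card + 1)).card := by simp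
      obtain ⟨x, hx, y, hy, hxy, h2⟩ := Finset.exists_ne_map_eq_of_card_lt_of_maps_to h1
        (f := fun j => if h : j < hfin.toFinset.card + 1 then s j h else []) (by
          intro j hj
          have hj' := Finset.mem_range.1 hj
          simp only [hj', dite_true]
          exact Finset.mem_coe.2 (hfin.mem_toFinset.2
            ⟨hs1 j hj', P.h1 _ _ _ (ha j hj') (hs2 j hj')⟩))
      have hx' := Finset.mem_range.1 hx
      have hy' := Finset.mem_range.1 hy
      simp only [hx', hy', dite_true] at h2
      refine P.h2 _ _ _ (hdis x hx' y hy' hxy) (hs2 x hx') ?_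
      rw [h2]
      exact hs2 y hy'

theorem Ei_anti {Q : ℕ → List ℕ → Prop} {i : ℕ} {t : List ℕ} (h : Ei Q (i + 1) t) :
    Ei Q i t := by
  rcases h with h | ⟨n, l, h, h1⟩
  · exact Or.inl h
  · exact Or.inr ⟨n, l, h, Or.inl (by omega)⟩

/-- The value of the invariant. -/
theorem Sinv_iff (P : PD C) {Q : ℕ → List ℕ → Prop}
    (hQ : ∀ n l, l.length < dd n → (Q n l ↔ {a | Q n (a :: l)}.Infinite))
    {D D' : C → Prop} (hD : ∀ c, D c ↔ ∀ t, Ei Q 0 t → ¬ P.Ψ c t)
    (hD' : ∀ c, D' c ↔ ∀ t : List ℕ, t.length ≤ 2 → ¬ P.Ψ c t) (n : ℕ) :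
    Sinv D D' n ↔ Q n [] := by
  unfold Sinv
  simp only [pk_iff P hQ hD, hD']
  have hdn : ∀ n, dd n = 2 * n + 2 := fun n => rfl
  constructor
  · rintro ⟨c, h1, h2⟩
    push Not at h2
    obtain ⟨t, ht, hΨ⟩ := h2
    -- points of the derivative are short
    have h3 : ∀ p, Ei Q (2 * n + 1) p → P.Ψ c p → p.length ≤ 2 := by
      intro p hp hp2
      by_contra hcon
      refine h1 (P.cut c (bit p) (len p)) (P.h4 _ _ _) ?_ p hp
        ((P.h5 _ _ _ _).2 ⟨hp2, fun _ _ => rfl⟩)
      intro q hq hq2
      rw [P.h5, ← suffix_iff] at hq2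
      have := hq2.2.length_le
      omega
    have h4 := h3 t (Ei_anti ht) hΨ
    obtain ⟨m, hm⟩ := P.h3 c t
    have hmm : ∀ l a, m ≤ a → P.Ψ c (l ++ a :: t) := by
      intro l a ha
      rw [hm]
      · exact hΨ
      · intro k hk
        exact bit_child (by omega)
    rcases ht with rfl | ⟨n', l, rfl, h5⟩
    · exfalso
      have h6 := h3 ([0, 0] ++ [m + n + 1]) (Ei_append.2 (Or.inl (by
        rw [hdn]; simp only [List.length_cons, List.length_nil]; omega))) (hmm _ _ (by omega))
      simp at h6
    · rw [hdn] at h5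
      rcases l with _ | ⟨a, l⟩
      · simp only [List.length_nil, List.nil_append] at h5 hΨ hmm
        rcases Nat.lt_or_ge n n' with h6 | h6
        · exfalso
          have h7 := h3 ([0, m] ++ [n']) (Ei_append.2 (Or.inl (by
            rw [hdn]; simp only [List.length_cons, List.length_nil]; omega)))
            (hmm [0] m le_rfl)
          simp at h7
        · obtain rfl : n = n' := by omega
          rcases h5 with h5 | h5
          · omega
          · exact h5.2
      · obtain rfl : l = [] := by
          simp only [List.length_append, List.length_cons, List.length_nil] at h4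
          exact List.length_eq_zero_iff.1 (by omega)
        exfalso
        simp only [List.length_cons, List.length_nil] at h5
        have h7 := h3 ([m, a] ++ [n']) (Ei_append.2 (Or.inl (by
          rw [hdn]; simp only [List.length_cons, List.length_nil]; omega)))
          (hmm [] m le_rfl)
        simp at h7
  · intro hQn
    refine ⟨P.cut P.top (bit [n]) (len [n]), ?_, ?_⟩
    · intro r hr hr2 t ht hΨ
      have h1 := P.h1 _ _ _ hr hΨ
      rw [P.h5, ← suffix_iff] at h1
      obtain ⟨l, hl⟩ := h1.2
      rw [← hl, Ei_append, hdn] at ht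
      refine hr2 t ?_ hΨ
      rw [← hl, List.length_append, List.length_singleton]
      omega
    · push Not
      refine ⟨[n], Ei_append (l := []).2 (Or.inr ⟨by rw [hdn]; simp, hQn⟩), ?_⟩
      exact (P.h5 _ _ _ _).2 ⟨P.h7 _, fun _ _ => rfl⟩

end Pool.Agent.H675R2.Inv
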