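import Pool.Agent.H675R2.Sys

/-!
The lattice of the c.e. subideals of a nonprincipal c.e. ideal.
-/

namespace Pool.Agent.H675R2.LJ

open Encodable Pool.Agent.Helper446 Pool.Agent.Helper446.RE Pool.Agent.H675R2.UH
  Pool.Agent.H675R2.Inv Pool.Agent.H675R2.Tree

set_option linter.unusedSectionVars false

variable {A : Type} [BooleanAlgebra A] [Primcodable A] (s : Sys A)

/-- The ideal generated by the pieces. -/
def J : Order.Ideal A :=
  mkI {x | ∃ N, x ⊓ s.e N = ⊥} ⟨0, by simp⟩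
    (fun _ _ hxy ⟨N, hN⟩ => ⟨N, inf_bot_mono hxy le_rfl hN⟩)
    (fun x y ⟨N, hN⟩ ⟨M, hM⟩ => ⟨max N M, by
      rw [inf_sup_right,
        inf_bot_mono (le_refl x) (s.e_anti (le_max_left N M)) hN,
        inf_bot_mono (le_refl y) (s.e_anti (le_max_right N M)) hM, sup_bot_eq]⟩)

theorem mem_J {x : A} : x ∈ J s ↔ ∃ N, x ⊓ s.e N = ⊥ := Iff.rfl

theorem w_mem_J (n j : ℕ) : s.w n j ∈ J s :=
  ⟨n + 1, inf_bot_mono (s.w_anti n (Nat.zero_le j)) le_rfl (s.eD n)⟩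

variable {s} in
theorem high {x : A} {N n : ℕ} (h : x ⊓ s.e N = ⊥) (hn : N ≤ n) (j : ℕ) : x ⊓ s.w n j = ⊥ :=
  inf_bot_mono le_rfl ((s.w_le_e n j).trans (s.e_anti hn)) h

/-- The set of the ultrafilters containing an ideal. -/
def Rc (K : Order.Ideal A) (n : ℕ) : Prop := ∃ j, s.w n j ∈ K

/-- The points of an ideal. -/
def Psi (K : Order.Ideal A) (t : List ℕ) : Prop := ∃ m, ∀ n, IB (bit t) m n → Rc s K n

variable [CBA A]

theorem J_re : REPred fun a => a ∈ J s :=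
  RE.exN (p := fun (x : A) N => x ⊓ s.e N = ⊥) (RE.eq (by fun_prop) (by fun_prop))

/-- the top element -/
def tp : SubI (J s) := ⟨J s, J_re s, le_rfl⟩

theorem rc_re (K : SubI (J s)) : REPred (Rc s K.1) :=
  RE.exN (p := fun n j => s.w n j ∈ K.1) (RE.comp K.2.1 (f := fun x : ℕ × ℕ => s.w x.1 x.2)
    (by fun_prop))

/-- Complementary elements. -/
structure Cpl (c d : SubI (J s)) : Prop where
  dis : ∀ x, x ∈ c.1 → x ∈ d.1 → x = ⊥
  join : ∀ x ∈ J s, ∃ u ∈ c.1, ∃ v ∈ d.1, x = u ⊔ v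

variable {s}

theorem Cpl.symm {c d : SubI (J s)} (h : Cpl s c d) : Cpl s d c :=
  ⟨fun x h1 h2 => h.dis x h2 h1, fun x hx => by
    obtain ⟨u, hu, v, hv, h1⟩ := h.join x hx
    exact ⟨v, hv, u, hu, by rw [sup_comm]; exact h1⟩⟩

theorem cp_iff' {c : SubI (J s)} : Cp c ↔ ∃ d, Cpl s c d := by
  rw [cp_iff]
  exact ⟨fun ⟨d, h1, h2⟩ => ⟨d, h1, h2⟩, fun ⟨d, h⟩ => ⟨d, h.dis, h.join⟩⟩

theorem Cpl.rc_or {c d : SubI (J s)} (h : Cpl s c d) (n : ℕ) : Rc s c.1 n ∨ Rc s d.1 n := by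
  obtain ⟨u, hu, v, hv, h1⟩ := h.join _ (w_mem_J s n 0)
  obtain ⟨j, h2 | h2⟩ := s.dec u n
  · exact Or.inl ⟨j, I_lower h2 hu⟩
  · right
    refine ⟨j, I_lower ?_ hv⟩
    have h3 : s.w n j ≤ u ⊔ v := h1 ▸ s.w_anti n (Nat.zero_le j)
    rw [← inf_eq_left.2 h3, inf_sup_left, h2, bot_sup_eq]
    exact inf_le_right

theorem Cpl.rc_dis {c d : SubI (J s)} (h : Cpl s c d) {n : ℕ} (h1 : Rc s c.1 n)
    (h2 : Rc s d.1 n) : False := by
  obtain ⟨i, hi⟩ := h1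
  obtain ⟨j, hj⟩ := h2
  exact s.w_ne n (max i j) (h.dis _ (I_lower (s.w_anti n (le_max_left i j)) hi)
    (I_lower (s.w_anti n (le_max_right i j)) hj))

theorem Cpl.rc_cp {c d : SubI (J s)} (h : Cpl s c d) : ComputablePred (Rc s c.1) := by
  refine cp_of_re (rc_re s c) ((rc_re s d).of_eq fun n => ?_)
  constructor
  · exact fun h1 h2 => h.rc_dis h2 h1
  · intro h1
    rcases h.rc_or n with h2 | h2
    · exact absurd h2 h1
    · exact h2

theorem Cpl.psi_iff {c d : SubI (J s)} (h : Cpl s c d) (t : List ℕ) :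
    ¬ Sm t (Rc s c.1) ↔ Psi s c.1 t := sm_iff h.rc_cp

/-- Localised ideals. -/
def locI (K : SubI (J s)) (T : ℕ → A → Prop) (h0 : ∀ n, T n ⊥)
    (hl : ∀ n x y, x ≤ y → T n y → T n x) (hs : ∀ n x y, T n x → T n y → T n (x ⊔ y))
    (hre : REPred fun x : ℕ × A => T x.1 x.2) : SubI (J s) := by
  refine ⟨mkI {y | y ∈ K.1 ∧ ∀ n, T n (y ⊓ s.w n 0)} ?_ ?_ ?_, ?_, ?_⟩
  · refine ⟨Order.Ideal.bot_mem _, fun n => ?_⟩
    rw [bot_inf_eq]
    exact h0 n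
  · rintro x y hxy ⟨h1, h2⟩
    exact ⟨I_lower hxy h1, fun n => hl n _ _ (inf_le_inf_right _ hxy) (h2 n)⟩
  · rintro x y ⟨h1, h2⟩ ⟨h3, h4⟩
    refine ⟨Order.Ideal.sup_mem h1 h3, fun n => ?_⟩
    rw [inf_sup_right]
    exact hs n _ _ (h2 n) (h4 n)
  · have h1 : REPred fun y : A => ∃ N, (y ∈ K.1 ∧ y ⊓ s.e N = ⊥) ∧
        ∀ n < N, T n (y ⊓ s.w n 0) := by
      refine RE.exN (p := fun (y : A) N => (y ∈ K.1 ∧ y ⊓ s.e N = ⊥) ∧
        ∀ n < N, T n (y ⊓ s.w n 0)) ?_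
      refine RE.and (RE.and (RE.comp K.2.1 (by fun_prop)) (RE.eq (by fun_prop) (by fun_prop))) ?_
      refine RE.all_lt (p := fun (x : A × ℕ) n => T n (x.1 ⊓ s.w n 0)) ?_ (by fun_prop)
      exact RE.comp hre (f := fun x : (A × ℕ) × ℕ => (x.2, x.1.1 ⊓ s.w x.2 0)) (by fun_prop)
    refine h1.of_eq fun y => ?_
    constructor
    · rintro ⟨N, ⟨h2, h3⟩, h4⟩
      refine ⟨h2, fun n => ?_⟩
      rcases Nat.lt_or_ge n N with h5 | h5
      · exact h4 n h5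
      · rw [high h3 h5]; exact h0 n
    · rintro ⟨h2, h3⟩
      obtain ⟨N, hN⟩ := K.2.2 h2
      exact ⟨N, ⟨h2, hN⟩, fun n _ => h3 n⟩
  · exact fun x hx => K.2.2 hx.1

theorem mem_locI {K : SubI (J s)} {T : ℕ → A → Prop} {h0 hl hs hre} {y : A} :
    y ∈ (locI K T h0 hl hs hre).1 ↔ y ∈ K.1 ∧ ∀ n, T n (y ⊓ s.w n 0) := Iff.rfl

/-- Complementary localised ideals. -/
theorem cpl_locI {c d : SubI (J s)} (hcd : Cpl s c d) {T T' : ℕ → A → Prop} {h0 hl hs hre}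
    {h0' hl' hs' hre'} (h1 : ∀ n y, y ∈ c.1 → y ≤ s.w n 0 → T n y → T' n y → y = ⊥)
    (h2 : ∀ n, ∀ u ∈ c.1, u ≤ s.w n 0 → ∃ g ≤ s.w n 0, T n (u ⊓ g) ∧ T' n (u ⊓ gᶜ))
    (h3 : ∀ n, ∀ v ∈ d.1, T' n v) :
    Cpl s (locI c T h0 hl hs hre) (locI (tp s) T' h0' hl' hs' hre') := by
  constructor
  · rintro y ⟨hy, hy2⟩ ⟨hy3, hy4⟩
    obtain ⟨N, hN⟩ := hy3
    refine s.zero hN fun n _ => ?_
    exact h1 n _ (I_lower inf_le_left hy) inf_le_right (hy2 n) (hy4 n)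
  · intro x hx
    obtain ⟨u, hu, v, hv, hxuv⟩ := hcd.join x hx
    obtain ⟨N, hN⟩ := hx
    have huN : u ⊓ s.e N = ⊥ := inf_bot_mono (by rw [hxuv]; exact le_sup_left) le_rfl hN
    choose g hg1 hg2 hg3 using fun n => h2 n (u ⊓ s.w n 0) (I_lower inf_le_left hu) inf_le_right
    obtain ⟨y, hy1, hy2⟩ := s.glue g hg1 N
    refine ⟨u ⊓ y, ⟨I_lower inf_le_left hu, fun n => ?_⟩, (u ⊓ yᶜ) ⊔ v, ⟨?_, fun n => ?_⟩, ?_⟩
    · refine hl n _ _ ?_ (hg2 n)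
      refine le_inf (le_inf (inf_le_left.trans inf_le_left) inf_le_right) ?_
      exact le_trans (inf_le_inf_right _ inf_le_right) (hy2 n)
    · refine ⟨N, ?_⟩
      refine inf_bot_mono ?_ le_rfl hN
      rw [hxuv]
      exact sup_le_sup_right inf_le_left v
    · rw [inf_sup_right]
      refine hs' n _ _ ?_ (h3 n _ (I_lower inf_le_left hv))
      rcases Nat.lt_or_ge n N with hn | hn
      · refine hl' n _ _ ?_ (hg3 n)
        refine le_inf (le_inf (inf_le_left.trans inf_le_left) inf_le_right) ?_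
        exact (inf_le_left.trans inf_le_right).trans (compl_le_compl (hy1 n hn))
      · rw [inf_bot_mono (inf_le_left (a := u) (b := yᶜ)) le_rfl (high huN hn 0)]
        exact h0' n
    · rw [← sup_assoc, ← inf_sup_left, sup_compl_eq_top, inf_top_eq, hxuv]

/-! ### Restriction to a ball -/

theorem cp_inball {α : Type} [Primcodable α] {f : α → ℕ × ℕ} {g : α → ℕ} (hf : Computable f)
    (hg : Computable g) : ComputablePred fun x => inball (f x) (g x) := by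
  unfold inball
  exact cp_eq (by fun_prop) (by fun_prop)

def restr (b : ℕ × ℕ) (c : SubI (J s)) : SubI (J s) :=
  locI c (fun n y => inball b n ∨ y = ⊥) (fun _ => Or.inr rfl)
    (fun _ x y hxy h => by
      rcases h with h | h
      · exact Or.inl h
      · exact Or.inr (le_bot_iff.1 (le_of_le_of_eq hxy h)))
    (fun _ x y h1 h2 => by
      rcases h1 with h1 | h1
      · exact Or.inl h1
      · rcases h2 with h2 | h2
        · exact Or.inl h2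
        · right; rw [h1, h2, sup_bot_eq])
    (RE.or (cp_inball (by fun_prop) (by fun_prop)).to_re (RE.eq (by fun_prop) (by fun_prop)))

theorem mem_restr {b : ℕ × ℕ} {c : SubI (J s)} {y : A} :
    y ∈ (restr b c).1 ↔ y ∈ c.1 ∧ ∀ n, inball b n ∨ y ⊓ s.w n 0 = ⊥ := Iff.rfl

theorem cpl_restr {c d : SubI (J s)} (hcd : Cpl s c d) (b : ℕ × ℕ) :
    ∃ d', Cpl s (restr b c) d' := by
  classical
  refine ⟨locI (tp s) (fun n y => ¬ inball b n ∨ y ∈ d.1) (fun _ => Or.inr (Order.Ideal.bot_mem _))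
    (fun _ _ _ hxy h => h.imp id fun h2 => I_lower hxy h2)
    (fun _ x y h1 h2 => by
      rcases h1 with h1 | h1
      · exact Or.inl h1
      · rcases h2 with h2 | h2
        · exact Or.inl h2
        · exact Or.inr (Order.Ideal.sup_mem h1 h2))
    (RE.or (cp_inball (by fun_prop) (by fun_prop)).not.to_re (RE.comp d.2.1 (by fun_prop))),
    cpl_locI hcd ?_ ?_ ?_⟩
  · rintro n y hy - (h1 | h1) (h2 | h2)
    · exact absurd h1 h2
    · exact hcd.dis y hy h2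
    · exact h1
    · exact h1
  · intro n u hu hun
    by_cases hn : inball b n
    · refine ⟨s.w n 0, le_rfl, Or.inl hn, Or.inr ?_⟩
      rw [← sdiff_eq, sdiff_eq_bot_iff.2 hun]
      exact Order.Ideal.bot_mem _
    · exact ⟨⊥, bot_le, Or.inr (inf_bot_eq _), Or.inl hn⟩
  · exact fun n v hv => Or.inr hv

/-! ### The points of the complemented elements -/

variable (s)

/-- The complemented elements. -/
abbrev CE : Type := {c : SubI (J s) // Cp c}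

variable {s}

theorem cp_prI {x : A} (hx : x ∈ J s) : Cp (prI x hx) := by
  rw [cp_iff']
  have hS : REPred fun a : A => a ⊓ x = ⊥ := RE.eq (by fun_prop) (by fun_prop)
  refine ⟨⟨mkI {y | y ∈ J s ∧ y ⊓ x = ⊥} ⟨Order.Ideal.bot_mem _, bot_inf_eq _⟩
    (fun y z hyz h => ⟨I_lower hyz h.1, inf_bot_mono hyz le_rfl h.2⟩)
    (fun y z h1 h2 => ⟨Order.Ideal.sup_mem h1.1 h2.1, by
      rw [inf_sup_right, h1.2, h2.2, sup_bot_eq]⟩),
    RE.and (J_re s) hS, fun y hy => hy.1⟩, ?_, ?_⟩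
  · intro y hy hy2
    rw [← inf_eq_left.2 (Order.Ideal.mem_principal.1 hy)]
    exact hy2.2
  · intro y hy
    refine ⟨y ⊓ x, Order.Ideal.mem_principal.2 inf_le_right, y ⊓ xᶜ,
      ⟨I_lower inf_le_left hy, ?_⟩, ?_⟩
    · rw [inf_assoc, compl_inf_eq_bot, inf_bot_eq]
    · rw [← inf_sup_left, sup_compl_eq_top, inf_top_eq]

theorem psi_pair {c d : Order.Ideal A} {t : List ℕ} (h1 : Psi s c t) (h2 : Psi s d t) :
    ∃ n j, s.w n j ∈ c ∧ s.w n j ∈ d := by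
  obtain ⟨m, hm⟩ := h1
  obtain ⟨m', hm'⟩ := h2
  obtain ⟨n, hn⟩ := (IB_infinite (bit t) (max m m')).nonempty
  obtain ⟨i, hi⟩ := hm n (IB_anti _ (le_max_left _ _) hn)
  obtain ⟨j, hj⟩ := hm' n (IB_anti _ (le_max_right _ _) hn)
  exact ⟨n, max i j, I_lower (s.w_anti n (le_max_left i j)) hi,
    I_lower (s.w_anti n (le_max_right i j)) hj⟩

theorem Cpl.psi_or {c d : SubI (J s)} (h : Cpl s c d) (t : List ℕ) :
    Psi s c.1 t ∨ Psi s d.1 t := by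
  rw [← h.psi_iff, ← h.symm.psi_iff, ← not_and_or]
  rintro ⟨h1, h2⟩
  obtain ⟨m, hm⟩ := h1.or h2
  refine IB_infinite (bit t) m (hm.subset fun n hn => ⟨hn, ?_⟩)
  exact h.rc_or n

theorem Cpl.psi_dis {c d : SubI (J s)} (h : Cpl s c d) {t : List ℕ} (h1 : Psi s c.1 t)
    (h2 : Psi s d.1 t) : False := by
  obtain ⟨n, j, h3, h4⟩ := psi_pair h1 h2
  exact s.w_ne n j (h.dis _ h3 h4)

theorem psi_cont {c : Order.Ideal A} {t : List ℕ} (h : Psi s c t) :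
    ∃ m, ∀ p, (∀ k < m, bit p k = bit t k) → Psi s c p := by
  obtain ⟨m, hm⟩ := h
  exact ⟨m, fun p hp => ⟨m, fun n hn => hm n ((IB_congr hp n).1 hn)⟩⟩

/-- The point structure of the complemented elements. -/
noncomputable def pd : PD (CE s) where
  Ψ c t := Psi s c.1.1 t
  h1 := fun c d t hcd ⟨m, hm⟩ => ⟨m, fun n hn => by
    obtain ⟨j, hj⟩ := hm n hn
    exact ⟨j, hcd hj⟩⟩
  h2 := fun c d t hcd h1 h2 => by
    obtain ⟨n, j, h3, h4⟩ := psi_pair h1 h2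
    have h5 := hcd ⟨prI (s.w n j) (w_mem_J s n j), cp_prI _⟩
      ((prI_le (hx := w_mem_J s n j)).2 h3) ((prI_le (hx := w_mem_J s n j)).2 h4)
      ⟨prI ⊥ (Order.Ideal.bot_mem _), cp_prI _⟩
    have h6 : s.w n j ∈ (prI (J := J s) ⊥ (Order.Ideal.bot_mem _)).1 :=
      (prI_le (hx := w_mem_J s n j)).1 h5
    exact s.w_ne n j (le_bot_iff.1 (Order.Ideal.mem_principal.1 h6))
  h3 := fun c t => by
    obtain ⟨d, hd⟩ := cp_iff'.1 c.2
    rcases hd.psi_or t with h1 | h1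
    · obtain ⟨m, hm⟩ := psi_cont h1
      exact ⟨m, fun p hp => iff_of_true (hm p hp) h1⟩
    · obtain ⟨m, hm⟩ := psi_cont h1
      exact ⟨m, fun p hp => iff_of_false (fun h => hd.psi_dis h (hm p hp))
        fun h => hd.psi_dis h h1⟩
  cut c x m := ⟨restr (nd x m).1 c.1, by
    obtain ⟨d, hd⟩ := cp_iff'.1 c.2
    exact cp_iff'.2 (cpl_restr hd _)⟩
  h4 := fun c x m y hy => hy.1
  h5 := fun c x m t => by
    constructor
    · intro h
      refine ⟨?_, ?_⟩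
      · obtain ⟨m', hm'⟩ := h
        exact ⟨m', fun n hn => by
          obtain ⟨j, hj⟩ := hm' n hn
          exact ⟨j, hj.1⟩⟩
      · by_contra hcon
        push Not at hcon
        obtain ⟨m', hm'⟩ := h
        obtain ⟨n, hn⟩ := (IB_infinite (bit t) (max m m')).nonempty
        obtain ⟨j, hj⟩ := hm' n (IB_anti _ (le_max_right _ _) hn)
        rcases hj.2 n with h1 | h1
        · exact ball_disj hcon (IB_anti (bit t) (le_max_left m m') hn).1 h1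
        · rw [inf_eq_left.2 (s.w_anti n (Nat.zero_le j))] at h1
          exact s.w_ne n j h1
    · rintro ⟨⟨m', hm'⟩, h2⟩
      refine ⟨max m m', fun n hn => ?_⟩
      obtain ⟨j, hj⟩ := hm' n (IB_anti _ (le_max_right _ _) hn)
      refine ⟨j, hj, fun n' => ?_⟩
      by_cases hnn : n = n'
      · left
        subst hnn
        have h3 := (IB_anti (bit t) (le_max_left m m') hn).1
        rwa [nd_congr h2] at h3
      · right
        exact s.w_disj hnn j 0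
  h6 := fun c x y m hxy z hz1 hz2 z' => by
    have h1 : ∀ v ∈ z.1.1, v = ⊥ := by
      intro v hv
      obtain ⟨N, hN⟩ := z.1.2.2 hv
      refine s.zero hN fun n _ => ?_
      rcases (hz1 hv).2 n with h2 | h2
      · rcases (hz2 hv).2 n with h3 | h3
        · exact (ball_disj hxy h2 h3).elim
        · exact h3
      · exact h2
    intro v hv
    rw [h1 v hv]
    exact Order.Ideal.bot_mem _
  top := ⟨tp s, cp_iff'.2 ⟨prI ⊥ (Order.Ideal.bot_mem _),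
    fun x _ hx => le_bot_iff.1 (Order.Ideal.mem_principal.1 hx),
    fun x hx => ⟨x, hx, ⊥, Order.Ideal.bot_mem _, by simp⟩⟩⟩
  h7 := fun t => ⟨0, fun n _ => ⟨0, w_mem_J s n 0⟩⟩

/-! ### The ideal of the function `k` -/

theorem T_re {k : ℕ → ℕ} (hk : REPred fun x : ℕ × ℕ => x.2 ≤ k x.1) :
    REPred fun x : ℕ × A => x.2 ⊓ s.w x.1 (k x.1) = ⊥ := by
  have h1 : REPred fun x : ℕ × A => ∃ m, m ≤ k x.1 ∧ x.2 ⊓ s.w x.1 m = ⊥ := by
    refine RE.exN (p := fun (x : ℕ × A) m => m ≤ k x.1 ∧ x.2 ⊓ s.w x.1 m = ⊥) ?_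
    exact RE.and (RE.comp hk (f := fun x : (ℕ × A) × ℕ => (x.1.1, x.2)) (by fun_prop))
      (RE.eq (by fun_prop) (by fun_prop))
  refine h1.of_eq fun x => ?_
  constructor
  · rintro ⟨m, hm, h2⟩
    exact inf_bot_mono le_rfl (s.w_anti x.1 hm) h2
  · intro h2
    exact ⟨_, le_rfl, h2⟩

/-- The part of `c` on which the ideal of `k` is defined. -/
def Vk {k : ℕ → ℕ} (hk : REPred fun x : ℕ × ℕ => x.2 ≤ k x.1) (c : SubI (J s)) : SubI (J s) :=
  locI c (fun n y => y ⊓ s.w n (k n) = ⊥) (fun _ => bot_inf_eq _)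
    (fun _ _ _ hxy h => inf_bot_mono hxy le_rfl h)
    (fun _ x y h1 h2 => by rw [inf_sup_right, h1, h2, sup_bot_eq]) (T_re hk)

theorem mem_Vk {k : ℕ → ℕ} {hk : REPred fun x : ℕ × ℕ => x.2 ≤ k x.1} {c : SubI (J s)} {y : A} :
    y ∈ (Vk hk c).1 ↔ y ∈ c.1 ∧ ∀ n, y ⊓ s.w n 0 ⊓ s.w n (k n) = ⊥ := Iff.rfl

theorem exists_sel {r : ℕ → ℕ → Prop} (hr : REPred fun x : ℕ × ℕ => r x.1 x.2)
    (h : ∀ n, ∃ j, r n j) : ∃ f : ℕ → ℕ, Computable f ∧ ∀ n, r n (f n) := by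
  obtain ⟨f, hf, hdom, hspec⟩ := uniformize hr
  have hd : ∀ x, (f x).Dom := fun x => (hdom x).2 (h x)
  exact ⟨fun x => (f x).get (hd x), hf.of_eq_tot fun x => Part.get_mem (hd x),
    fun n => hspec n _ (Part.get_mem (hd n))⟩

variable {F : List ℕ → Prop} {k : ℕ → ℕ} (hk : REPred fun x : ℕ × ℕ => x.2 ≤ k x.1)
  (hdom : ∀ f : ℕ → ℕ, Computable f → ∃ Z : ℕ → Prop, ComputablePred Z ∧
    (∀ t, F t → Sm t Z) ∧ ∀ n, ¬ Z n → f n ≤ k n)
  (hcmp : ∀ R : ℕ → Prop, ComputablePred R → (∀ t, F t → Sm t R) →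
    ∃ κ : ℕ → ℕ, Computable κ ∧ ∀ n, R n → κ n = k n)

include hdom in
theorem dv_small {c : SubI (J s)} (hc : Cp c) (h : DV (Vk hk (tp s)) c) :
    ∀ t, F t → ¬ Psi s c.1 t := by
  classical
  obtain ⟨d, hd⟩ := cp_iff'.1 hc
  obtain ⟨p, hp, hpV, hpc, hpm⟩ := h
  obtain ⟨q, hq⟩ := cp_iff'.1 hp
  have hRc := hd.rc_cp
  let r : ℕ → ℕ → Prop := fun n j => ∃ j0, ∃ y : A × A, (s.w n j0 ∈ c.1 ∧ y.1 ∈ p.1 ∧
    y.2 ∈ q.1 ∧ y.1 ⊔ y.2 = s.w n 0) ∧ s.w n j0 ⊓ y.2 ⊓ (s.w n j)ᶜ ≠ ⊥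
  have hr : REPred fun x : ℕ × ℕ => r x.1 x.2 := by
    refine RE.exN (p := fun (x : ℕ × ℕ) j0 => ∃ y : A × A, (s.w x.1 j0 ∈ c.1 ∧ y.1 ∈ p.1 ∧
      y.2 ∈ q.1 ∧ y.1 ⊔ y.2 = s.w x.1 0) ∧ s.w x.1 j0 ⊓ y.2 ⊓ (s.w x.1 x.2)ᶜ ≠ ⊥) ?_
    refine RE.ex (p := fun (x : (ℕ × ℕ) × ℕ) (y : A × A) => (s.w x.1.1 x.2 ∈ c.1 ∧ y.1 ∈ p.1 ∧
      y.2 ∈ q.1 ∧ y.1 ⊔ y.2 = s.w x.1.1 0) ∧ s.w x.1.1 x.2 ⊓ y.2 ⊓ (s.w x.1.1 x.1.2)ᶜ ≠ ⊥) ?_
    refine RE.and (RE.and ?_ (RE.and ?_ (RE.and ?_ (RE.eq (by fun_prop) (by fun_prop)))))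
      (RE.ne (by fun_prop) (by fun_prop))
    · exact RE.comp c.2.1 (f := fun x : ((ℕ × ℕ) × ℕ) × (A × A) => s.w x.1.1.1 x.1.2)
        (by fun_prop)
    · exact RE.comp p.2.1 (f := fun x : ((ℕ × ℕ) × ℕ) × (A × A) => x.2.1) (by fun_prop)
    · exact RE.comp q.2.1 (f := fun x : ((ℕ × ℕ) × ℕ) × (A × A) => x.2.2) (by fun_prop)
  -- the properties of the decomposition
  have key : ∀ n (v u : A), v ∈ p.1 → u ∈ q.1 → v ⊔ u = s.w n 0 →
      s.w n (k n) ≤ u ∧ ∀ z, z ∈ c.1 → z ≤ s.w n 0 → z ⊓ s.w n (k n) = ⊥ → z ⊓ u = ⊥ := by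
    intro n v u hv hu huv
    constructor
    · have h1 : v ⊓ s.w n (k n) = ⊥ := by
        have h2 : v ⊓ s.w n 0 ⊓ s.w n (k n) = ⊥ := (hpV hv).2 n
        rwa [inf_assoc, inf_eq_right.2 (s.w_anti n (Nat.zero_le (k n)))] at h2
      have h2 : s.w n (k n) ≤ v ⊔ u := huv ▸ s.w_anti n (Nat.zero_le (k n))
      rw [← inf_eq_left.2 h2, inf_sup_left, inf_comm _ v, h1, bot_sup_eq]
      exact inf_le_right
    · intro z hz hzn hzk
      have h1 : z ∈ (Vk hk (tp s)).1 := by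
        refine ⟨c.2.2 hz, fun n' => ?_⟩
        show z ⊓ s.w n' 0 ⊓ s.w n' (k n') = ⊥
        by_cases hnn : n = n'
        · subst hnn
          rw [inf_eq_left.2 hzn]
          exact hzk
        · rw [inf_bot_mono hzn le_rfl (s.w_disj hnn 0 0), bot_inf_eq]
      have h2 : z ∈ p.1 := by
        have h3 := hpm (prI z (c.2.2 hz)) (prI_le.2 h1) (prI_le.2 hz)
        exact prI_le.1 h3
      exact hq.dis _ (I_lower inf_le_left h2) (I_lower inf_le_right hu)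
  have hex : ∀ n, Rc s c.1 n → ∃ j, r n j := by
    rintro n ⟨j0, hj0⟩
    obtain ⟨v, hv, u, hu, huv⟩ := hq.join _ (w_mem_J s n 0)
    obtain ⟨h1, -⟩ := key n v u hv hu huv.symm
    refine ⟨max j0 (k n) + 1, j0, (v, u), ⟨hj0, hv, hu, huv.symm⟩, ?_⟩
    rw [← sdiff_eq, Ne, sdiff_eq_bot_iff]
    intro h2
    have h3 : s.w n (max j0 (k n)) ≤ s.w n j0 ⊓ u :=
      le_inf (s.w_anti n (le_max_left _ _)) ((s.w_anti n (le_max_right _ _)).trans h1)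
    exact absurd (s.w_lt n (max j0 (k n))) (not_lt_of_ge (h3.trans h2))
  have hgt : ∀ n j, r n j → k n < j := by
    rintro n j ⟨j0, ⟨v, u⟩, ⟨hj0, hv, hu, huv⟩, hne⟩
    by_contra hcon
    obtain ⟨-, h1⟩ := key n v u hv hu huv
    have h2 := h1 (s.w n j0 ⊓ (s.w n (k n))ᶜ) (I_lower inf_le_left hj0)
      (inf_le_left.trans (s.w_anti n (Nat.zero_le j0))) (by
        rw [inf_assoc, compl_inf_eq_bot, inf_bot_eq])
    apply hne
    refine inf_bot_mono (b' := (s.w n (k n))ᶜ) le_rfl (compl_le_compl (s.w_anti n (by omega))) ?_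
    rw [inf_right_comm]
    exact h2
  obtain ⟨f, hf, hfr⟩ := exists_sel (r := fun n j => (Rc s c.1 n ∧ r n j) ∨
    (¬ Rc s c.1 n ∧ j = 0)) (by
      refine RE.or (RE.and (RE.comp hRc.to_re (by fun_prop)) hr)
        (RE.and (RE.comp hRc.not.to_re (by fun_prop)) (RE.eq (by fun_prop) (by fun_prop)))) (by
      intro n
      by_cases hn : Rc s c.1 n
      · obtain ⟨j, hj⟩ := hex n hn
        exact ⟨j, Or.inl ⟨hn, hj⟩⟩
      · exact ⟨0, Or.inr ⟨hn, rfl⟩⟩)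
  obtain ⟨Z, hZ, hZs, hZk⟩ := hdom f hf
  intro t ht hΨ
  refine (hd.psi_iff t).2 hΨ ((hZs t ht).mono fun n hn => ?_)
  by_contra hcon
  have h1 := hZk n hcon
  rcases hfr n with ⟨-, h2⟩ | ⟨h2, -⟩
  · have h3 := hgt n _ h2
    omega
  · exact h2 hn

include hdom hcmp in
theorem small_dv {c : SubI (J s)} (hc : Cp c) (h : ∀ t, F t → ¬ Psi s c.1 t) :
    DV (Vk hk (tp s)) c := by
  classical
  obtain ⟨d, hd⟩ := cp_iff'.1 hc
  have hRc := hd.rc_cp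
  obtain ⟨j, hj, hjr⟩ := exists_sel (r := fun n j => s.w n j ∈ c.1 ∨ s.w n j ∈ d.1) (by
      exact RE.or (RE.comp c.2.1 (f := fun x : ℕ × ℕ => s.w x.1 x.2) (by fun_prop))
        (RE.comp d.2.1 (f := fun x : ℕ × ℕ => s.w x.1 x.2) (by fun_prop))) (by
      intro n
      rcases hd.rc_or n with ⟨j, hj⟩ | ⟨j, hj⟩
      · exact ⟨j, Or.inl hj⟩
      · exact ⟨j, Or.inr hj⟩)
  obtain ⟨Z, hZ, hZs, hZk⟩ := hdom j hj
  have hsm : ∀ t, F t → Sm t fun n => Rc s c.1 n ∨ Z n := by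
    intro t ht
    refine Sm.or ?_ (hZs t ht)
    by_contra hcon
    exact h t ht ((hd.psi_iff t).1 hcon)
  have hRZ : ComputablePred fun n => Rc s c.1 n ∨ Z n := by
    refine cp_of_re (RE.or hRc.to_re hZ.to_re) ?_
    exact (RE.and hRc.not.to_re hZ.not.to_re).of_eq fun n => by rw [not_or]
  obtain ⟨κ0, hκ0, hκk⟩ := hcmp _ hRZ hsm
  let κ : ℕ → ℕ := fun n => if Rc s c.1 n ∨ Z n then κ0 n else j n
  have hκ : Computable κ := cite hRZ hκ0 hj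
  have hz : ∀ n z, z ∈ c.1 → z ⊓ s.w n (κ n) = z ⊓ s.w n (k n) := by
    intro n z hzc
    by_cases hn : Rc s c.1 n ∨ Z n
    · simp only [κ, hn, if_true]
      rw [hκk n hn]
    · simp only [κ, hn, if_false]
      rw [not_or] at hn
      have h1 : s.w n (j n) ∈ d.1 := by
        rcases hjr n with h2 | h2
        · exact absurd ⟨_, h2⟩ hn.1
        · exact h2
      have h2 : z ⊓ s.w n (j n) = ⊥ := hd.dis _ (I_lower inf_le_left hzc)
        (I_lower inf_le_right h1)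
      rw [h2, inf_bot_mono le_rfl (s.w_anti n (hZk n hn.2)) h2]
  have hcpl : Cpl s (Vk hk c) (locI (tp s) (fun n y => y ⊓ (s.w n (κ n))ᶜ ∈ d.1)
      (fun _ => by rw [bot_inf_eq]; exact Order.Ideal.bot_mem _)
      (fun _ _ _ hxy h => I_lower (inf_le_inf_right _ hxy) h)
      (fun _ x y h1 h2 => by rw [inf_sup_right]; exact Order.Ideal.sup_mem h1 h2)
      (RE.comp d.2.1 (f := fun x : ℕ × A => x.2 ⊓ (s.w x.1 (κ x.1))ᶜ)
        (c_inf (by fun_prop) (c_compl (s.w_comp (by fun_prop) (hκ.comp (by fun_prop))))))) := by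
    refine cpl_locI hd ?_ ?_ ?_
    · intro n y hy hyn h1 h2
      have h3 := hd.dis _ (I_lower inf_le_left hy) h2
      rw [← sdiff_eq, sdiff_eq_bot_iff] at h3
      rw [← inf_eq_left.2 h3, hz n y hy]
      exact h1
    · intro n u hu hun
      refine ⟨s.w n 0 ⊓ (s.w n (k n))ᶜ, inf_le_left, ?_, ?_⟩
      · rw [inf_assoc, inf_assoc, compl_inf_eq_bot, inf_bot_eq, inf_bot_eq]
      · have h1 : u ⊓ (s.w n 0 ⊓ (s.w n (k n))ᶜ)ᶜ ⊓ (s.w n (κ n))ᶜ = ⊥ := by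
          rw [compl_inf, compl_compl, inf_sup_left]
          have h2 : u ⊓ (s.w n 0)ᶜ = ⊥ := by rw [← sdiff_eq, sdiff_eq_bot_iff]; exact hun
          rw [h2, bot_sup_eq, ← hz n u hu, inf_assoc, inf_compl_eq_bot, inf_bot_eq]
        rw [h1]
        exact Order.Ideal.bot_mem _
    · intro n v hv
      exact I_lower inf_le_left hv
  refine ⟨Vk hk c, cp_iff'.2 ⟨_, hcpl⟩, fun y hy => ⟨c.2.2 hy.1, hy.2⟩, fun y hy => hy.1, ?_⟩
  intro v hv hvc y hy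
  exact ⟨hvc hy, (hv hy).2⟩

end Pool.Agent.H675R2.LJ
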