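import Pool.Agent.H675R2.UD
import Pool.Agent.H675R2.Inv

/-!
The complexity of the invariant in a computable Boolean algebra.
-/

namespace Pool.Agent.H675R2.Low

open Encodable Pool.Agent.Helper446 Pool.Agent.Helper446.RE Pool.Agent.H675R2.UH
  Pool.Agent.H675R2.Inv

variable {A : Type} [BooleanAlgebra A] [Primcodable A]

/-- the `i`-th entry -/
def ent (l : List A) (i : ℕ) : A := (l[i]?).getD ⊥

@[fun_prop] theorem ent_comp {α : Type} [Primcodable α] {f : α → List A} {g : α → ℕ}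
    (hf : Computable f) (hg : Computable g) : Computable fun x => ent (f x) (g x) :=
  Computable.option_getD (by fun_prop) (by fun_prop)

/-- the operator on sets of codes -/
def opN (A : Type) [BooleanAlgebra A] [Primcodable A] (P : ℕ → Prop) (y : ℕ) : Prop :=
  ∃ N, ∀ l : List A, (∀ i < N, ent l i ⊓ gd ⊥ y = ent l i) →
    (∀ i < N, ∀ j < N, i ≠ j → ent l i ⊓ ent l j = ⊥) → ∃ i < N, P (encode (ent l i))

theorem opN_US (hinf : Computable₂ fun a b : A => a ⊓ b) :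
    US (fun x : (ℕ × ℕ) × ℕ => x.1.1 + 2) fun x => opN A (Uy x.1.1 x.1.2) x.2 := by
  have hi : Computable fun x : A × A => x.1 ⊓ x.2 := hinf
  have h1 : US (fun x : (((ℕ × ℕ) × ℕ) × ℕ) × List A => x.1.1.1.1) fun x =>
      (∀ i < x.1.2, ent x.2 i ⊓ gd ⊥ x.1.1.2 = ent x.2 i) →
      (∀ i < x.1.2, ∀ j < x.1.2, i ≠ j → ent x.2 i ⊓ ent x.2 j = ⊥) →
      ∃ i < x.1.2, Uy x.1.1.1.1 x.1.1.1.2 (encode (ent x.2 i)) := by
    have hf : Computable fun x : (((ℕ × ℕ) × ℕ) × ℕ) × List A => x.1.1.1.1 := by fun_prop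
    refine US.imp hf ?_ (US.imp hf ?_ ?_)
    · refine UP.all_lt (P := fun (x : (((ℕ × ℕ) × ℕ) × ℕ) × List A) i =>
        ent x.2 i ⊓ gd ⊥ x.1.1.2 = ent x.2 i) hf (by fun_prop) ?_
      refine UP.of_cp (by fun_prop) (cp_eq ?_ (by fun_prop))
      exact hi.comp (g := fun x : ((((ℕ × ℕ) × ℕ) × ℕ) × List A) × ℕ =>
        (ent x.1.2 x.2, gd ⊥ x.1.1.1.2)) (by fun_prop)
    · refine UP.all_lt (P := fun (x : (((ℕ × ℕ) × ℕ) × ℕ) × List A) i =>
        ∀ j < x.1.2, i ≠ j → ent x.2 i ⊓ ent x.2 j = ⊥) hf (by fun_prop) ?_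
      refine UP.all_lt (P := fun (x : ((((ℕ × ℕ) × ℕ) × ℕ) × List A) × ℕ) j =>
        x.2 ≠ j → ent x.1.2 x.2 ⊓ ent x.1.2 j = ⊥) (by fun_prop) (by fun_prop) ?_
      refine UP.imp (by fun_prop) (US.of_cp (by fun_prop)
        (ComputablePred.not (cp_eq (by fun_prop) (by fun_prop)))) ?_
      refine UP.of_cp (by fun_prop) (cp_eq ?_ (by fun_prop))
      exact hi.comp (g := fun x : (((((ℕ × ℕ) × ℕ) × ℕ) × List A) × ℕ) × ℕ =>
        (ent x.1.1.2 x.1.2, ent x.1.1.2 x.2)) (by fun_prop)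
    · refine US.ex_lt (P := fun (x : (((ℕ × ℕ) × ℕ) × ℕ) × List A) i =>
        Uy x.1.1.1.1 x.1.1.1.2 (encode (ent x.2 i))) hf (by fun_prop) ?_
      exact uy_US.comp (g := fun x : ((((ℕ × ℕ) × ℕ) × ℕ) × List A) × ℕ =>
        ((x.1.1.1.1.1, x.1.1.1.1.2), encode (ent x.1.2 x.2))) (by fun_prop)
  have h2 := US.allP (f := fun x : ((ℕ × ℕ) × ℕ) × ℕ => x.1.1.1)
    (P := fun (x : ((ℕ × ℕ) × ℕ) × ℕ) (l : List A) =>
      (∀ i < x.2, ent l i ⊓ gd ⊥ x.1.2 = ent l i) →
      (∀ i < x.2, ∀ j < x.2, i ≠ j → ent l i ⊓ ent l j = ⊥) →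
      ∃ i < x.2, Uy x.1.1.1 x.1.1.2 (encode (ent l i))) (by fun_prop) h1
  exact UP.exS (f := fun x : (ℕ × ℕ) × ℕ => x.1.1 + 1)
    (P := fun (x : (ℕ × ℕ) × ℕ) (N : ℕ) => ∀ l : List A,
      (∀ i < N, ent l i ⊓ gd ⊥ x.2 = ent l i) →
      (∀ i < N, ∀ j < N, i ≠ j → ent l i ⊓ ent l j = ⊥) →
      ∃ i < N, Uy x.1.1 x.1.2 (encode (ent l i))) (by fun_prop) h2

omit [Primcodable A] in
theorem dj_iff {a b : A} : Dj a b ↔ a ⊓ b = ⊥ := by
  constructor
  · intro h
    exact le_bot_iff.1 (h (a ⊓ b) inf_le_left inf_le_right ⊥)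
  · intro h x hx hy y
    have h1 : x ≤ ⊥ := h ▸ le_inf hx hy
    exact h1.trans bot_le

theorem pk_opN (D : A → Prop) (n : ℕ) :
    ∀ a : A, pk D n a ↔ ((opN A)^[n] fun y => D (gd ⊥ y)) (encode a) := by
  induction n with
  | zero =>
    intro a
    simp only [Function.iterate_zero, id_eq, gd_encode]
    exact Iff.rfl
  | succ n ih =>
    intro a
    rw [Function.iterate_succ_apply']
    unfold pk opN
    simp only [ih, gd_encode]
    refine exists_congr fun N => ?_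
    constructor
    · intro h l h1 h2
      exact h (ent l) (fun i hi => inf_eq_left.1 (h1 i hi))
        fun i hi j hj hij => dj_iff.2 (h2 i hi j hj hij)
    · intro h a' h1 h2
      have h3 : ∀ i < N, ent ((List.range N).map a') i = a' i := by
        intro i hi
        unfold ent
        simp [hi]
      obtain ⟨i, hi, h4⟩ := h ((List.range N).map a')
        (fun i hi => by rw [h3 i hi]; exact inf_eq_left.2 (h1 i hi))
        (fun i hi j hj hij => by
          rw [h3 i hi, h3 j hj]; exact dj_iff.1 (h2 i hi j hj hij))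
      refine ⟨i, hi, ?_⟩
      rwa [h3 i hi] at h4

theorem pk_US (hinf : Computable₂ fun a b : A => a ⊓ b) {D : A → Prop} (hD : US (fun _ => 1) D) :
    US (fun x : ℕ × A => 2 * x.1 + 1) fun x => pk D x.1 x.2 := by
  have h1 := US.iter (op := opN A) (P0 := fun y => D (gd ⊥ y)) (c := 1) (opN_US hinf)
    (hD.comp (g := fun y : ℕ => gd (⊥ : A) y) (by fun_prop))
  exact (h1.comp (g := fun x : ℕ × A => (x.1, encode x.2)) (by fun_prop)).of_iff
    fun x => (pk_opN D x.1 x.2).symm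

theorem Sinv_US (hinf : Computable₂ fun a b : A => a ⊓ b) {D D' : A → Prop}
    (hD : US (fun _ => 1) D) (hD' : US (fun _ => 1) D') :
    US (fun n => 4 * n + 6) (Sinv D D') := by
  have hi : Computable fun x : A × A => x.1 ⊓ x.2 := hinf
  have hpk := pk_US hinf hD
  have h1 : US (fun x : (ℕ × A) × A => 4 * x.1.1 + 3) fun x => pk D (2 * x.1.1 + 1) x.2 :=
    (hpk.comp (g := fun x : (ℕ × A) × A => (2 * x.1.1 + 1, x.2)) (by fun_prop)).of_eq
      fun x => by ring
  have h2 : UP (fun x : (ℕ × A) × A => 4 * x.1.1 + 3) fun x => ¬ D' x.2 := by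
    have h3 : UP (fun x : (ℕ × A) × A => 1) fun x => ¬ D' x.2 :=
      (hD'.comp (g := fun x : (ℕ × A) × A => x.2) (by fun_prop)).toUP
    exact h3.mono (by fun_prop) (by fun_prop) fun y => by omega
  have h2' : US (fun x : (ℕ × A) × A => 4 * x.1.1 + 3) fun x => ¬ D' x.2 := by
    have h3 : UP (fun x : (ℕ × A) × A => 1) fun x => ¬ D' x.2 :=
      (hD'.comp (g := fun x : (ℕ × A) × A => x.2) (by fun_prop)).toUP
    exact h3.toS.mono (by fun_prop) (by fun_prop) fun y => by omega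
  have h4 : US (fun x : (ℕ × A) × A => 4 * x.1.1 + 3) fun x =>
      x.2 ⊓ x.1.2 = x.2 → D' x.2 → pk D (2 * x.1.1 + 1) x.2 := by
    refine US.imp (by fun_prop) (UP.of_cp (by fun_prop) (cp_eq ?_ (by fun_prop))) ?_
    · exact hi.comp (g := fun x : (ℕ × A) × A => (x.2, x.1.2)) (by fun_prop)
    · exact (US.or (by fun_prop) h2' h1).of_iff fun x => by rw [imp_iff_not_or]
  have h5 := US.allP (f := fun x : ℕ × A => 4 * x.1 + 3)
    (P := fun (x : ℕ × A) (r : A) => r ⊓ x.2 = r → D' r → pk D (2 * x.1 + 1) r)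
    (by fun_prop) h4
  have h6 : UP (fun x : ℕ × A => 4 * x.1 + 5) fun x => ∀ r : A, r ⊓ x.2 = r → D' r →
      pk D (2 * x.1 + 1) r := h5.mono (by fun_prop) (by fun_prop) fun y => by omega
  have h7 : UP (fun x : ℕ × A => 4 * x.1 + 5) fun x => ¬ pk D (2 * x.1 + 2) x.2 := by
    have h8 : US (fun x : ℕ × A => 4 * x.1 + 5) fun x => pk D (2 * x.1 + 2) x.2 :=
      (hpk.comp (g := fun x : ℕ × A => (2 * x.1 + 2, x.2)) (by fun_prop)).of_eq
        fun x => by ring
    exact h8.toUP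
  have h9 := UP.exS (f := fun n : ℕ => 4 * n + 5) (P := fun (n : ℕ) (c : A) =>
    (∀ r : A, r ⊓ c = r → D' r → pk D (2 * n + 1) r) ∧ ¬ pk D (2 * n + 2) c)
    (by fun_prop) (UP.and (by fun_prop) h6 h7)
  refine h9.of_iff fun n => ?_
  unfold Sinv
  simp only [inf_eq_left]

/-- The relative complementation predicate of a c.e. set has level one. -/
theorem D_US (hinf : Computable₂ fun a b : A => a ⊓ b) {V : A → Prop} (hV : REPred V) :
    US (fun _ => 1) fun a => ∃ p, V p ∧ p ≤ a ∧ ∀ v, V v → v ≤ a → v ≤ p := by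
  have hi : Computable fun x : A × A => x.1 ⊓ x.2 := hinf
  have hV' : US (fun _ : A => 0) V := US.of_re (by fun_prop) hV
  have h1 : UP (fun x : (A × A) × A => 0) fun x => V x.2 → x.2 ⊓ x.1.1 = x.2 →
      x.2 ⊓ x.1.2 = x.2 := by
    refine UP.imp (by fun_prop) (hV'.comp (g := fun x : (A × A) × A => x.2) (by fun_prop)) ?_
    refine UP.imp (by fun_prop) (US.of_cp (by fun_prop) (cp_eq ?_ (by fun_prop)))
      (UP.of_cp (by fun_prop) (cp_eq ?_ (by fun_prop)))
    · exact hi.comp (g := fun x : (A × A) × A => (x.2, x.1.1)) (by fun_prop)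
    · exact hi.comp (g := fun x : (A × A) × A => (x.2, x.1.2)) (by fun_prop)
  have h2 : US (fun _ : A × A => 1) fun x => ∀ v, V v → v ⊓ x.1 = v → v ⊓ x.2 = v := by
    have h3 := UP.all (f := fun _ : A × A => 0) (P := fun (x : A × A) (v : A) =>
      V v → v ⊓ x.1 = v → v ⊓ x.2 = v) (by fun_prop) h1
    exact h3.toS
  have h4 : US (fun _ : A × A => 1) fun x => x.2 ⊓ x.1 = x.2 := by
    refine US.of_cp (by fun_prop) (cp_eq ?_ (by fun_prop))
    exact hi.comp (g := fun x : A × A => (x.2, x.1)) (by fun_prop)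
  have h5 : US (fun _ : A × A => 1) fun x => V x.2 :=
    US.of_re (by fun_prop) (RE.comp hV (by fun_prop))
  have h6 := US.ex (f := fun _ : A => 1) (P := fun a p : A => V p ∧ p ⊓ a = p ∧
    ∀ v, V v → v ⊓ a = v → v ⊓ p = v) (by fun_prop)
    (US.and (by fun_prop) h5 (US.and (by fun_prop) h4 h2))
  refine h6.of_iff fun a => ?_
  simp only [inf_eq_left]

/-- The set which is not the invariant of a pair of predicates of level one. -/
def Star (n : ℕ) : Prop := ¬ Dg (fun n => 4 * n + 6) n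

theorem star_UP : UP (fun n => 4 * n + 6) Star :=
  (dg_US (g := fun n => 4 * n + 6) (by fun_prop)).toUP

theorem star_not {D D' : A → Prop} (hinf : Computable₂ fun a b : A => a ⊓ b)
    (hD : US (fun _ => 1) D) (hD' : US (fun _ => 1) D') (h : ∀ n, Sinv D D' n ↔ Star n) :
    False :=
  dg_diag ((Sinv_US hinf hD hD').of_iff h)

end Pool.Agent.H675R2.Low
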