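import Pool.Agent.H675R2.Core

/-!
Every nonprincipal c.e. ideal comes from a computable partition.
-/

namespace Pool.Agent.H675R2.NonPr

open Encodable Pool.Agent.Helper446 Pool.Agent.Helper446.RE Pool.Agent.H675R2.UH
  Pool.Agent.H675R2.Inv Pool.Agent.H675R2.Tree Pool.Agent.H675R2.Low Pool.Agent.H675R2.LJ

theorem exists_sel' {α β : Type} [Primcodable α] [Primcodable β] {r : α → β → Prop}
    (hr : REPred fun x : α × β => r x.1 x.2) (h : ∀ n, ∃ j, r n j) :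
    ∃ f : α → β, Computable f ∧ ∀ n, r n (f n) := by
  obtain ⟨f, hf, hdom, hspec⟩ := uniformize hr
  have hd : ∀ x, (f x).Dom := fun x => (hdom x).2 (h x)
  exact ⟨fun x => (f x).get (hd x), hf.of_eq_tot fun x => Part.get_mem (hd x),
    fun n => hspec n _ (Part.get_mem (hd n))⟩

variable {A : Type} [BooleanAlgebra A] [Primcodable A] [CBA A]

/-- One step towards an ultrafilter. -/
theorem exists_step (hatomless : ∀ a : A, a ≠ ⊥ → ∃ b : A, b ≠ ⊥ ∧ b < a) :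
    ∃ S : ℕ × A → A, Computable S ∧ ∀ j x, x ≠ ⊥ → S (j, x) ≠ ⊥ ∧ S (j, x) < x ∧
      (S (j, x) ≤ gd ⊥ j ∨ S (j, x) ⊓ gd ⊥ j = ⊥) := by
  obtain ⟨S, hS, hr⟩ := exists_sel' (α := ℕ × A) (β := A) (r := fun x y => x.2 = ⊥ ∨
    ((y ≠ ⊥ ∧ y ⊓ x.2 = y ∧ y ≠ x.2) ∧ (y ⊓ gd ⊥ x.1 = y ∨ y ⊓ gd ⊥ x.1 = ⊥))) (by
      refine RE.or (RE.eq (by fun_prop) (by fun_prop)) (RE.and (RE.and (RE.ne (by fun_prop)
        (by fun_prop)) (RE.and (RE.eq (by fun_prop) (by fun_prop)) (RE.ne (by fun_prop)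
        (by fun_prop)))) (RE.or (RE.eq (by fun_prop) (by fun_prop)) (RE.eq (by fun_prop)
        (by fun_prop))))) (by
      rintro ⟨j, x⟩
      dsimp only
      by_cases hx : x = ⊥
      · exact ⟨⊥, Or.inl hx⟩
      · by_cases hu : x ⊓ gd ⊥ j = ⊥
        · obtain ⟨y, hy, hyx⟩ := hatomless x hx
          exact ⟨y, Or.inr ⟨⟨hy, inf_eq_left.2 hyx.le, hyx.ne⟩,
            Or.inr (inf_bot_mono hyx.le le_rfl hu)⟩⟩
        · obtain ⟨y, hy, hyx⟩ := hatomless _ hu
          have h1 : y < x := lt_of_lt_of_le hyx inf_le_left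
          exact ⟨y, Or.inr ⟨⟨hy, inf_eq_left.2 h1.le, h1.ne⟩,
            Or.inl (inf_eq_left.2 (hyx.le.trans inf_le_right))⟩⟩)
  refine ⟨S, hS, fun j x hx => ?_⟩
  rcases hr (j, x) with h | ⟨⟨h1, h2, h3⟩, h4⟩
  · exact absurd h hx
  · exact ⟨h1, lt_of_le_of_ne (inf_eq_left.1 h2) h3, h4.imp inf_eq_left.1 id⟩

theorem exists_sys (hatomless : ∀ a : A, a ≠ ⊥ → ∃ b : A, b ≠ ⊥ ∧ b < a) {J0 : Order.Ideal A}
    (hJ : REPred fun a => a ∈ J0) (hnp : ∀ x, J0 ≠ Order.Ideal.principal x) :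
    ∃ s : Sys A, J s = J0 := by
  obtain ⟨f, hf, hfJ⟩ := exists_enum hJ (Order.Ideal.bot_mem J0)
  -- the partial joins
  let y : ℕ → A := fun n => Nat.rec ⊥ (fun n x => x ⊔ f n) n
  have hy : Computable y := by
    refine Computable.nat_rec (f := fun n : ℕ => n) (g := fun _ => (⊥ : A))
      (h := fun _ (q : ℕ × A) => q.2 ⊔ f q.1) (by fun_prop) (by fun_prop) ?_
    unfold Computable₂
    have h1 : Computable fun p : ℕ × (ℕ × A) => f p.2.1 := hf.comp (by fun_prop)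
    fun_prop
  have hyS : ∀ n, y (n + 1) = y n ⊔ f n := fun n => rfl
  have hymono : ∀ {m n}, m ≤ n → y m ≤ y n := by
    intro m n h
    induction n, h using Nat.le_induction with
    | base => exact le_rfl
    | succ k hk ih => exact ih.trans (by rw [hyS]; exact le_sup_left)
  have hyJ : ∀ n, y n ∈ J0 := by
    intro n
    induction n with
    | zero => exact Order.Ideal.bot_mem J0
    | succ n ih => rw [hyS]; exact Order.Ideal.sup_mem ih ((hfJ _).2 ⟨n, rfl⟩)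
  have hcof : ∀ x ∈ J0, ∃ n, x ≤ y n := by
    intro x hx
    obtain ⟨n, rfl⟩ := (hfJ x).1 hx
    exact ⟨n + 1, by rw [hyS]; exact le_sup_right⟩
  have hinc : ∀ n, ∃ m, n < m ∧ y m ≠ y n := by
    intro n
    by_contra hcon
    push Not at hcon
    apply hnp (y n)
    ext x
    constructor
    · intro hx
      obtain ⟨m, hm⟩ := hcof x hx
      have h1 : y (max m (n + 1)) = y n := hcon _ (by omega)
      have h2 : x ≤ y n := h1 ▸ hm.trans (hymono (le_max_left _ _))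
      exact Order.Ideal.mem_principal.2 h2
    · intro hx
      exact I_lower (Order.Ideal.mem_principal.1 hx) (hyJ n)
  obtain ⟨S, hS, hSr⟩ := exists_sel' (α := ℕ) (β := ℕ) (r := fun n m => n < m ∧ y m ≠ y n) (by
    refine RE.and (RE.lt (by fun_prop) (by fun_prop)) (RE.ne ?_ ?_)
    · exact hy.comp (by fun_prop)
    · exact hy.comp (by fun_prop)) hinc
  let g : ℕ → ℕ := fun n => Nat.rec 0 (fun _ m => S m) n
  have hg : Computable g := by
    refine Computable.nat_rec (f := fun n : ℕ => n) (g := fun _ => 0)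
      (h := fun _ (q : ℕ × ℕ) => S q.2) (by fun_prop) (by fun_prop) ?_
    unfold Computable₂
    exact hS.comp (by fun_prop)
  have hgS : ∀ n, g (n + 1) = S (g n) := fun n => rfl
  have hgn : ∀ n, n ≤ g n := by
    intro n
    induction n with
    | zero => exact le_rfl
    | succ n ih => have := (hSr (g n)).1; rw [hgS]; omega
  let z : ℕ → A := fun n => y (g n)
  have hz : Computable z := hy.comp hg
  have hz0 : z 0 = ⊥ := rfl
  have hzlt : ∀ n, z n < z (n + 1) := fun n =>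
    lt_of_le_of_ne (hymono (by rw [hgS]; exact (hSr (g n)).1.le)) (hSr (g n)).2.symm
  obtain ⟨T, hT, hTr⟩ := exists_step hatomless
  have hpc : ∀ n, z (n + 1) ⊓ (z n)ᶜ ≠ ⊥ := by
    intro n h
    rw [← sdiff_eq, sdiff_eq_bot_iff] at h
    exact absurd (hzlt n) (not_lt_of_ge h)
  let w : ℕ → ℕ → A := fun n j => Nat.rec (z (n + 1) ⊓ (z n)ᶜ) (fun j x => T (j, x)) j
  have hw : Computable₂ w := by
    unfold Computable₂
    have h1 : Computable fun x : ℕ × ℕ => z (x.1 + 1) :=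
      hz.comp (g := fun x : ℕ × ℕ => x.1 + 1) (by fun_prop)
    have h2 : Computable fun x : ℕ × ℕ => z x.1 :=
      hz.comp (g := fun x : ℕ × ℕ => x.1) (by fun_prop)
    refine Computable.nat_rec (f := fun x : ℕ × ℕ => x.2) (g := fun x => z (x.1 + 1) ⊓ (z x.1)ᶜ)
      (h := fun _ (q : ℕ × A) => T (q.1, q.2)) (by fun_prop) (by fun_prop) ?_
    unfold Computable₂
    exact hT.comp (g := fun x : (ℕ × ℕ) × (ℕ × A) => (x.2.1, x.2.2)) (by fun_prop)
  have hw0 : ∀ n, w n 0 = z (n + 1) ⊓ (z n)ᶜ := fun n => rfl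
  have hwS : ∀ n j, w n (j + 1) = T (j, w n j) := fun n j => rfl
  have hwne : ∀ n j, w n j ≠ ⊥ := by
    intro n j
    induction j with
    | zero => exact hpc n
    | succ j ih => rw [hwS]; exact (hTr j _ ih).1
  refine ⟨⟨fun n => (z n)ᶜ, w, by fun_prop, hw, ?_, ?_, ?_, ?_, ?_⟩, ?_⟩
  · rw [hz0, compl_bot]
  · intro n
    rw [hw0]
    refine le_antisymm ?_ (sup_le inf_le_right (compl_le_compl (hzlt n).le))
    calc (z n)ᶜ = (z n)ᶜ ⊓ (z (n + 1) ⊔ (z (n + 1))ᶜ) := by rw [sup_compl_eq_top, inf_top_eq]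
      _ = (z n)ᶜ ⊓ z (n + 1) ⊔ (z n)ᶜ ⊓ (z (n + 1))ᶜ := inf_sup_left _ _ _
      _ ≤ z (n + 1) ⊓ (z n)ᶜ ⊔ (z (n + 1))ᶜ :=
        sup_le_sup (by rw [inf_comm]) inf_le_right
  · intro n
    rw [hw0, inf_right_comm, inf_compl_eq_bot, bot_inf_eq]
  · intro n j
    rw [hwS]
    exact (hTr j _ (hwne n j)).2.1
  · intro x n
    refine ⟨encode x + 1, ?_⟩
    have h1 := (hTr (encode x) _ (hwne n (encode x))).2.2
    rw [gd_encode] at h1
    exact h1
  · ext x
    constructor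
    · rintro ⟨N, hN⟩
      have h1 : x ≤ z N := by
        have h2 : x ⊓ (z N)ᶜ = ⊥ := hN
        rwa [← sdiff_eq, sdiff_eq_bot_iff] at h2
      exact I_lower h1 (hyJ _)
    · intro hx
      obtain ⟨n, hn⟩ := hcof x hx
      refine ⟨n, ?_⟩
      have h1 : x ≤ z n := hn.trans (hymono (hgn n))
      show x ⊓ (z n)ᶜ = ⊥
      rw [← sdiff_eq, sdiff_eq_bot_iff]
      exact h1

/-- The main theorem, for algebras on natural numbers. -/
theorem no_iso (hatomless : ∀ a : A, a ≠ ⊥ → ∃ b : A, b ≠ ⊥ ∧ b < a) {J0 : Order.Ideal A}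
    (hJ : REPred fun a => a ∈ J0) (hnp : ∀ x, J0 ≠ Order.Ideal.principal x) (a : A) :
    IsEmpty (SubI (Order.Ideal.principal a) ≃o SubI J0) := by
  obtain ⟨s, rfl⟩ := exists_sys hatomless hJ hnp
  exact ⟨fun Φ => Core.no_iso s Φ.symm⟩

end Pool.Agent.H675R2.NonPr
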