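import Pool.Agent.H675R2.Fk
import Pool.Agent.Helper446.BTree

/-!
A computable partition with computable generating sequences of ultrafilters, and ideals.
-/

namespace Pool.Agent.H675R2.LJ

open Encodable Pool.Agent.Helper446 Pool.Agent.Helper446.RE Pool.Agent.H675R2.UH
  Pool.Agent.H675R2.Inv Pool.Agent.H675R2.Tree

/-- A computable Boolean algebra. -/
class CBA (A : Type) [BooleanAlgebra A] [Primcodable A] : Prop where
  sup : Computable₂ fun a b : A => a ⊔ b
  inf : Computable₂ fun a b : A => a ⊓ b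
  compl : Computable fun a : A => aᶜ

section cba

variable {A : Type} [BooleanAlgebra A] [Primcodable A] [CBA A] {α : Type*} [Primcodable α]

@[fun_prop] theorem c_sup {f g : α → A} (hf : Computable f) (hg : Computable g) :
    Computable fun x => f x ⊔ g x := CBA.sup.comp hf hg

@[fun_prop] theorem c_inf {f g : α → A} (hf : Computable f) (hg : Computable g) :
    Computable fun x => f x ⊓ g x := CBA.inf.comp hf hg

@[fun_prop] theorem c_compl {f : α → A} (hf : Computable f) :
    Computable fun x => (f x)ᶜ := CBA.compl.comp hf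

end cba

/-- The computable partition `w n 0` of unity (together with its tails `e n`) and in every piece
a strictly decreasing sequence generating an ultrafilter. -/
structure Sys (A : Type) [BooleanAlgebra A] [Primcodable A] where
  e : ℕ → A
  w : ℕ → ℕ → A
  he : Computable e
  hw : Computable₂ w
  e0 : e 0 = ⊤
  eS : ∀ n, e n = w n 0 ⊔ e (n + 1)
  eD : ∀ n, w n 0 ⊓ e (n + 1) = ⊥
  w_lt : ∀ n j, w n (j + 1) < w n j
  dec : ∀ x n, ∃ j, w n j ≤ x ∨ w n j ⊓ x = ⊥

theorem replicate_comp {β : Type} [Primcodable β] (c : β) :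
    Computable fun n : ℕ => List.replicate n c := by
  have h := Computable.nat_rec (f := fun n : ℕ => n) (g := fun _ => ([] : List β))
    (h := fun _ (q : ℕ × List β) => c :: q.2) (by fun_prop) (by fun_prop)
    (by unfold Computable₂; fun_prop)
  refine h.of_eq fun n => ?_
  induction n with
  | zero => rfl
  | succ n ih => rw [List.replicate_succ, ← ih]

theorem exists_sys {A : Type} [BooleanAlgebra A] [Primcodable A] [CBA A] (hnt : (⊤ : A) ≠ ⊥)
    (hatomless : ∀ a : A, a ≠ ⊥ → ∃ b : A, b ≠ ⊥ ∧ b < a) : Nonempty (Sys A) := by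
  obtain ⟨b, hb, hb1, hb2, hb3, hb4, hb5⟩ :=
    BTree.exists_btree (CBA.sup (A := A)) CBA.inf CBA.compl hnt hatomless
  have hpre : ∀ σ l : List Bool, b (σ ++ l) ≤ b σ := by
    intro σ l
    induction l using List.reverseRecOn with
    | nil => simp
    | append_singleton l x ih =>
      rw [← List.append_assoc]
      refine le_trans ?_ ih
      rw [← hb2 (σ ++ l)]
      cases x
      · exact le_sup_left
      · exact le_sup_right
  have hr1 : Computable fun n : ℕ => List.replicate n true := replicate_comp true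
  have hr2 : Computable fun n : ℕ => List.replicate n false := replicate_comp false
  refine ⟨⟨fun n => b (List.replicate n true), fun n j =>
    b (List.replicate n true ++ [false] ++ List.replicate j false), hb.comp hr1, ?_, ?_, ?_, ?_,
    ?_, ?_⟩⟩
  · unfold Computable₂
    have h1 : Computable fun p : ℕ × ℕ => List.replicate p.1 true := hr1.comp (by fun_prop)
    have h2 : Computable fun p : ℕ × ℕ => List.replicate p.2 false := hr2.comp (by fun_prop)
    exact hb.comp (by fun_prop)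
  · exact hb1
  · intro n
    rw [List.replicate_succ', List.replicate_zero, List.append_nil, hb2]
  · intro n
    rw [List.replicate_succ', List.replicate_zero, List.append_nil, hb3]
  · intro n j
    rw [List.replicate_succ', ← List.append_assoc]
    set τ := List.replicate n true ++ [false] ++ List.replicate j false
    refine lt_of_le_of_ne (hpre _ _) ?_
    intro h
    have h1 : b (τ ++ [true]) ≤ b (τ ++ [false]) := by rw [h]; exact hpre _ _
    have h2 : b (τ ++ [true]) ≤ b (τ ++ [false]) ⊓ b (τ ++ [true]) := le_inf h1 le_rfl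
    rw [hb3] at h2
    exact hb4 _ (le_bot_iff.1 h2)
  · intro x n
    obtain ⟨m, hm⟩ := hb5 x
    refine ⟨m, ?_⟩
    set τ := List.replicate n true ++ [false] ++ List.replicate m false with hτ
    have h1 : (τ.take m).length = m := by
      rw [List.length_take, hτ]
      simp
      omega
    have h2 : b τ ≤ b (τ.take m) := by
      conv_lhs => rw [← List.take_append_drop m τ]
      exact hpre _ _
    rcases hm _ h1 with h3 | h3
    · exact Or.inl (h2.trans h3)
    · right
      have h4 : b τ ⊓ x ≤ b (τ.take m) ⊓ x := inf_le_inf_right x h2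
      rw [h3] at h4
      exact le_bot_iff.1 h4

section sys

variable {A : Type} [BooleanAlgebra A] [Primcodable A] (s : Sys A)

@[fun_prop] theorem Sys.e_comp {α : Type*} [Primcodable α] {f : α → ℕ} (hf : Computable f) :
    Computable fun x => s.e (f x) := s.he.comp hf

@[fun_prop] theorem Sys.w_comp {α : Type*} [Primcodable α] {f g : α → ℕ} (hf : Computable f)
    (hg : Computable g) : Computable fun x => s.w (f x) (g x) := s.hw.comp hf hg

theorem Sys.w_anti (n : ℕ) {i j : ℕ} (h : i ≤ j) : s.w n j ≤ s.w n i := by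
  induction j, h using Nat.le_induction with
  | base => exact le_rfl
  | succ k hk ih => exact (s.w_lt n k).le.trans ih

theorem Sys.w_ne (n j : ℕ) : s.w n j ≠ ⊥ := by
  intro h
  have h1 := s.w_lt n j
  rw [h] at h1
  exact not_lt_bot h1

theorem Sys.e_anti {m n : ℕ} (h : m ≤ n) : s.e n ≤ s.e m := by
  induction n, h using Nat.le_induction with
  | base => exact le_rfl
  | succ k hk ih => exact le_trans (by rw [s.eS k]; exact le_sup_right) ih

theorem Sys.w_le_e (n j : ℕ) : s.w n j ≤ s.e n :=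
  (s.w_anti n (Nat.zero_le j)).trans (by rw [s.eS n]; exact le_sup_left)

omit [Primcodable A] in
theorem inf_bot_mono {a a' b b' : A} (ha : a ≤ a') (hb : b ≤ b') (h : a' ⊓ b' = ⊥) :
    a ⊓ b = ⊥ := le_bot_iff.1 (h ▸ inf_le_inf ha hb)

theorem Sys.w_disj_lt {m n : ℕ} (h : m < n) (i j : ℕ) : s.w m i ⊓ s.w n j = ⊥ :=
  inf_bot_mono (s.w_anti m (Nat.zero_le i)) ((s.w_le_e n j).trans (s.e_anti (m := m + 1) h))
    (s.eD m)

theorem Sys.w_disj {m n : ℕ} (h : m ≠ n) (i j : ℕ) : s.w m i ⊓ s.w n j = ⊥ := by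
  rcases Nat.lt_or_gt_of_ne h with h | h
  · exact s.w_disj_lt h i j
  · rw [inf_comm]
    exact s.w_disj_lt h j i

/-- an element of the ideal `J` disjoint from all the pieces is zero -/
theorem Sys.zero {x : A} {N : ℕ} (h : x ⊓ s.e N = ⊥) (hw : ∀ n < N, x ⊓ s.w n 0 = ⊥) :
    x = ⊥ := by
  induction N with
  | zero => rwa [s.e0, inf_top_eq] at h
  | succ N ih =>
    refine ih ?_ fun n hn => hw n (by omega)
    rw [s.eS, inf_sup_left, hw N (by omega), h, sup_bot_eq]

/-- Gluing. -/
theorem Sys.glue (g : ℕ → A) (hg : ∀ n, g n ≤ s.w n 0) (N : ℕ) :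
    ∃ y, (∀ n < N, g n ≤ y) ∧ ∀ n, y ⊓ s.w n 0 ≤ g n := by
  induction N with
  | zero => exact ⟨⊥, fun n hn => absurd hn (by omega), fun n => by simp⟩
  | succ N ih =>
    obtain ⟨y, h1, h2⟩ := ih
    refine ⟨y ⊔ g N, ?_, ?_⟩
    · intro n hn
      rcases Nat.lt_succ_iff_lt_or_eq.1 hn with h | h
      · exact (h1 n h).trans le_sup_left
      · rw [h]; exact le_sup_right
    · intro n
      rw [inf_sup_right]
      refine sup_le (h2 n) ?_
      by_cases hn : N = n
      · rw [hn]; exact inf_le_left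
      · have h3 : g N ⊓ s.w n 0 = ⊥ := inf_bot_mono (hg N) le_rfl (s.w_disj hn 0 0)
        rw [h3]; exact bot_le

end sys

/-! ### Ideals -/

section ideals

variable {A : Type} [BooleanAlgebra A]

/-- Constructor of ideals. -/
def mkI (S : Set A) (h0 : ⊥ ∈ S) (hl : ∀ x y, x ≤ y → y ∈ S → x ∈ S)
    (hs : ∀ x y, x ∈ S → y ∈ S → x ⊔ y ∈ S) : Order.Ideal A where
  carrier := S
  lower' := fun y x hxy hy => hl x y hxy hy
  nonempty' := ⟨⊥, h0⟩
  directed' := fun x hx y hy => ⟨x ⊔ y, hs x y hx hy, le_sup_left, le_sup_right⟩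

theorem mem_mkI {S : Set A} {h0 hl hs} {x : A} : x ∈ mkI S h0 hl hs ↔ x ∈ S := Iff.rfl

theorem I_le {I J : Order.Ideal A} : I ≤ J ↔ ∀ x ∈ I, x ∈ J := Iff.rfl

theorem I_lower {I : Order.Ideal A} {x y : A} (h : x ≤ y) (hy : y ∈ I) : x ∈ I :=
  I.lower h hy

/-- Complementedness, in terms of the order only. -/
def Cp {P : Type} [PartialOrder P] (c : P) : Prop :=
  ∃ d, (∀ x, x ≤ c → x ≤ d → ∀ y, x ≤ y) ∧ ∀ x, c ≤ x → d ≤ x → ∀ y, y ≤ x

/-- The predicate `V ⊓ c` is complemented, in terms of the order only. -/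
def DV {P : Type} [PartialOrder P] (V : P) (c : P) : Prop :=
  ∃ p, Cp p ∧ p ≤ V ∧ p ≤ c ∧ ∀ v, v ≤ V → v ≤ c → v ≤ p

theorem Cp_iso {P P' : Type} [PartialOrder P] [PartialOrder P'] (φ : P ≃o P') {c : P}
    (h : Cp c) : Cp (φ c) := by
  obtain ⟨d, h1, h2⟩ := h
  refine ⟨φ d, ?_, ?_⟩
  · intro x hx hy y
    have h3 := h1 (φ.symm x) (by rw [φ.symm_apply_le]; exact hx)
      (by rw [φ.symm_apply_le]; exact hy) (φ.symm y)
    rw [φ.symm_apply_le, φ.apply_symm_apply] at h3
    exact h3
  · intro x hx hy y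
    have h3 := h2 (φ.symm x) (by rw [φ.le_symm_apply]; exact hx)
      (by rw [φ.le_symm_apply]; exact hy) (φ.symm y)
    rw [φ.symm_apply_le, φ.apply_symm_apply] at h3
    exact h3

theorem DV_iso {P P' : Type} [PartialOrder P] [PartialOrder P'] (φ : P ≃o P') {V c : P}
    (h : DV V c) : DV (φ V) (φ c) := by
  obtain ⟨p, h1, h2, h3, h4⟩ := h
  refine ⟨φ p, Cp_iso φ h1, φ.monotone h2, φ.monotone h3, ?_⟩
  intro v hv hv2
  have h5 := h4 (φ.symm v) (by rw [φ.symm_apply_le]; exact hv)
    (by rw [φ.symm_apply_le]; exact hv2)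
  rwa [φ.symm_apply_le] at h5

variable [Primcodable A]

/-- The lattice of the c.e. subideals of `J`. -/
abbrev SubI (J : Order.Ideal A) : Type :=
  {K : Order.Ideal A // (REPred fun a => a ∈ K) ∧ K ≤ J}

variable [CBA A]

theorem principal_re (x : A) : REPred fun a => a ∈ Order.Ideal.principal x := by
  have h : REPred fun a : A => a ⊓ x = a := RE.eq (by fun_prop) (by fun_prop)
  refine h.of_eq fun a => ?_
  rw [Order.Ideal.mem_principal, inf_eq_left]

/-- principal ideals in `SubI J` -/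
def prI {J : Order.Ideal A} (x : A) (hx : x ∈ J) : SubI J :=
  ⟨Order.Ideal.principal x, principal_re x, fun _ hy => J.lower hy hx⟩

theorem prI_le {J : Order.Ideal A} {x : A} {hx : x ∈ J} {K : SubI J} :
    prI x hx ≤ K ↔ x ∈ K.1 := by
  constructor
  · intro h
    exact h (Order.Ideal.mem_principal.2 le_rfl)
  · intro h y hy
    exact K.1.lower hy h

theorem cp_iff {J : Order.Ideal A} (c : SubI J) : Cp c ↔ ∃ d : SubI J,
    (∀ x, x ∈ c.1 → x ∈ d.1 → x = ⊥) ∧ ∀ x ∈ J, ∃ u ∈ c.1, ∃ v ∈ d.1, x = u ⊔ v := by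
  constructor
  · rintro ⟨d, h1, h2⟩
    refine ⟨d, ?_, ?_⟩
    · intro x hx hy
      have h3 := h1 (prI x (c.2.2 hx)) (prI_le.2 hx) (prI_le.2 hy) (prI ⊥ (Order.Ideal.bot_mem J))
      rw [prI_le] at h3
      exact le_bot_iff.1 (Order.Ideal.mem_principal.1 h3)
    · -- the join
      let S : Set A := {x | ∃ u ∈ c.1, ∃ v ∈ d.1, x = u ⊔ v}
      have hl : ∀ x y : A, x ≤ y → y ∈ S → x ∈ S := by
        rintro x y hxy ⟨u, hu, v, hv, rfl⟩
        refine ⟨x ⊓ u, c.1.lower inf_le_right hu, x ⊓ v, d.1.lower inf_le_right hv, ?_⟩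
        rw [← inf_sup_left, inf_eq_left.2 hxy]
      have hs : ∀ x y : A, x ∈ S → y ∈ S → x ⊔ y ∈ S := by
        rintro _ _ ⟨u, hu, v, hv, rfl⟩ ⟨u', hu', v', hv', rfl⟩
        exact ⟨u ⊔ u', Order.Ideal.sup_mem hu hu', v ⊔ v', Order.Ideal.sup_mem hv hv',
          sup_sup_sup_comm u v u' v'⟩
      have h0 : (⊥ : A) ∈ S := ⟨⊥, Order.Ideal.bot_mem _, ⊥, Order.Ideal.bot_mem _, by simp⟩
      have hS : REPred fun a : A => a ∈ mkI S h0 hl hs := by
        refine (RE.ex (p := fun (a : A) (p : A × A) => (p.1 ∈ c.1 ∧ p.2 ∈ d.1) ∧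
          a = p.1 ⊔ p.2) ?_).of_eq fun a => ?_
        · exact RE.and (RE.and (RE.comp c.2.1 (by fun_prop)) (RE.comp d.2.1 (by fun_prop)))
            (RE.eq (by fun_prop) (by fun_prop))
        · constructor
          · rintro ⟨⟨u, v⟩, ⟨hu, hv⟩, h⟩
            exact ⟨u, hu, v, hv, h⟩
          · rintro ⟨u, hu, v, hv, h⟩
            exact ⟨(u, v), ⟨hu, hv⟩, h⟩
      have hle : mkI S h0 hl hs ≤ J := by
        rintro x ⟨u, hu, v, hv, rfl⟩
        exact Order.Ideal.sup_mem (c.2.2 hu) (d.2.2 hv)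
      intro x hx
      have h3 := h2 ⟨mkI S h0 hl hs, hS, hle⟩
        (fun u hu => ⟨u, hu, ⊥, Order.Ideal.bot_mem _, by simp⟩)
        (fun v hv => ⟨⊥, Order.Ideal.bot_mem _, v, hv, by simp⟩) (prI x hx)
      rw [prI_le] at h3
      exact h3
  · rintro ⟨d, h1, h2⟩
    refine ⟨d, ?_, ?_⟩
    · intro K hK hK2 y x hx
      rw [h1 x (hK hx) (hK2 hx)]
      exact Order.Ideal.bot_mem _
    · intro K hK hK2 y x hx
      obtain ⟨u, hu, v, hv, rfl⟩ := h2 x (y.2.2 hx)
      exact Order.Ideal.sup_mem (hK hu) (hK2 hv)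

end ideals

end Pool.Agent.H675R2.LJ
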