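import Pool.Agent.H675R2.Low

/-!
The tree of c.e. sets: decisions for all the sets `{n | φ_e n = 1}` along all the points of
Cantor space.
-/

namespace Pool.Agent.H675R2.Tree

open Encodable Pool.Agent.Helper446 Pool.Agent.Helper446.RE Pool.Agent.H675R2.UH
  Pool.Agent.H675R2.Inv Nat.Partrec

/-- The computation `φ_{e,s}(n)`. -/
def ev (e s n : ℕ) : Option ℕ := Code.evaln s (Denumerable.ofNat Code e) n

theorem ev_comp : Computable fun x : (ℕ × ℕ) × ℕ => ev x.1.1 x.1.2 x.2 := by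
  have h1 : Computable fun x : (ℕ × Code) × ℕ => (Code.evaln x.1.1 x.1.2 x.2) :=
    Code.primrec_evaln.to_comp
  have h2 : Computable fun p : (ℕ × ℕ) × ℕ => Denumerable.ofNat Code p.1.1 :=
    (Computable.ofNat Code).comp (by fun_prop)
  exact h1.comp (((by fun_prop : Computable fun p : (ℕ × ℕ) × ℕ => p.1.2).pair h2).pair
    (by fun_prop))

@[fun_prop] theorem ev_comp' {α : Type*} [Primcodable α] {f g h : α → ℕ} (hf : Computable f)
    (hg : Computable g) (hh : Computable h) : Computable fun x => ev (f x) (g x) (h x) :=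
  ev_comp.comp (f := fun x : (ℕ × ℕ) × ℕ => ev x.1.1 x.1.2 x.2)
    (g := fun x => ((f x, g x), h x)) (by fun_prop)

theorem ev_mono {e s s' n v : ℕ} (h : s ≤ s') (hv : ev e s n = some v) : ev e s' n = some v :=
  Code.evaln_mono h hv

theorem ev_isSome_mono {e s s' n : ℕ} (h : s ≤ s') (hv : (ev e s n).isSome = true) :
    (ev e s' n).isSome = true := by
  obtain ⟨v, hv⟩ := Option.isSome_iff_exists.1 hv
  rw [ev_mono h hv]
  rfl

theorem ev_code {f : ℕ → ℕ} (hf : Computable f) : ∃ e, ∀ n, ∃ s, ev e s n = some (f n) := by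
  obtain ⟨c, hc⟩ := Code.exists_code.1 (Partrec.nat_iff.1 hf.partrec)
  refine ⟨encode c, fun n => ?_⟩
  have h1 : f n ∈ Code.eval c n := by rw [hc]; simp
  obtain ⟨s, hs⟩ := Code.evaln_complete.1 h1
  refine ⟨s, ?_⟩
  unfold ev
  rw [Denumerable.ofNat_encode]
  exact hs

/-- `φ_e(n) = 1` -/
def Hit (e n : ℕ) : Prop := ∃ s, ev e s n = some 1

/-- `φ_e` is total -/
def Tot (e : ℕ) : Prop := ∀ n, ∃ s, (ev e s n).isSome = true

theorem hit_re : REPred fun x : ℕ × ℕ => Hit x.1 x.2 :=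
  RE.exN (p := fun (x : ℕ × ℕ) s => ev x.1 s x.2 = some 1) (RE.eq (by fun_prop) (by fun_prop))

theorem exists_code {R : ℕ → Prop} (hR : ComputablePred R) :
    ∃ e, Tot e ∧ ∀ n, R n ↔ Hit e n := by
  classical
  have h1 : Computable fun n => if R n then 1 else 0 := cite hR (by fun_prop) (by fun_prop)
  obtain ⟨e, he⟩ := ev_code h1
  refine ⟨e, fun n => ?_, fun n => ⟨fun h => ?_, ?_⟩⟩
  · obtain ⟨s, hs⟩ := he n
    exact ⟨s, by rw [hs]; rfl⟩
  · obtain ⟨s, hs⟩ := he n
    rw [if_pos h] at hs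
    exact ⟨s, hs⟩
  · rintro ⟨s, hs⟩
    obtain ⟨s', hs'⟩ := he n
    by_contra h
    rw [if_neg h] at hs'
    have h2 := ev_mono (le_max_left s s') hs
    rw [ev_mono (le_max_right s s') hs'] at h2
    simp at h2

/-! ### Balls -/

def inball (b : ℕ × ℕ) (n : ℕ) : Prop := n % 2 ^ b.2 = b.1 % 2 ^ b.2

def sub (b' b : ℕ × ℕ) : Prop := b.2 ≤ b'.2 ∧ b'.1 % 2 ^ b.2 = b.1 % 2 ^ b.2

theorem sub_refl (b : ℕ × ℕ) : sub b b := ⟨le_rfl, rfl⟩

theorem sub_trans {a b c : ℕ × ℕ} (h1 : sub a b) (h2 : sub b c) : sub a c := by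
  refine ⟨h2.1.trans h1.1, ?_⟩
  have h3 := congrArg (· % 2 ^ c.2) h1.2
  simp only [Nat.mod_mod_of_dvd _ (pow_dvd_pow 2 h2.1)] at h3
  rw [h3, h2.2]

theorem inball_mono {b' b : ℕ × ℕ} (h : sub b' b) {n : ℕ} (hn : inball b' n) : inball b n := by
  unfold inball at *
  have h3 := congrArg (· % 2 ^ b.2) hn
  simp only [Nat.mod_mod_of_dvd _ (pow_dvd_pow 2 h.1)] at h3
  rw [h3, h.2]

def child (b : ℕ × ℕ) (x : Bool) : ℕ × ℕ :=
  (b.1 % 2 ^ b.2 + (bif x then 2 ^ b.2 else 0), b.2 + 1)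

theorem sub_child (b : ℕ × ℕ) (x : Bool) : sub (child b x) b := by
  refine ⟨by simp [child], ?_⟩
  cases x <;> simp [child]

theorem child_disj {b : ℕ × ℕ} {x y : Bool} (hxy : x ≠ y) {n : ℕ} (h1 : inball (child b x) n)
    (h2 : inball (child b y) n) : False := by
  unfold inball at h1 h2
  have h3 : (child b x).2 = (child b y).2 := rfl
  rw [h3] at h1
  rw [h1] at h2
  have h4 : b.1 % 2 ^ b.2 < 2 ^ b.2 := Nat.mod_lt _ (by positivity)
  have h5 : ∀ z : Bool, (child b z).1 < 2 ^ (child b y).2 := by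
    intro z
    have h6 : (2 : ℕ) ^ (child b y).2 = 2 ^ b.2 + 2 ^ b.2 := by
      show (2 : ℕ) ^ (b.2 + 1) = _
      ring
    rw [h6]
    cases z <;> simp only [child, cond_false, cond_true] <;> omega
  rw [Nat.mod_eq_of_lt (h5 x), Nat.mod_eq_of_lt (h5 y)] at h2
  have h7 : (2 : ℕ) ^ b.2 > 0 := by positivity
  cases x <;> cases y <;> simp only [child, cond_false, cond_true] at h2 <;>
    first | exact hxy rfl | omega

/-- the members of a node -/
def inB (b : ℕ × ℕ) (E : List ℕ) (n : ℕ) : Prop := inball b n ∧ ∀ e ∈ E, Hit e n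

def dense (b : ℕ × ℕ) (E : List ℕ) (e : ℕ) : Prop := ∀ b', sub b' b → ∃ n, inB b' E n ∧ Hit e n

def emp (b : ℕ × ℕ) (E : List ℕ) (e : ℕ) : Prop := ∀ n, inB b E n → ¬ Hit e n

abbrev Nd : Type := (ℕ × ℕ) × List ℕ

/-- The decision at a node. -/
def St (d : Nd) (k : ℕ) (x : Bool) (d' : Nd) : Prop :=
  (dense (child d.1 x) d.2 k ∧ d' = (child d.1 x, k :: d.2)) ∨
  (d'.2 = d.2 ∧ sub d'.1 (child d.1 x) ∧ emp d'.1 d.2 k ∧
    ∀ b, encode b < encode d'.1 → sub b (child d.1 x) → ¬ emp b d.2 k)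

theorem St_exists (d : Nd) (k : ℕ) (x : Bool) : ∃ d', St d k x d' := by
  classical
  by_cases h : dense (child d.1 x) d.2 k
  · exact ⟨_, Or.inl ⟨h, rfl⟩⟩
  · unfold dense at h
    push Not at h
    obtain ⟨b', h1, h2⟩ := h
    have h3 : ∃ m, ∃ b : ℕ × ℕ, encode b = m ∧ sub b (child d.1 x) ∧ emp b d.2 k :=
      ⟨_, b', rfl, h1, fun n hn => h2 n hn⟩
    obtain ⟨b, hb, h4, h5⟩ := Nat.find_spec h3
    refine ⟨(b, d.2), Or.inr ⟨rfl, h4, h5, fun b1 hb1 h6 h7 => ?_⟩⟩
    rw [hb] at hb1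
    exact Nat.find_min h3 hb1 ⟨b1, rfl, h6, h7⟩

theorem St_unique {d : Nd} {k : ℕ} {x : Bool} {d1 d2 : Nd} (h1 : St d k x d1)
    (h2 : St d k x d2) : d1 = d2 := by
  rcases h1 with ⟨h1, rfl⟩ | ⟨h1, h3, h4, h5⟩ <;> rcases h2 with ⟨h2, rfl⟩ | ⟨h2, h6, h7, h8⟩
  · rfl
  · obtain ⟨n, hn, hn2⟩ := h1 _ h6
    exact absurd hn2 (h7 n hn)
  · obtain ⟨n, hn, hn2⟩ := h2 _ h3
    exact absurd hn2 (h4 n hn)
  · refine Prod.ext ?_ (h1.trans h2.symm)
    rcases lt_trichotomy (encode d1.1) (encode d2.1) with h | h | h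
    · exact absurd h4 (h8 _ h h3)
    · exact Encodable.encode_injective h
    · exact absurd h7 (h5 _ h h6)

noncomputable def st (d : Nd) (k : ℕ) (x : Bool) : Nd := (St_exists d k x).choose

theorem st_spec (d : Nd) (k : ℕ) (x : Bool) : St d k x (st d k x) :=
  (St_exists d k x).choose_spec

/-- The node of a point of Cantor space at level `m`. -/
noncomputable def nd (x : ℕ → Bool) : ℕ → Nd
  | 0 => ((0, 0), [])
  | m + 1 => st (nd x m) m (x m)

theorem nd_congr {x y : ℕ → Bool} {m : ℕ} (h : ∀ k < m, x k = y k) : nd x m = nd y m := by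
  induction m with
  | zero => rfl
  | succ m ih => rw [nd, nd, ih fun k hk => h k (by omega), h m (by omega)]

/-- The set of a node. -/
def IB (x : ℕ → Bool) (m n : ℕ) : Prop := inB (nd x m).1 (nd x m).2 n

theorem IB_congr {x y : ℕ → Bool} {m : ℕ} (h : ∀ k < m, x k = y k) (n : ℕ) :
    IB x m n ↔ IB y m n := by
  unfold IB
  rw [nd_congr h]

theorem St_sub {d : Nd} {k : ℕ} {x : Bool} {d' : Nd} (h : St d k x d') :
    sub d'.1 (child d.1 x) ∧ ∀ e ∈ d.2, e ∈ d'.2 := by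
  rcases h with ⟨-, rfl⟩ | ⟨h1, h2, -, -⟩
  · exact ⟨sub_refl _, fun e he => List.mem_cons_of_mem _ he⟩
  · exact ⟨h2, fun e he => by rw [h1]; exact he⟩

theorem nd_sub (x : ℕ → Bool) (m : ℕ) : sub (nd x (m + 1)).1 (child (nd x m).1 (x m)) :=
  (St_sub (st_spec _ _ _)).1

theorem nd_sub' (x : ℕ → Bool) {m m' : ℕ} (h : m ≤ m') : sub (nd x m').1 (nd x m).1 := by
  induction m', h using Nat.le_induction with
  | base => exact sub_refl _
  | succ n hn ih => exact sub_trans (sub_trans (nd_sub x n) (sub_child _ _)) ih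

theorem nd_mem (x : ℕ → Bool) {m m' : ℕ} (h : m ≤ m') {e : ℕ} (he : e ∈ (nd x m).2) :
    e ∈ (nd x m').2 := by
  induction m', h using Nat.le_induction with
  | base => exact he
  | succ n hn ih => exact (St_sub (st_spec _ _ _)).2 _ ih

theorem IB_anti (x : ℕ → Bool) {m m' : ℕ} (h : m ≤ m') {n : ℕ} (hn : IB x m' n) : IB x m n :=
  ⟨inball_mono (nd_sub' x h) hn.1, fun e he => hn.2 e (nd_mem x h he)⟩

/-- The node is dense. -/
def good (d : Nd) : Prop := ∀ b', sub b' d.1 → ∃ n, inB b' d.2 n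

theorem good_nd (x : ℕ → Bool) (m : ℕ) : good (nd x m) := by
  induction m with
  | zero =>
    intro b' _
    refine ⟨b'.1, rfl, ?_⟩
    intro e he
    simp [nd] at he
  | succ m ih =>
    intro b' hb'
    rcases st_spec (nd x m) m (x m) with ⟨h1, h2⟩ | ⟨h1, h2, -, -⟩
    · rw [nd, h2] at hb'
      rw [nd, h2]
      obtain ⟨n, hn, hn2⟩ := h1 b' hb'
      refine ⟨n, hn.1, fun e he => ?_⟩
      rcases List.mem_cons.1 he with rfl | he
      · exact hn2
      · exact hn.2 e he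
    · rw [nd] at hb'
      rw [nd, h1]
      exact ih b' (sub_trans hb' (sub_trans h2 (sub_child _ _)))

theorem good_infinite {d : Nd} (h : good d) : {n | inB d.1 d.2 n}.Infinite := by
  rw [Set.infinite_iff_exists_gt]
  intro N
  set m := d.1.2 with hm
  let i := d.1.1 % 2 ^ m + (N + 1) * 2 ^ m
  have h1 : sub (i, i + m) d.1 := by
    refine ⟨by simp [hm], ?_⟩
    show (d.1.1 % 2 ^ m + (N + 1) * 2 ^ m) % 2 ^ d.1.2 = d.1.1 % 2 ^ d.1.2
    rw [← hm, Nat.add_mul_mod_self_right, Nat.mod_mod]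
  obtain ⟨n, hn⟩ := h _ h1
  refine ⟨n, ⟨inball_mono h1 hn.1, hn.2⟩, ?_⟩
  have h2 : n % 2 ^ (i + m) = i % 2 ^ (i + m) := hn.1
  have h3 : i < 2 ^ (i + m) :=
    lt_of_lt_of_le Nat.lt_two_pow_self (Nat.pow_le_pow_right (by norm_num) (by omega))
  rw [Nat.mod_eq_of_lt h3] at h2
  have h4 : n % 2 ^ (i + m) ≤ n := Nat.mod_le _ _
  have h5 : N + 1 ≤ (N + 1) * 2 ^ m := Nat.le_mul_of_pos_right _ (by positivity)
  have h6 : N + 1 ≤ i := by show N + 1 ≤ _ + _; omega
  omega

theorem IB_infinite (x : ℕ → Bool) (m : ℕ) : {n | IB x m n}.Infinite := good_infinite (good_nd x m)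

/-- Decision. -/
theorem decide_nd (x : ℕ → Bool) (e : ℕ) (h : e ∉ (nd x (e + 1)).2) {n : ℕ}
    (hn : IB x (e + 1) n) : ¬ Hit e n := by
  rcases st_spec (nd x e) e (x e) with ⟨h1, h2⟩ | ⟨h1, h2, h3, -⟩
  · exact absurd (by rw [nd, h2]; exact List.mem_cons_self) h
  · have h4 := h3 n
    rw [← h1] at h4
    exact h4 hn

/-- Nodes on different points are disjoint. -/
theorem ball_disj {x y : ℕ → Bool} {m : ℕ} (h : ∃ k < m, x k ≠ y k) {n : ℕ}
    (h1 : inball (nd x m).1 n) (h2 : inball (nd y m).1 n) : False := by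
  classical
  have hk := Nat.find_spec h
  set k := Nat.find h with hkd
  have hmin : ∀ j < k, x j = y j := by
    intro j hj
    by_contra hne
    exact Nat.find_min h hj ⟨by omega, hne⟩
  have h3 : nd x k = nd y k := nd_congr hmin
  have h4 := inball_mono (nd_sub x k) (inball_mono (nd_sub' x (m := k + 1) (by omega)) h1)
  have h5 := inball_mono (nd_sub y k) (inball_mono (nd_sub' y (m := k + 1) (by omega)) h2)
  rw [h3] at h4
  exact child_disj hk.2 h4 h5

/-! ### Small sets -/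

/-- The set `R` is small at the point `t`. -/
def Sm (t : List ℕ) (R : ℕ → Prop) : Prop := ∃ m, {n | IB (bit t) m n ∧ R n}.Finite

theorem Sm.mono {t : List ℕ} {R S : ℕ → Prop} (h : Sm t S) (hRS : ∀ n, R n → S n) : Sm t R := by
  obtain ⟨m, hm⟩ := h
  exact ⟨m, hm.subset fun n hn => ⟨hn.1, hRS n hn.2⟩⟩

theorem Sm.or {t : List ℕ} {R S : ℕ → Prop} (h1 : Sm t R) (h2 : Sm t S) :
    Sm t fun n => R n ∨ S n := by
  obtain ⟨m, hm⟩ := h1
  obtain ⟨m', hm'⟩ := h2
  refine ⟨max m m', (hm.union hm').subset ?_⟩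
  rintro n ⟨h3, h4 | h4⟩
  · exact Or.inl ⟨IB_anti _ (le_max_left _ _) h3, h4⟩
  · exact Or.inr ⟨IB_anti _ (le_max_right _ _) h3, h4⟩

theorem Sm.of_finite {t : List ℕ} {R : ℕ → Prop} (h : {n | R n}.Finite) : Sm t R :=
  ⟨0, h.subset fun _ hn => hn.2⟩

theorem sm_hit (t : List ℕ) (e : ℕ) : Sm t (Hit e) ↔ e ∉ (nd (bit t) (e + 1)).2 := by
  constructor
  · rintro ⟨m, hm⟩ he
    refine IB_infinite (bit t) (max m (e + 1)) (hm.subset fun n hn => ?_)
    exact ⟨IB_anti _ (le_max_left _ _) hn, hn.2 e (nd_mem _ (le_max_right _ _) he)⟩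
  · intro he
    refine ⟨e + 1, ?_⟩
    convert Set.finite_empty
    ext n
    simp only [Set.mem_ofPred_eq, Set.mem_empty_iff_false, iff_false]
    exact fun h => decide_nd _ _ he h.1 h.2

/-- For computable sets, smallness is the negation of largeness. -/
theorem sm_iff {t : List ℕ} {R : ℕ → Prop} (hR : ComputablePred R) :
    ¬ Sm t R ↔ ∃ m, ∀ n, IB (bit t) m n → R n := by
  obtain ⟨e, -, he⟩ := exists_code hR
  have h1 : R = Hit e := funext fun n => propext (he n)
  rw [h1]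
  constructor
  · intro h
    rw [sm_hit, not_not] at h
    exact ⟨e + 1, fun n hn => hn.2 e h⟩
  · rintro ⟨m, hm⟩ ⟨m', hm'⟩
    refine IB_infinite (bit t) (max m m') (hm'.subset fun n hn => ?_)
    exact ⟨IB_anti _ (le_max_right _ _) hn, hm n (IB_anti _ (le_max_left _ _) hn)⟩

/-! ### Complexity -/

theorem pow_comp : Computable fun n : ℕ => 2 ^ n := by
  have h := Computable.nat_rec (f := fun n : ℕ => n) (g := fun _ => 1)
    (h := fun _ (q : ℕ × ℕ) => 2 * q.2) (by fun_prop) (by fun_prop)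
    (by unfold Computable₂; fun_prop)
  refine h.of_eq fun n => ?_
  induction n with
  | zero => rfl
  | succ n ih => rw [pow_succ, ← ih, Nat.mul_comm]

@[fun_prop] theorem pow_comp' {α : Type*} [Primcodable α] {f : α → ℕ} (hf : Computable f) :
    Computable fun x => 2 ^ f x := pow_comp.comp hf

@[fun_prop] theorem mod_comp {α : Type*} [Primcodable α] {f g : α → ℕ} (hf : Computable f)
    (hg : Computable g) : Computable fun x => f x % g x := Primrec.nat_mod.to_comp.comp hf hg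

@[fun_prop] theorem div_comp {α : Type*} [Primcodable α] {f g : α → ℕ} (hf : Computable f)
    (hg : Computable g) : Computable fun x => f x / g x := Primrec.nat_div.to_comp.comp hf hg

@[fun_prop] theorem testBit_comp {α : Type*} [Primcodable α] {f g : α → ℕ} (hf : Computable f)
    (hg : Computable g) : Computable fun x => (f x).testBit (g x) := by
  have h1 : Computable fun x => decide (f x / 2 ^ g x % 2 = 1) :=
    (cp_eq (f := fun x => f x / 2 ^ g x % 2) (g := fun _ => 1) (by fun_prop)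
      (by fun_prop)).decide
  refine h1.of_eq fun x => ?_
  rw [Nat.testBit_eq_decide_div_mod_eq]

@[fun_prop] theorem child_comp {α : Type*} [Primcodable α] {f : α → ℕ × ℕ} {g : α → Bool}
    (hf : Computable f) (hg : Computable g) : Computable fun x => child (f x) (g x) := by
  unfold child
  fun_prop

theorem cp_and {α : Type} [Primcodable α] {p q : α → Prop} (hp : ComputablePred p)
    (hq : ComputablePred q) : ComputablePred fun a => p a ∧ q a := by
  refine cp_of_re (RE.and hp.to_re hq.to_re) ?_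
  refine (RE.or hp.not.to_re hq.not.to_re).of_eq fun a => ?_
  rw [not_and_or]

theorem cp_sub {α : Type} [Primcodable α] {f g : α → ℕ × ℕ} (hf : Computable f)
    (hg : Computable g) : ComputablePred fun x => sub (f x) (g x) := by
  unfold sub
  refine cp_and (cp_le (by fun_prop) (by fun_prop)) (cp_eq (by fun_prop) (by fun_prop))

theorem inB_US : US (fun _ => 0) fun x : ((ℕ × ℕ) × List ℕ) × ℕ => inB x.1.1 x.1.2 x.2 := by
  unfold inB inball
  refine US.and (by fun_prop) (US.of_cp (by fun_prop) (cp_eq (by fun_prop) (by fun_prop))) ?_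
  refine US.of_re (by fun_prop) ?_
  exact RE.all_mem (p := fun (x : ((ℕ × ℕ) × List ℕ) × ℕ) e => Hit e x.2)
    (RE.comp hit_re (f := fun x : (((ℕ × ℕ) × List ℕ) × ℕ) × ℕ => (x.2, x.1.2)) (by fun_prop))
    (by fun_prop)

theorem emp_UP : UP (fun _ => 0) fun x : ((ℕ × ℕ) × List ℕ) × ℕ => emp x.1.1 x.1.2 x.2 := by
  unfold emp
  refine UP.all (P := fun (x : ((ℕ × ℕ) × List ℕ) × ℕ) n => inB x.1.1 x.1.2 n → ¬ Hit x.2 n)
    (by fun_prop) ?_
  refine UP.imp (by fun_prop) (inB_US.comp (g := fun x : (((ℕ × ℕ) × List ℕ) × ℕ) × ℕ =>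
    (x.1.1, x.2)) (by fun_prop)) ?_
  refine US.toUP ?_
  exact US.of_re (by fun_prop) (RE.comp hit_re
    (f := fun x : (((ℕ × ℕ) × List ℕ) × ℕ) × ℕ => (x.1.2, x.2)) (by fun_prop))

theorem dense_UP : UP (fun _ => 1) fun x : ((ℕ × ℕ) × List ℕ) × ℕ => dense x.1.1 x.1.2 x.2 := by
  unfold dense
  refine US.allP (f := fun _ => 0) (P := fun (x : ((ℕ × ℕ) × List ℕ) × ℕ) (b' : ℕ × ℕ) =>
    sub b' x.1.1 → ∃ n, inB b' x.1.2 n ∧ Hit x.2 n) (by fun_prop) ?_
  refine US.imp (by fun_prop) (UP.of_cp (by fun_prop) (cp_sub (by fun_prop) (by fun_prop))) ?_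
  refine US.exN (P := fun (x : (((ℕ × ℕ) × List ℕ) × ℕ) × (ℕ × ℕ)) n =>
    inB x.2 x.1.1.2 n ∧ Hit x.1.2 n) (by fun_prop) ?_
  refine US.and (by fun_prop) ?_ ?_
  · exact inB_US.comp (g := fun x : ((((ℕ × ℕ) × List ℕ) × ℕ) × (ℕ × ℕ)) × ℕ =>
      ((x.1.2, x.1.1.1.2), x.2)) (by fun_prop)
  · exact US.of_re (by fun_prop) (RE.comp hit_re
      (f := fun x : ((((ℕ × ℕ) × List ℕ) × ℕ) × (ℕ × ℕ)) × ℕ => (x.1.1.2, x.2)) (by fun_prop))

theorem St_UP : UP (fun _ => 1) fun x : ((Nd × ℕ) × Bool) × Nd => St x.1.1.1 x.1.1.2 x.1.2 x.2 := by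
  unfold St
  have hc : Computable fun x : ((Nd × ℕ) × Bool) × Nd => child x.1.1.1.1 x.1.2 :=
    child_comp (by fun_prop) (by fun_prop)
  refine UP.or (by fun_prop) (UP.and (by fun_prop) ?_ ?_) (UP.and (by fun_prop) ?_
    (UP.and (by fun_prop) ?_ (UP.and (by fun_prop) ?_ ?_)))
  · exact dense_UP.comp (g := fun x : ((Nd × ℕ) × Bool) × Nd =>
      ((child x.1.1.1.1 x.1.2, x.1.1.1.2), x.1.1.2)) (by fun_prop)
  · exact UP.of_cp (by fun_prop) (cp_eq (by fun_prop) (by fun_prop))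
  · exact UP.of_cp (by fun_prop) (cp_eq (by fun_prop) (by fun_prop))
  · exact UP.of_cp (by fun_prop) (cp_sub (by fun_prop) (by fun_prop))
  · have h1 := UP.succ (f := fun _ : ((Nd × ℕ) × Bool) × Nd => 0) (by fun_prop)
      (emp_UP.comp (g := fun x : ((Nd × ℕ) × Bool) × Nd => ((x.2.1, x.1.1.1.2), x.1.1.2))
        (by fun_prop))
    exact h1
  · refine US.allP (f := fun _ => 0) (P := fun (x : ((Nd × ℕ) × Bool) × Nd) (b : ℕ × ℕ) =>
      encode b < encode x.2.1 → sub b (child x.1.1.1.1 x.1.2) → ¬ emp b x.1.1.1.2 x.1.1.2)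
      (by fun_prop) ?_
    refine US.imp (by fun_prop) (UP.of_cp (by fun_prop) (cp_lt (by fun_prop) (by fun_prop))) ?_
    refine US.imp (by fun_prop) (UP.of_cp (by fun_prop) (cp_sub (by fun_prop) ?_)) ?_
    · exact hc.comp (g := fun x : (((Nd × ℕ) × Bool) × Nd) × (ℕ × ℕ) => x.1) (by fun_prop)
    · exact US.comp emp_UP.toUS (g := fun x : (((Nd × ℕ) × Bool) × Nd) × (ℕ × ℕ) =>
        ((x.2, x.1.1.1.1.2), x.1.1.1.2)) (by fun_prop)

/-- the `i`-th entry of a list of nodes -/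
def entN (l : List Nd) (i : ℕ) : Nd := (l[i]?).getD ((0, 0), [])

@[fun_prop] theorem entN_comp {α : Type} [Primcodable α] {f : α → List Nd} {g : α → ℕ}
    (hf : Computable f) (hg : Computable g) : Computable fun x => entN (f x) (g x) :=
  Computable.option_getD (by fun_prop) (by fun_prop)

theorem StN_UP {α : Type} [Primcodable α] {f g : α → Nd} {k : α → ℕ} {x : α → Bool}
    (hf : Computable f) (hg : Computable g) (hk : Computable k) (hx : Computable x) :
    UP (fun _ : α => 1) fun a => St (f a) (k a) (x a) (g a) :=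
  St_UP.comp (g := fun a : α => (((f a, k a), x a), g a)) (by fun_prop)

/-- The graph of the nodes, on finite words coded by natural numbers. -/
theorem nd_US : US (fun _ => 2) fun x : (ℕ × ℕ) × Nd => nd (Nat.testBit x.1.1) x.1.2 = x.2 := by
  have h1 : UP (fun _ => 1) fun x : ((ℕ × ℕ) × Nd) × List Nd =>
      entN x.2 0 = ((0, 0), []) ∧ entN x.2 x.1.1.2 = x.1.2 ∧
      ∀ k < x.1.1.2, St (entN x.2 k) k (x.1.1.1.testBit k) (entN x.2 (k + 1)) := by
    refine UP.and (by fun_prop) (UP.of_cp (by fun_prop)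
      (cp_eq (by fun_prop) (by fun_prop))) ?_
    refine UP.and (by fun_prop) (UP.of_cp (by fun_prop)
      (cp_eq (by fun_prop) (by fun_prop))) ?_
    refine UP.all_lt (P := fun (x : ((ℕ × ℕ) × Nd) × List Nd) k =>
      St (entN x.2 k) k (x.1.1.1.testBit k) (entN x.2 (k + 1)))
      (by fun_prop) (by fun_prop) ?_
    exact StN_UP (f := fun x : (((ℕ × ℕ) × Nd) × List Nd) × ℕ => entN x.1.2 x.2)
      (g := fun x => entN x.1.2 (x.2 + 1)) (k := fun x => x.2)
      (x := fun x => x.1.1.1.1.testBit x.2) (by fun_prop) (by fun_prop) (by fun_prop)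
      (by fun_prop)
  have h2 := UP.exS (f := fun _ => 1) (P := fun (x : (ℕ × ℕ) × Nd) (L : List Nd) =>
    entN L 0 = ((0, 0), []) ∧ entN L x.1.2 = x.2 ∧
      ∀ k < x.1.2, St (entN L k) k (x.1.1.testBit k) (entN L (k + 1)))
    (by fun_prop) h1
  refine h2.of_iff ?_
  rintro ⟨⟨i, m⟩, d⟩
  dsimp only
  constructor
  · rintro ⟨L, h3, h4, h5⟩
    have h6 : ∀ k ≤ m, entN L k = nd (Nat.testBit i) k := by
      intro k
      induction k with
      | zero => intro _; rw [h3]; rfl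
      | succ k ih =>
        intro hk
        have h7 := h5 k (by omega)
        rw [ih (by omega)] at h7
        exact St_unique h7 (st_spec _ _ _)
    rw [← h4, h6 m le_rfl]
  · intro h
    have h3 : ∀ k ≤ m, entN ((List.range (m + 1)).map (nd (Nat.testBit i))) k =
        nd (Nat.testBit i) k := by
      intro k hk
      have : k < m + 1 := by omega
      unfold entN
      simp [this]
    refine ⟨(List.range (m + 1)).map (nd (Nat.testBit i)), ?_, ?_, ?_⟩
    · rw [h3 0 (by omega)]; rfl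
    · rw [h3 m le_rfl, h]
    · intro k hk
      rw [h3 k (by omega), h3 (k + 1) (by omega)]
      exact st_spec _ _ _

theorem pr_comp : Computable fun x : ℕ × ℕ => pr (Nat.testBit x.1) x.2 := by
  have h := Computable.nat_rec (f := fun x : ℕ × ℕ => x.2)
    (g := fun _ => (([] : List ℕ), 0))
    (h := fun x (q : ℕ × (List ℕ × ℕ)) => bif x.1.testBit q.1 then (q.2.2 :: q.2.1, 0)
      else (q.2.1, q.2.2 + 1)) (by fun_prop) (by fun_prop)
    (by unfold Computable₂; fun_prop)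
  refine h.of_eq fun x => ?_
  have h1 : ∀ m, (Nat.rec (motive := fun _ => List ℕ × ℕ) ([], 0)
      (fun y IH => bif x.1.testBit y then (IH.2 :: IH.1, 0) else (IH.1, IH.2 + 1)) m) =
      pr (Nat.testBit x.1) m := by
    intro m
    induction m with
    | zero => rfl
    | succ m ih => rw [pr, ← ih]
  exact h1 x.2

/-- Finite words are coded by natural numbers. -/
theorem exists_word (x : ℕ → Bool) (m : ℕ) : ∃ i < 2 ^ m, ∀ k < m, i.testBit k = x k := by
  refine ⟨Nat.ofBits fun k : Fin m => x k, Nat.ofBits_lt_two_pow _, fun k hk => ?_⟩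
  rw [Nat.testBit_ofBits_lt _ _ hk]

/-- The indices of the computable sets which are small at all the points of `F`. -/
def IF (F : List ℕ → Prop) (e : ℕ) : Prop := Tot e ∧ ∀ t, F t → Sm t (Hit e)

theorem IF_US {F : List ℕ → Prop} (hF : UP (fun _ => 2) F)
    (hsuf : ∀ t p : List ℕ, t <:+ p → F p → F t) : US (fun _ => 2) (IF F) := by
  have h1 : US (fun _ : ℕ => 2) Tot := by
    have h2 := US.allP (f := fun _ : ℕ => 0) (P := fun e n => ∃ s, (ev e s n).isSome = true)
      (by fun_prop) (by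
        refine US.exN (P := fun (x : ℕ × ℕ) s => (ev x.1 s x.2).isSome = true) (by fun_prop) ?_
        exact US.of_bool (by fun_prop) (by fun_prop))
    exact h2.toS
  have h2 : US (fun _ : ℕ => 2) fun e => ∀ i < 2 ^ (e + 1),
      (¬ F (pr (Nat.testBit i) (e + 1)).1) ∨
      ∃ d : Nd, nd (Nat.testBit i) (e + 1) = d ∧ e ∉ d.2 := by
    refine US.all_lt (P := fun e i => (¬ F (pr (Nat.testBit i) (e + 1)).1) ∨
      ∃ d : Nd, nd (Nat.testBit i) (e + 1) = d ∧ e ∉ d.2) (by fun_prop) (by fun_prop) ?_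
    refine US.or (by fun_prop) ?_ ?_
    · have h3 : Computable fun x : ℕ × ℕ => (pr (Nat.testBit x.2) (x.1 + 1)).1 :=
        Computable.fst.comp (pr_comp.comp (g := fun x : ℕ × ℕ => (x.2, x.1 + 1)) (by fun_prop))
      exact US.comp hF.toUS (g := fun x : ℕ × ℕ => (pr (Nat.testBit x.2) (x.1 + 1)).1) h3
    · refine US.ex (P := fun (x : ℕ × ℕ) (d : Nd) =>
        nd (Nat.testBit x.2) (x.1 + 1) = d ∧ x.1 ∉ d.2) (by fun_prop) ?_
      refine US.and (by fun_prop) ?_ ?_
      · exact nd_US.comp (g := fun x : (ℕ × ℕ) × Nd => ((x.1.2, x.1.1 + 1), x.2)) (by fun_prop)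
      · exact US.of_cp (by fun_prop) (ComputablePred.not (cp_mem (by fun_prop) (by fun_prop)))
  refine (US.and (by fun_prop) h1 h2).of_iff fun e => ?_
  unfold IF
  refine and_congr_right fun _ => ?_
  constructor
  · intro h t ht
    rw [sm_hit]
    obtain ⟨i, hi, hi2⟩ := exists_word (bit t) (e + 1)
    rcases h i hi with h3 | ⟨d, h3, h4⟩
    · exfalso
      apply h3
      rw [pr_congr hi2]
      exact hsuf _ _ (pr_suffix t _) ht
    · rw [← nd_congr hi2, h3]
      exact h4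
  · intro h i hi
    by_cases h3 : F (pr (Nat.testBit i) (e + 1)).1
    · right
      refine ⟨_, rfl, ?_⟩
      have h4 := (sm_hit _ e).1 (h _ h3)
      rwa [nd_congr (pr_spec (Nat.testBit i) (e + 1)).2] at h4
    · left; exact h3

end Pool.Agent.H675R2.Tree
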