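import Pool.Agent.H675R2.UH

/-!
Uniform iteration along the arithmetical hierarchy, and the normal form
`∃^∞ a₁ … ∃^∞ a_d` of the predicates of level `2 d + 2`.
-/

namespace Pool.Agent.H675R2.UH

open Encodable Pool.Agent.Helper446 Pool.Agent.Helper446.RE Nat.Partrec

variable {α β γ : Type} [Primcodable α] [Primcodable β] [Primcodable γ]

/-- The universal predicate, with a parameter. -/
def Uy (m e y : ℕ) : Prop := Alt m fun z => Wn e (Nat.pair y z)

theorem uy_US : US (fun x : (ℕ × ℕ) × ℕ => x.1.1) fun x => Uy x.1.1 x.1.2 x.2 :=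
  ⟨fun x => Wn x.1.1.2 (Nat.pair x.1.2 x.2),
    RE.comp wn_re (f := fun x : ((ℕ × ℕ) × ℕ) × ℕ => (x.1.1.2, Nat.pair x.1.2 x.2))
      (by fun_prop), fun _ => Iff.rfl⟩

theorem US.index2 {f : α → ℕ} {P : α → ℕ → Prop}
    (hP : US (fun x : α × ℕ => f x.1) fun x => P x.1 x.2) :
    ∃ h : α → ℕ, Computable h ∧ ∀ y z, P y z ↔ Uy (f y) (h y) z := by
  obtain ⟨R, hR, hP⟩ := hP
  have h1 : REPred fun x : α × ℕ => R ((x.1, x.2.unpair.1), x.2.unpair.2) :=
    RE.comp hR (f := fun x : α × ℕ => ((x.1, x.2.unpair.1), x.2.unpair.2)) (by fun_prop)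
  obtain ⟨h, hh, hR'⟩ := re_index (R := fun x : α × ℕ =>
    R ((x.1, x.2.unpair.1), x.2.unpair.2)) h1
  refine ⟨h, hh, fun y z => (hP (y, z)).trans (Alt.congr fun w => ?_)⟩
  rw [← hR']
  simp

theorem US.iter {op : (ℕ → Prop) → ℕ → Prop}
    (hop : US (fun x : (ℕ × ℕ) × ℕ => x.1.1 + 2) fun x => op (Uy x.1.1 x.1.2) x.2)
    {P0 : ℕ → Prop} {c : ℕ} (h0 : US (fun _ => c) P0) :
    US (fun x : ℕ × ℕ => 2 * x.1 + c) fun x => (op^[x.1] P0) x.2 := by
  obtain ⟨h, hh, hop⟩ := US.index2 (f := fun x : ℕ × ℕ => x.1 + 2)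
    (P := fun x y => op (Uy x.1 x.2) y) hop
  obtain ⟨e0, -, he0⟩ := US.index2 (f := fun _ : Unit => c) (P := fun _ y => P0 y)
    (h0.comp (g := fun x : Unit × ℕ => x.2) (by fun_prop))
  let ix : ℕ → ℕ := fun n => Nat.rec (e0 ()) (fun n e => h (2 * n + c, e)) n
  have hix : Computable ix := by
    refine Computable.nat_rec (f := fun n : ℕ => n) (g := fun _ => e0 ())
      (h := fun _ (q : ℕ × ℕ) => h (2 * q.1 + c, q.2)) (by fun_prop) (by fun_prop) ?_
    unfold Computable₂
    exact hh.comp (g := fun x : ℕ × (ℕ × ℕ) => (2 * x.2.1 + c, x.2.2)) (by fun_prop)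
  have key : ∀ n, op^[n] P0 = Uy (2 * n + c) (ix n) := by
    intro n
    induction n with
    | zero =>
      funext y
      have h2 := he0 () y
      simp only [Function.iterate_zero, id_eq, Nat.mul_zero, Nat.zero_add]
      exact propext h2
    | succ n ih =>
      rw [Function.iterate_succ_apply', ih]
      funext y
      apply propext
      rw [hop (2 * n + c, ix n) y]
      have h3 : 2 * (n + 1) + c = 2 * n + c + 2 := by ring
      rw [h3]
  refine US.of_iff (P := fun x : ℕ × ℕ => Uy (2 * x.1 + c) (ix x.1) x.2) ?_ ?_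
  · exact uy_US.comp (g := fun x : ℕ × ℕ => ((2 * x.1 + c, ix x.1), x.2)) (by fun_prop)
  · intro x
    rw [key]

theorem raise_univ : ∃ r : ℕ × ℕ → ℕ, Computable r ∧
    ∀ m e y, Uy m e y ↔ Uy (m + 1) (r (m, e)) y := by
  have h1 := US.succ (f := fun x : (ℕ × ℕ) × ℕ => x.1.1) (by fun_prop) uy_US
  obtain ⟨r, hr, h2⟩ := US.index2 (f := fun x : ℕ × ℕ => x.1 + 1)
    (P := fun x y => Uy x.1 x.2 y) h1
  exact ⟨r, hr, fun m e y => h2 (m, e) y⟩

/-- Raising the level by a variable amount. -/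
theorem US.mono {f g : α → ℕ} (hf : Computable f) (hg : Computable g) (hfg : ∀ y, f y ≤ g y)
    {P : α → Prop} (hP : US f P) : US g P := by
  obtain ⟨r, hr, h1⟩ := raise_univ
  obtain ⟨h, hh, h2⟩ := US.index2 (f := f) (P := fun y _ => P y)
    (hP.comp (g := fun x : α × ℕ => x.1) (by fun_prop))
  let ix : α → ℕ → ℕ := fun y j => Nat.rec (h y) (fun j e => r (f y + j, e)) j
  have hix : Computable fun x : α × ℕ => ix x.1 x.2 := by
    refine Computable.nat_rec (f := fun x : α × ℕ => x.2) (g := fun x => h x.1)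
      (h := fun x (q : ℕ × ℕ) => r (f x.1 + q.1, q.2)) (by fun_prop) (by fun_prop) ?_
    unfold Computable₂
    exact hr.comp (g := fun x : (α × ℕ) × (ℕ × ℕ) => (f x.1.1 + x.2.1, x.2.2)) (by fun_prop)
  have key : ∀ y j, P y ↔ Uy (f y + j) (ix y j) 0 := by
    intro y j
    induction j with
    | zero => exact h2 y 0
    | succ j ih => rw [ih, h1]; rfl
  refine US.of_iff (P := fun y => Uy (g y) (ix y (g y - f y)) 0) ?_ ?_
  · have h3 : Computable fun y => ix y (g y - f y) :=
      hix.comp (g := fun y : α => (y, g y - f y)) (by fun_prop)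
    exact uy_US.comp (g := fun y : α => ((g y, ix y (g y - f y)), 0)) (by fun_prop)
  · intro y
    rw [key y (g y - f y)]
    have h3 : f y + (g y - f y) = g y := by have := hfg y; omega
    rw [h3]

theorem UP.mono {f g : α → ℕ} (hf : Computable f) (hg : Computable g) (hfg : ∀ y, f y ≤ g y)
    {P : α → Prop} (hP : UP f P) : UP g P := US.mono hf hg hfg hP

/-- Unfolding one quantifier. -/
theorem US.unfold {f : α → ℕ} {P : α → Prop} (h : US (fun y => f y + 1) P) :
    ∃ V : α × ℕ → Prop, UP (fun x : α × ℕ => f x.1) V ∧ ∀ y, P y ↔ ∃ c, V (y, c) := by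
  obtain ⟨R, hR, h⟩ := h
  refine ⟨fun x => ¬ Alt (f x.1) fun z => R (x.1, Nat.pair x.2 z), ?_, fun y => h y⟩
  refine US.toUP ?_
  exact ⟨fun x => R (x.1.1, Nat.pair x.1.2 x.2), RE.comp hR
    (f := fun x : (α × ℕ) × ℕ => (x.1.1, Nat.pair x.1.2 x.2)) (by fun_prop), fun y => Iff.rfl⟩

theorem getc {f : α → ℕ} {g : α → ℕ} (hf : Computable f) (hg : Computable g) :
    Computable fun x => (((gd ([] : List ℕ) (f x))[g x]?).getD 0) :=
  Computable.option_getD (by fun_prop) (by fun_prop)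

/-- Unique witnesses. -/
theorem UP.unique_witness {f : α → ℕ} (hf : Computable f) {U : α × ℕ → Prop}
    (hU : UP (fun x => f x.1 + 1) U) :
    ∃ U' : α × ℕ → Prop, UP (fun x => f x.1 + 1) U' ∧ (∀ y, (∃ b, U (y, b)) ↔ ∃ w, U' (y, w)) ∧
      ∀ y w w', U' (y, w) → U' (y, w') → w = w' := by
  classical
  obtain ⟨V, hV, hUV⟩ := US.unfold (f := fun x : α × ℕ => f x.1) hU
  refine ⟨fun x => encode (gd ([] : List ℕ) x.2.unpair.2) = x.2.unpair.2 ∧
    (gd ([] : List ℕ) x.2.unpair.2).length = x.2.unpair.1 ∧ U (x.1, x.2.unpair.1) ∧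
    ∀ i < x.2.unpair.1, V ((x.1, i), ((gd ([] : List ℕ) x.2.unpair.2)[i]?).getD 0) ∧
      ∀ c < ((gd ([] : List ℕ) x.2.unpair.2)[i]?).getD 0, ¬ V ((x.1, i), c), ?_, ?_, ?_⟩
  · have hf' : Computable fun x : α × ℕ => f x.1 + 1 := by fun_prop
    have hf'' : Computable fun x : (α × ℕ) × ℕ => f x.1.1 + 1 := by fun_prop
    have hf3 : Computable fun x : ((α × ℕ) × ℕ) × ℕ => f x.1.1.1 + 1 := by fun_prop
    refine UP.and hf' (UP.of_cp hf' (cp_eq (by fun_prop) (by fun_prop))) ?_
    refine UP.and hf' (UP.of_cp hf' (cp_eq (by fun_prop) (by fun_prop))) ?_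
    refine UP.and hf' (hU.comp (g := fun x : α × ℕ => (x.1, x.2.unpair.1)) (by fun_prop)) ?_
    refine UP.all_lt (P := fun (x : α × ℕ) i =>
      V ((x.1, i), ((gd ([] : List ℕ) x.2.unpair.2)[i]?).getD 0) ∧
      ∀ c < ((gd ([] : List ℕ) x.2.unpair.2)[i]?).getD 0, ¬ V ((x.1, i), c))
      hf' (by fun_prop) ?_
    have hVc : Computable fun x : (α × ℕ) × ℕ =>
        ((gd ([] : List ℕ) x.1.2.unpair.2)[x.2]?).getD 0 := getc (by fun_prop) (by fun_prop)
    refine UP.and hf'' ?_ ?_
    · have h1 := UP.succ (f := fun x : (α × ℕ) × ℕ => f x.1.1) (by fun_prop)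
        (hV.comp (g := fun x : (α × ℕ) × ℕ => ((x.1.1, x.2),
          ((gd ([] : List ℕ) x.1.2.unpair.2)[x.2]?).getD 0)) (by fun_prop))
      exact h1
    · refine UP.all_lt (P := fun (x : (α × ℕ) × ℕ) c => ¬ V ((x.1.1, x.2), c)) hf'' hVc ?_
      have h2 : US (fun x : ((α × ℕ) × ℕ) × ℕ => f x.1.1.1)
          fun x => ¬ V ((x.1.1.1, x.1.2), x.2) :=
        US.comp hV.toUS (g := fun x : ((α × ℕ) × ℕ) × ℕ => ((x.1.1.1, x.1.2), x.2))
          (by fun_prop)
      exact h2.toP
  · intro y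
    constructor
    · intro hb
      have hfind := Nat.find_spec hb
      set b := Nat.find hb with hbdef
      have hmin : ∀ i, i < b → ∃ c, V ((y, i), c) := fun i hi =>
        (hUV (y, i)).1 (Nat.find_min hb hi)
      let cs : ℕ → ℕ := fun i => if h : ∃ c, V ((y, i), c) then Nat.find h else 0
      refine ⟨Nat.pair b (encode ((List.range b).map cs)), ?_⟩
      simp only [Nat.unpair_pair, gd_encode]
      refine ⟨trivial, by simp, hfind, ?_⟩
      intro i hi
      have h3 : (((List.range b).map cs)[i]?).getD 0 = cs i := by simp [hi]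
      rw [h3]
      have h4 : cs i = Nat.find (hmin i hi) := by simp [cs, hmin i hi]
      rw [h4]
      exact ⟨Nat.find_spec (hmin i hi), fun c hc => Nat.find_min (hmin i hi) hc⟩
    · rintro ⟨w, -, -, hw, -⟩
      exact ⟨_, hw⟩
  · rintro y w w' ⟨h1, h2, h3, h4⟩ ⟨h1', h2', h3', h4'⟩
    dsimp only at *
    have hb : w.unpair.1 = w'.unpair.1 := by
      rcases lt_trichotomy w.unpair.1 w'.unpair.1 with h | h | h
      · exact absurd h3 ((hUV (y, _)).2 ⟨_, (h4' _ h).1⟩)
      · exact h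
      · exact absurd h3' ((hUV (y, _)).2 ⟨_, (h4 _ h).1⟩)
    have hl : gd ([] : List ℕ) w.unpair.2 = gd ([] : List ℕ) w'.unpair.2 := by
      apply List.ext_getElem?
      intro i
      by_cases hi : i < w.unpair.1
      · have h5 := h4 i hi
        have h6 := h4' i (hb ▸ hi)
        have h7 : ((gd ([] : List ℕ) w.unpair.2)[i]?).getD 0 =
            ((gd ([] : List ℕ) w'.unpair.2)[i]?).getD 0 := by
          rcases lt_trichotomy (((gd ([] : List ℕ) w.unpair.2)[i]?).getD 0)
            (((gd ([] : List ℕ) w'.unpair.2)[i]?).getD 0) with h | h | h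
          · exact absurd h5.1 (h6.2 _ h)
          · exact h
          · exact absurd h6.1 (h5.2 _ h)
        have h8 : i < (gd ([] : List ℕ) w.unpair.2).length := by omega
        have h9 : i < (gd ([] : List ℕ) w'.unpair.2).length := by omega
        rw [List.getElem?_eq_getElem h8, List.getElem?_eq_getElem h9] at h7 ⊢
        simpa using h7
      · rw [List.getElem?_eq_none (by omega), List.getElem?_eq_none (by omega)]
    rw [← Nat.pair_unpair w, ← Nat.pair_unpair w', ← h1, ← h1', hl, hb]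

/-- Every predicate of level `f + 3` is of the form `∃^∞ a Q` with `Q` of level `f + 1`. -/
theorem UP.descend {f : α → ℕ} (hf : Computable f) {P : α → Prop}
    (h : UP (fun y => f y + 3) P) :
    ∃ Q : α × ℕ → Prop, UP (fun x => f x.1 + 1) Q ∧ ∀ y, P y ↔ {a | Q (y, a)}.Infinite := by
  obtain ⟨V1, hV1, h1⟩ := US.unfold (f := fun y => f y + 2) h
  obtain ⟨U, hU, h2⟩ := US.unfold (f := fun x : α × ℕ => f x.1 + 1) hV1
  obtain ⟨U', hU', h3, h4⟩ := UP.unique_witness (f := fun x : α × ℕ => f x.1) (by fun_prop) hU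
  have hP : ∀ y, P y ↔ ∀ x, ∃ w, U' ((y, x), w) := by
    intro y
    rw [← not_not (a := P y), h1]
    push Not
    refine forall_congr' fun x => ?_
    rw [h2, h3]
  refine ⟨fun x => encode (gd ([] : List ℕ) x.2) = x.2 ∧ ∀ i < (gd ([] : List ℕ) x.2).length,
    U' ((x.1, i), ((gd ([] : List ℕ) x.2)[i]?).getD 0), ?_, ?_⟩
  · have hf' : Computable fun x : α × ℕ => f x.1 + 1 := by fun_prop
    refine UP.and hf' (UP.of_cp hf' (cp_eq (by fun_prop) (by fun_prop))) ?_
    refine UP.all_lt (P := fun (x : α × ℕ) i =>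
      U' ((x.1, i), ((gd ([] : List ℕ) x.2)[i]?).getD 0)) hf' (by fun_prop) ?_
    have hVc : Computable fun x : (α × ℕ) × ℕ =>
        ((gd ([] : List ℕ) x.1.2)[x.2]?).getD 0 := getc (by fun_prop) (by fun_prop)
    exact hU'.comp (g := fun x : (α × ℕ) × ℕ => ((x.1.1, x.2),
        ((gd ([] : List ℕ) x.1.2)[x.2]?).getD 0)) (by fun_prop)
  · intro y
    rw [hP]
    constructor
    · intro h5
      choose w hw using h5
      refine Set.infinite_of_injective_forall_mem (f := fun l : ℕ =>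
        encode ((List.range l).map w)) ?_ ?_
      · intro l l' hl
        have h6 := Encodable.encode_injective hl
        simpa using congrArg List.length h6
      · intro l
        simp only [Set.mem_ofPred_eq, gd_encode, List.length_map, List.length_range, true_and]
        intro i hi
        have h6 : (((List.range l).map w)[i]?).getD 0 = w i := by simp [hi]
        rw [h6]
        exact hw i
    · intro h5 x
      by_contra hcon
      push Not at hcon
      apply h5
      refine Set.Finite.of_injOn (f := fun a => (gd ([] : List ℕ) a).length)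
        (t := Set.Iic x) ?_ ?_ (Set.finite_Iic x)
      · rintro a ⟨-, ha⟩
        dsimp only at ha
        simp only [Set.mem_Iic]
        by_contra h6
        exact hcon _ (ha x (by omega))
      · rintro a ⟨ha, ha1⟩ a' ⟨ha', ha1'⟩ hl
        dsimp only at *
        have h7 : gd ([] : List ℕ) a = gd ([] : List ℕ) a' := by
          apply List.ext_getElem?
          intro i
          by_cases hi : i < (gd ([] : List ℕ) a).length
          · have hi' : i < (gd ([] : List ℕ) a').length := by omega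
            have h8 := h4 _ _ _ (ha1 i hi) (ha1' i hi')
            rw [List.getElem?_eq_getElem hi, List.getElem?_eq_getElem hi'] at h8 ⊢
            simpa using h8
          · rw [List.getElem?_eq_none (by omega), List.getElem?_eq_none (by omega)]
        rw [← ha, ← ha', h7]

theorem descend_univ : ∃ h : ℕ × ℕ → ℕ, Computable h ∧ ∀ m e y, ¬ Uy (m + 3) e y ↔
    {a | ¬ Uy (m + 1) (h (m, e)) (Nat.pair y a)}.Infinite := by
  have h1 : UP (fun x : (ℕ × ℕ) × ℕ => x.1.1 + 3) fun x => ¬ Uy (x.1.1 + 3) x.1.2 x.2 :=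
    US.toUP (uy_US.comp (g := fun x : (ℕ × ℕ) × ℕ => ((x.1.1 + 3, x.1.2), x.2)) (by fun_prop))
  obtain ⟨Q, hQ, h2⟩ := UP.descend (f := fun x : (ℕ × ℕ) × ℕ => x.1.1) (by fun_prop) h1
  obtain ⟨h, hh, h3⟩ := US.index2 (f := fun x : ℕ × ℕ => x.1 + 1)
    (P := fun x z => ¬ Q ((x, z.unpair.1), z.unpair.2))
    (US.comp hQ (g := fun x : (ℕ × ℕ) × ℕ => ((x.1, x.2.unpair.1), x.2.unpair.2))
      (by fun_prop))
  refine ⟨h, hh, fun m e y => ?_⟩
  rw [h2 ((m, e), y)]
  have h4 : {a | Q (((m, e), y), a)} = {a | ¬ Uy (m + 1) (h (m, e)) (Nat.pair y a)} := by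
    ext a
    have h5 := h3 (m, e) (Nat.pair y a)
    simp only [Nat.unpair_pair] at h5
    simp only [Set.mem_ofPred_eq]
    rw [← h5, not_not]
  rw [h4]

/-- the code of a list -/
def yl (l : List ℕ) : ℕ := l.foldr (fun a y => Nat.pair y a) 0

theorem yl_comp : Computable yl := by
  have h : Primrec fun l : List ℕ => l.foldr (fun b s => (fun (_ : List ℕ) (x : ℕ × ℕ) =>
      Nat.pair x.2 x.1) l (b, s)) 0 := by
    refine Primrec.list_foldr (h := fun (_ : List ℕ) (x : ℕ × ℕ) =>
      Nat.pair x.2 x.1) Primrec.id (Primrec.const 0) ?_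
    exact (Primrec₂.natPair.comp (Primrec.snd.comp Primrec.snd)
      (Primrec.fst.comp Primrec.snd)).to₂
  exact h.to_comp

/-- The normal form. -/
theorem descent {d : ℕ → ℕ} (hd : Computable d) {P : ℕ → Prop}
    (hP : UP (fun n => 2 * d n + 2) P) :
    ∃ Q : ℕ → List ℕ → Prop,
      UP (fun _ => 2) (fun x : ℕ × List ℕ => x.2.length = d x.1 ∧ Q x.1 x.2) ∧
      (∀ n, P n ↔ Q n []) ∧
      ∀ n l, l.length < d n → (Q n l ↔ {a | Q n (a :: l)}.Infinite) := by
  obtain ⟨h, hh, hdes⟩ := descend_univ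
  obtain ⟨h0, hh0, h1⟩ := US.index2 (f := fun n : ℕ => 2 * d n + 2)
    (P := fun n _ => ¬ P n) (US.comp hP (g := fun x : ℕ × ℕ => x.1) (by fun_prop))
  let ix : ℕ → ℕ → ℕ := fun n j => Nat.rec (h0 n) (fun j e => h (2 * (d n - j) - 1, e)) j
  have hix : Computable fun x : ℕ × ℕ => ix x.1 x.2 := by
    refine Computable.nat_rec (f := fun x : ℕ × ℕ => x.2) (g := fun x => h0 x.1)
      (h := fun x (q : ℕ × ℕ) => h (2 * (d x.1 - q.1) - 1, q.2)) (by fun_prop) (by fun_prop) ?_
    unfold Computable₂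
    exact hh.comp (g := fun x : (ℕ × ℕ) × (ℕ × ℕ) => (2 * (d x.1.1 - x.2.1) - 1, x.2.2))
      (by fun_prop)
  refine ⟨fun n l => ¬ Uy (2 * (d n - l.length) + 2) (ix n l.length) (yl l), ?_, ?_, ?_⟩
  · have h2 : UP (fun _ : ℕ × List ℕ => 2) fun x => ¬ Uy 2 (ix x.1 (d x.1)) (yl x.2) := by
      have hy : Computable fun x : ℕ × List ℕ => yl x.2 := yl_comp.comp (by fun_prop)
      have hi : Computable fun x : ℕ × List ℕ => ix x.1 (d x.1) :=
        hix.comp (g := fun x : ℕ × List ℕ => (x.1, d x.1)) (by fun_prop)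
      exact US.toUP (uy_US.comp (g := fun x : ℕ × List ℕ =>
        ((2, ix x.1 (d x.1)), yl x.2)) (by fun_prop))
    refine (UP.and (by fun_prop) (UP.of_cp (by fun_prop)
      (cp_eq (f := fun x : ℕ × List ℕ => x.2.length) (g := fun x => d x.1)
        (by fun_prop) (by fun_prop))) h2).of_iff ?_
    rintro ⟨n, l⟩
    dsimp only
    refine and_congr_right fun hl => ?_
    rw [hl, Nat.sub_self]
  · intro n
    have h2 := h1 n 0
    simp only [List.length_nil, Nat.sub_zero]
    have h3 : yl [] = 0 := rfl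
    have h4 : ix n 0 = h0 n := rfl
    rw [h3, h4, ← h2, not_not]
  · intro n l hl
    dsimp only
    obtain ⟨m, hm⟩ : ∃ m, d n - l.length = m + 1 := ⟨d n - l.length - 1, by omega⟩
    have h2 : 2 * (d n - l.length) + 2 = (2 * (d n - l.length) - 1) + 3 := by omega
    rw [h2, hdes]
    have h3 : ∀ a, 2 * (d n - (a :: l).length) + 2 = (2 * (d n - l.length) - 1) + 1 := by
      intro a
      rw [List.length_cons]
      omega
    have h4 : ∀ a, ix n (a :: l).length = h (2 * (d n - l.length) - 1, ix n l.length) := by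
      intro a
      rfl
    have h5 : ∀ a, yl (a :: l) = Nat.pair (yl l) a := fun a => rfl
    simp only [h3, h4, h5]

end Pool.Agent.H675R2.UH
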