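import Pool.Agent.Helper446.Comp

/-!
The arithmetical hierarchy, uniformly in the level.
-/

namespace Pool.Agent.H675R2.UH

open Encodable Pool.Agent.Helper446 Pool.Agent.Helper446.RE Nat.Partrec

/-- `Alt m R` is the sentence `∃ a₁ ¬ ∃ a₂ ¬ … ¬ ∃ a_m ¬ R`. -/
def Alt : ℕ → (ℕ → Prop) → Prop
  | 0, R => R 0
  | m + 1, R => ∃ a, ¬ Alt m (fun z => R (Nat.pair a z))

theorem Alt.congr {m : ℕ} {R S : ℕ → Prop} (h : ∀ z, R z ↔ S z) : Alt m R ↔ Alt m S := by
  have : R = S := funext fun z => propext (h z)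
  rw [this]

variable {α β γ : Type} [Primcodable α] [Primcodable β] [Primcodable γ]

/-- `P y` is `Σ⁰_{f y + 1}`, uniformly in `y`. -/
def US (f : α → ℕ) (P : α → Prop) : Prop :=
  ∃ R : α × ℕ → Prop, REPred R ∧ ∀ y, P y ↔ Alt (f y) (fun z => R (y, z))

/-- `P y` is `Π⁰_{f y + 1}`, uniformly in `y`. -/
def UP (f : α → ℕ) (P : α → Prop) : Prop := US f fun y => ¬ P y

theorem US.of_iff {f : α → ℕ} {P Q : α → Prop} (h : US f P) (hPQ : ∀ y, P y ↔ Q y) : US f Q := by
  have : P = Q := funext fun y => propext (hPQ y)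
  rwa [← this]

theorem UP.of_iff {f : α → ℕ} {P Q : α → Prop} (h : UP f P) (hPQ : ∀ y, P y ↔ Q y) : UP f Q := by
  have : P = Q := funext fun y => propext (hPQ y)
  rwa [← this]

theorem US.of_eq {f g : α → ℕ} {P : α → Prop} (h : US f P) (hfg : ∀ y, f y = g y) : US g P := by
  have : f = g := funext hfg
  rwa [← this]

theorem UP.of_eq {f g : α → ℕ} {P : α → Prop} (h : UP f P) (hfg : ∀ y, f y = g y) : UP g P := by
  have : f = g := funext hfg
  rwa [← this]

theorem US.comp {f : β → ℕ} {P : β → Prop} (h : US f P) {g : α → β} (hg : Computable g) :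
    US (fun x => f (g x)) fun x => P (g x) := by
  obtain ⟨R, hR, h⟩ := h
  exact ⟨fun x => R (g x.1, x.2), RE.comp hR (f := fun x : α × ℕ => (g x.1, x.2)) (by fun_prop),
    fun y => h (g y)⟩

theorem UP.comp {f : β → ℕ} {P : β → Prop} (h : UP f P) {g : α → β} (hg : Computable g) :
    UP (fun x => f (g x)) fun x => P (g x) := US.comp (P := fun y => ¬ P y) h hg

theorem US.toUP {f : α → ℕ} {P : α → Prop} (h : US f P) : UP f fun y => ¬ P y := by
  unfold UP
  simpa using h

theorem UP.toUS {f : α → ℕ} {P : α → Prop} (h : UP f P) : US f fun y => ¬ P y := h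

theorem US.exnot {f : α → ℕ} {P : α × ℕ → Prop} (h : US (fun x : α × ℕ => f x.1) P) :
    US (fun y => f y + 1) fun y => ∃ a, ¬ P (y, a) := by
  obtain ⟨R, hR, h⟩ := h
  refine ⟨fun x => R ((x.1, x.2.unpair.1), x.2.unpair.2),
    RE.comp hR (f := fun x : α × ℕ => ((x.1, x.2.unpair.1), x.2.unpair.2)) (by fun_prop), ?_⟩
  intro y
  refine exists_congr fun a => not_congr ?_
  rw [h]
  refine Alt.congr fun z => ?_
  simp

/-- Level raising with a negation. -/
theorem US.notS {f : α → ℕ} {P : α → Prop} (h : US f P) : US (fun y => f y + 1) fun y => ¬ P y := by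
  have h1 := US.exnot (f := f) (P := fun x : α × ℕ => P x.1)
    (h.comp (g := fun x : α × ℕ => x.1) (by fun_prop))
  exact h1.of_iff fun y => ⟨fun ⟨_, h⟩ => h, fun h => ⟨0, h⟩⟩

theorem UP.toS {f : α → ℕ} {P : α → Prop} (h : UP f P) : US (fun y => f y + 1) P :=
  (US.notS h).of_iff fun _ => not_not

theorem re_cond {c : α → Bool} {P Q : α → Prop} (hc : Computable c) (hP : REPred P)
    (hQ : REPred Q) : REPred fun y => cond (c y) (P y) (Q y) := by
  have h : REPred fun y => (c y = true ∧ P y) ∨ (c y = false ∧ Q y) :=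
    RE.or (RE.and (RE.eq hc (by fun_prop)) hP) (RE.and (RE.eq hc (by fun_prop)) hQ)
  refine h.of_eq fun y => ?_
  cases c y <;> simp

/-- parity of the level -/
theorem alt_const (m : ℕ) (b : Bool) :
    Alt m (fun _ => (m.bodd ^^ b) = true) ↔ b = true := by
  induction m generalizing b with
  | zero => simp [Alt]
  | succ m ih =>
    simp only [Alt, Nat.bodd_succ]
    have h1 := ih (!b)
    have h2 : (fun _ : ℕ => ((!m.bodd) ^^ b) = true) = fun _ : ℕ => (m.bodd ^^ !b) = true := by
      funext z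
      cases m.bodd <;> cases b <;> rfl
    rw [h2]
    simp only [h1]
    cases b <;> simp

theorem US.of_bool {f : α → ℕ} (hf : Computable f) {b : α → Bool} (hb : Computable b) :
    US f fun y => b y = true := by
  refine ⟨fun x => ((f x.1).bodd ^^ b x.1) = true, ?_, fun y => (alt_const (f y) (b y)).symm⟩
  refine RE.of_bool ?_
  have h1 : Computable fun x : α × ℕ => (f x.1).bodd :=
    (Primrec.nat_bodd.to_comp).comp (by fun_prop)
  have h2 : Computable fun x : α × ℕ => b x.1 := by fun_prop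
  have h3 : Computable fun x : Bool × Bool => x.1 ^^ x.2 := (Primrec.dom_finite _).to_comp
  exact h3.comp (h1.pair h2)

theorem US.of_cp {f : α → ℕ} (hf : Computable f) {P : α → Prop} (hP : ComputablePred P) :
    US f P := by
  obtain ⟨_, h⟩ := hP
  exact (US.of_bool hf h).of_iff fun y => by simp

theorem UP.of_cp {f : α → ℕ} (hf : Computable f) {P : α → Prop} (hP : ComputablePred P) :
    UP f P := US.of_cp hf hP.not

/-- test for zero -/
def isz (n : ℕ) : Bool := decide (n = 0)

@[simp] theorem isz_zero : isz 0 = true := rfl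
@[simp] theorem isz_succ (n : ℕ) : isz (n + 1) = false := by simp [isz]

theorem cz {f : α → ℕ} (hf : Computable f) : Computable fun y => isz (f y) :=
  (RE.cp_eq (f := f) (g := fun _ => 0) hf (Computable.const 0)).decide

theorem US.of_re {f : α → ℕ} (hf : Computable f) {P : α → Prop} (hP : REPred P) : US f P := by
  obtain ⟨q, hq, hPq⟩ := RE.re_iff.1 hP
  refine ⟨fun x => cond (isz (f x.1)) (P x.1)
    (((f x.1 - 1).bodd ^^ !(q x.1 x.2.unpair.1)) = true), ?_, ?_⟩
  · refine re_cond ((cz hf).comp Computable.fst) (RE.comp hP (by fun_prop)) (RE.of_bool ?_)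
    have h1 : Computable fun x : α × ℕ => (f x.1 - 1).bodd :=
      (Primrec.nat_bodd.to_comp).comp (by fun_prop)
    have h2 : Computable fun x : α × ℕ => !(q x.1 x.2.unpair.1) :=
      (Primrec.not.to_comp).comp (Computable₂.comp hq (g := fun x : α × ℕ => x.1)
        (h := fun x : α × ℕ => x.2.unpair.1) (by fun_prop) (by fun_prop))
    have h3 : Computable fun x : Bool × Bool => x.1 ^^ x.2 := (Primrec.dom_finite _).to_comp
    exact h3.comp (h1.pair h2)
  · intro y
    dsimp only
    generalize f y = m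
    cases m with
    | zero => simp [Alt]
    | succ k =>
      simp only [Alt, isz_succ, cond_false, Nat.unpair_pair, Nat.add_sub_cancel, hPq]
      refine exists_congr fun a => ?_
      rw [alt_const]
      simp

/-- Existential quantification. -/
theorem US.exN {f : α → ℕ} (hf : Computable f) {P : α → ℕ → Prop}
    (h : US (fun x : α × ℕ => f x.1) fun x => P x.1 x.2) : US f fun y => ∃ a, P y a := by
  obtain ⟨R, hR, h⟩ := h
  refine ⟨fun x => cond (isz (f x.1)) (∃ a, R ((x.1, a), 0))
    (R ((x.1, x.2.unpair.1.unpair.1), Nat.pair x.2.unpair.1.unpair.2 x.2.unpair.2)), ?_, ?_⟩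
  · refine re_cond ((cz hf).comp Computable.fst) ?_ ?_
    · refine RE.exN (p := fun (x : α × ℕ) a => R ((x.1, a), 0)) ?_
      exact RE.comp hR (f := fun x : (α × ℕ) × ℕ => ((x.1.1, x.2), 0)) (by fun_prop)
    · exact RE.comp hR (f := fun x : α × ℕ =>
        ((x.1, x.2.unpair.1.unpair.1), Nat.pair x.2.unpair.1.unpair.2 x.2.unpair.2)) (by fun_prop)
  · intro y
    have h' : ∀ a, P y a ↔ Alt (f y) (fun z => R ((y, a), z)) := fun a => h (y, a)
    simp only [h']
    generalize f y = m
    cases m with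
    | zero => simp [Alt]
    | succ k =>
      simp only [Alt, isz_succ, cond_false, Nat.unpair_pair]
      constructor
      · rintro ⟨a, b, hb⟩
        exact ⟨Nat.pair a b, by simpa using hb⟩
      · rintro ⟨w, hw⟩
        exact ⟨_, _, hw⟩

theorem US.or {f : α → ℕ} (hf : Computable f) {P Q : α → Prop} (hP : US f P) (hQ : US f Q) :
    US f fun y => P y ∨ Q y := by
  obtain ⟨R, hR, hP⟩ := hP
  obtain ⟨S, hS, hQ⟩ := hQ
  have h1 : US (fun x : α × ℕ => f x.1) fun x => cond (isz x.2) (P x.1) (Q x.1) := by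
    refine ⟨fun x => cond (isz x.1.2) (R (x.1.1, x.2)) (S (x.1.1, x.2)), ?_, ?_⟩
    · refine re_cond (cz (by fun_prop)) ?_ ?_
      · exact RE.comp hR (f := fun x : (α × ℕ) × ℕ => (x.1.1, x.2)) (by fun_prop)
      · exact RE.comp hS (f := fun x : (α × ℕ) × ℕ => (x.1.1, x.2)) (by fun_prop)
    · rintro ⟨y, a⟩
      cases a <;> simp [hP, hQ]
  refine (US.exN (P := fun y a => cond (isz a) (P y) (Q y)) hf h1).of_iff ?_
  intro y
  constructor
  · rintro ⟨a, ha⟩
    cases a with
    | zero => exact Or.inl ha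
    | succ a => rw [isz_succ] at ha; exact Or.inr ha
  · rintro (h | h)
    · exact ⟨0, h⟩
    · exact ⟨1, h⟩

theorem US.and {f : α → ℕ} (hf : Computable f) {P Q : α → Prop} (hP : US f P) (hQ : US f Q) :
    US f fun y => P y ∧ Q y := by
  obtain ⟨R, hR, hP⟩ := hP
  obtain ⟨S, hS, hQ⟩ := hQ
  have h1 : US (fun x : α × ℕ => f x.1 - 1)
      fun x => Alt (f x.1 - 1) (fun z => R (x.1, Nat.pair x.2.unpair.1 z)) ∨
        Alt (f x.1 - 1) (fun z => S (x.1, Nat.pair x.2.unpair.2 z)) := by
    refine US.or (by fun_prop) ?_ ?_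
    · exact ⟨fun x => R (x.1.1, Nat.pair x.1.2.unpair.1 x.2), RE.comp hR
        (f := fun x : (α × ℕ) × ℕ => (x.1.1, Nat.pair x.1.2.unpair.1 x.2)) (by fun_prop),
        fun y => Iff.rfl⟩
    · exact ⟨fun x => S (x.1.1, Nat.pair x.1.2.unpair.2 x.2), RE.comp hS
        (f := fun x : (α × ℕ) × ℕ => (x.1.1, Nat.pair x.1.2.unpair.2 x.2)) (by fun_prop),
        fun y => Iff.rfl⟩
  obtain ⟨T, hT, h1⟩ := h1
  refine ⟨fun x => cond (isz (f x.1)) (R (x.1, 0) ∧ S (x.1, 0))
    (T ((x.1, x.2.unpair.1), x.2.unpair.2)), ?_, ?_⟩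
  · refine re_cond ((cz hf).comp Computable.fst) ?_ ?_
    · exact RE.and (RE.comp hR (f := fun x : α × ℕ => (x.1, 0)) (by fun_prop))
        (RE.comp hS (f := fun x : α × ℕ => (x.1, 0)) (by fun_prop))
    · exact RE.comp hT (f := fun x : α × ℕ => ((x.1, x.2.unpair.1), x.2.unpair.2)) (by fun_prop)
  · intro y
    dsimp only
    rw [hP, hQ]
    have h2 : ∀ a, (Alt (f y - 1) (fun z => R (y, Nat.pair a.unpair.1 z)) ∨
        Alt (f y - 1) (fun z => S (y, Nat.pair a.unpair.2 z))) ↔
        Alt (f y - 1) (fun z => T ((y, a), z)) := fun a => h1 (y, a)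
    revert h2
    generalize f y = m
    intro h2
    cases m with
    | zero => simp [Alt]
    | succ k =>
      simp only [Alt, isz_succ, cond_false, Nat.unpair_pair]
      simp only [Nat.add_sub_cancel] at h2
      constructor
      · rintro ⟨⟨a, ha⟩, b, hb⟩
        refine ⟨Nat.pair a b, ?_⟩
        rw [← h2]
        simp only [Nat.unpair_pair]
        tauto
      · rintro ⟨w, hw⟩
        rw [← h2] at hw
        push Not at hw
        exact ⟨⟨_, hw.1⟩, _, hw.2⟩

theorem UP.and {f : α → ℕ} (hf : Computable f) {P Q : α → Prop} (hP : UP f P) (hQ : UP f Q) :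
    UP f fun y => P y ∧ Q y := (US.or hf hP hQ).of_iff fun y => by rw [not_and_or]

theorem UP.or {f : α → ℕ} (hf : Computable f) {P Q : α → Prop} (hP : UP f P) (hQ : UP f Q) :
    UP f fun y => P y ∨ Q y := (US.and hf hP hQ).of_iff fun y => by rw [not_or]

theorem US.imp {f : α → ℕ} (hf : Computable f) {P Q : α → Prop} (hP : UP f P) (hQ : US f Q) :
    US f fun y => P y → Q y := (US.or hf hP hQ).of_iff fun y => by rw [imp_iff_not_or]

theorem UP.imp {f : α → ℕ} (hf : Computable f) {P Q : α → Prop} (hP : US f P) (hQ : UP f Q) :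
    UP f fun y => P y → Q y := (UP.or hf hP.toUP hQ).of_iff fun y => by rw [imp_iff_not_or]

/-- A computable surjection from the natural numbers. -/
def gd (b0 : β) (k : ℕ) : β := (decode (α := β) k).getD b0

theorem gd_comp (b0 : β) : Computable (gd b0) :=
  (Primrec.option_getD.comp Primrec.decode (Primrec.const b0)).to_comp

@[fun_prop] theorem gd_comp' (b0 : β) {f : α → ℕ} (hf : Computable f) :
    Computable fun a => gd b0 (f a) := (gd_comp b0).comp hf

theorem gd_encode (b0 b : β) : gd b0 (encode b) = b := by simp [gd]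

theorem US.ex [Nonempty β] {f : α → ℕ} (hf : Computable f) {P : α → β → Prop}
    (h : US (fun x : α × β => f x.1) fun x => P x.1 x.2) : US f fun y => ∃ b, P y b := by
  obtain ⟨b0⟩ := ‹Nonempty β›
  have h1 : US f fun y => ∃ k, P y (gd b0 k) := by
    refine US.exN (P := fun y k => P y (gd b0 k)) hf ?_
    exact h.comp (g := fun x : α × ℕ => (x.1, gd b0 x.2)) (by fun_prop)
  refine h1.of_iff fun y => ⟨fun ⟨k, hk⟩ => ⟨_, hk⟩, fun ⟨b, hb⟩ => ⟨encode b, ?_⟩⟩
  rwa [gd_encode]

theorem UP.all [Nonempty β] {f : α → ℕ} (hf : Computable f) {P : α → β → Prop}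
    (h : UP (fun x : α × β => f x.1) fun x => P x.1 x.2) : UP f fun y => ∀ b, P y b := by
  have h1 : US f fun y => ∃ b, ¬ P y b := US.ex (P := fun y b => ¬ P y b) hf h
  exact US.of_iff h1 fun y => by rw [not_forall]

/-- Universal quantification of a `Σ` predicate. -/
theorem US.allP [Nonempty β] {f : α → ℕ} (hf : Computable f) {P : α → β → Prop}
    (h : US (fun x : α × β => f x.1) fun x => P x.1 x.2) :
    UP (fun y => f y + 1) fun y => ∀ b, P y b := by
  refine UP.all (P := P) (f := fun y => f y + 1) (by fun_prop) ?_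
  exact US.notS h

/-- Existential quantification of a `Π` predicate. -/
theorem UP.exS [Nonempty β] {f : α → ℕ} (hf : Computable f) {P : α → β → Prop}
    (h : UP (fun x : α × β => f x.1) fun x => P x.1 x.2) :
    US (fun y => f y + 1) fun y => ∃ b, P y b := by
  refine US.ex (P := P) (f := fun y => f y + 1) (by fun_prop) ?_
  exact h.toS

/-! ### Raising the level -/

/-- the last component, and the others -/
def lastC (m z : ℕ) : ℕ := ((fun n : ℕ => n.unpair.2)^[m] z).unpair.1

def initC (m z : ℕ) : ℕ → ℕ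
  | 0 => 0
  | k + 1 => Nat.pair ((fun n : ℕ => n.unpair.2)^[m - 1 - k] z).unpair.1 (initC m z k)

theorem initC_succ (m z k : ℕ) (hk : k ≤ m) : initC (m + 1) z k = initC m z.unpair.2 k := by
  induction k with
  | zero => rfl
  | succ k ih =>
    rw [initC, initC, ih (by omega)]
    have h1 : m + 1 - 1 - k = (m - 1 - k) + 1 := by omega
    rw [h1, Function.iterate_succ_apply]

theorem iter_comp : Computable₂ fun (m z : ℕ) => (fun n : ℕ => n.unpair.2)^[m] z := by
  have h : Primrec fun x : ℕ × ℕ => (fun n : ℕ => n.unpair.2)^[x.1] x.2 :=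
    Primrec.nat_iterate Primrec.fst Primrec.snd
      (Primrec.snd.comp (Primrec.unpair.comp Primrec.snd)).to₂
  exact h.to_comp

theorem lastC_comp : Computable₂ lastC := by
  have h := iter_comp
  unfold Computable₂ at *
  unfold lastC
  fun_prop

theorem initC_comp : Computable₂ fun (m z : ℕ) => initC m z m := by
  have h := Computable.nat_rec (f := fun x : ℕ × ℕ => x.1) (g := fun _ : ℕ × ℕ => 0)
    (h := fun (x : ℕ × ℕ) (y : ℕ × ℕ) =>
      Nat.pair ((fun n : ℕ => n.unpair.2)^[x.1 - 1 - y.1] x.2).unpair.1 y.2)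
    (by fun_prop) (by fun_prop) (by
      have h2 : Computable fun x : (ℕ × ℕ) × (ℕ × ℕ) =>
          (fun n : ℕ => n.unpair.2)^[x.1.1 - 1 - x.2.1] x.1.2 :=
        Computable₂.comp iter_comp (g := fun p : (ℕ × ℕ) × (ℕ × ℕ) => p.1.1 - 1 - p.2.1)
          (h := fun p : (ℕ × ℕ) × (ℕ × ℕ) => p.1.2) (by fun_prop) (by fun_prop)
      unfold Computable₂
      fun_prop)
  refine h.of_eq fun x => ?_
  have h3 : ∀ k, (Nat.rec (motive := fun _ => ℕ) 0 (fun k acc =>
      Nat.pair ((fun n : ℕ => n.unpair.2)^[x.1 - 1 - k] x.2).unpair.1 acc) k : ℕ) =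
      initC x.1 x.2 k := by
    intro k
    induction k with
    | zero => rfl
    | succ k ih => rw [initC, ← ih]
  exact h3 x.1

theorem alt_succ (m : ℕ) (q : ℕ → ℕ → Bool) :
    Alt (m + 1) (fun z => ¬ q (initC m z m) (lastC m z) = true) ↔
      Alt m (fun z => ∃ n, q z n = true) := by
  induction m generalizing q with
  | zero =>
    simp [Alt, initC, lastC]
  | succ m ih =>
    conv_lhs => unfold Alt
    conv_rhs => unfold Alt
    refine exists_congr fun a => not_congr ?_
    rw [← ih]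
    refine Alt.congr fun z => ?_
    have h1 : initC (m + 1) (Nat.pair a z) (m + 1) = Nat.pair a (initC m z m) := by
      rw [initC, initC_succ _ _ _ le_rfl]
      simp
    have h2 : lastC (m + 1) (Nat.pair a z) = lastC m z := by
      unfold lastC
      rw [Function.iterate_succ_apply]
      simp
    dsimp only
    rw [h1, h2]

theorem US.succ {f : α → ℕ} (hf : Computable f) {P : α → Prop} (hP : US f P) :
    US (fun y => f y + 1) P := by
  obtain ⟨R, hR, hP⟩ := hP
  obtain ⟨q, hq, hRq⟩ := RE.re_iff.1 hR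
  refine ⟨fun x => ¬ q (x.1, initC (f x.1) x.2 (f x.1)) (lastC (f x.1) x.2) = true, ?_, ?_⟩
  · have h1 : Computable fun x : α × ℕ => initC (f x.1) x.2 (f x.1) :=
      Computable₂.comp initC_comp (g := fun x : α × ℕ => f x.1) (h := fun x : α × ℕ => x.2)
        (by fun_prop) (by fun_prop)
    have h2 : Computable fun x : α × ℕ => lastC (f x.1) x.2 :=
      Computable₂.comp lastC_comp (g := fun x : α × ℕ => f x.1) (h := fun x : α × ℕ => x.2)
        (by fun_prop) (by fun_prop)
    refine RE.ne ?_ (Computable.const true)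
    exact hq.comp (Computable.fst.pair h1) h2
  · intro y
    rw [hP]
    dsimp only
    rw [alt_succ (f y) (fun z n => q (y, z) n)]
    exact Alt.congr fun z => hRq (y, z)

theorem UP.succ {f : α → ℕ} (hf : Computable f) {P : α → Prop} (hP : UP f P) :
    UP (fun y => f y + 1) P := US.succ hf hP

theorem US.toP {f : α → ℕ} {P : α → Prop} (h : US f P) : UP (fun y => f y + 1) P := h.notS

theorem US.add {f : α → ℕ} (hf : Computable f) {P : α → Prop} (hP : US f P) (k : ℕ) :
    US (fun y => f y + k) P := by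
  induction k with
  | zero => exact hP
  | succ k ih => exact US.succ (f := fun y => f y + k) (by fun_prop) ih

theorem UP.add {f : α → ℕ} (hf : Computable f) {P : α → Prop} (hP : UP f P) (k : ℕ) :
    UP (fun y => f y + k) P := US.add hf hP k

/-! ### Bounded quantifiers -/

theorem US.all_lt {f g : α → ℕ} (hf : Computable f) (hg : Computable g) {P : α → ℕ → Prop}
    (h : US (fun x : α × ℕ => f x.1) fun x => P x.1 x.2) : US f fun y => ∀ i < g y, P y i := by
  obtain ⟨R, hR, hP⟩ := h
  let A : (α × ℕ) × ℕ → Prop := fun x => Alt (f x.1.1 - 1) fun z => R (x.1, Nat.pair x.2 z)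
  have hA : US (fun x : (α × ℕ) × ℕ => f x.1.1 - 1) A :=
    ⟨fun x => R (x.1.1, Nat.pair x.1.2 x.2), RE.comp hR
      (f := fun x : ((α × ℕ) × ℕ) × ℕ => (x.1.1, Nat.pair x.1.2 x.2)) (by fun_prop),
      fun y => Iff.rfl⟩
  have hget : Computable fun x : (α × ℕ) × ℕ => (((gd ([] : List ℕ) x.1.2)[x.2]?).getD 0) :=
    Computable.option_getD (by fun_prop) (by fun_prop)
  have h1 : US (fun x : α × ℕ => f x.1 - 1) fun x => ∃ i, i < g x.1 ∧
      A ((x.1, i), (((gd ([] : List ℕ) x.2)[i]?).getD 0)) := by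
    refine US.exN (P := fun (x : α × ℕ) i => i < g x.1 ∧
      A ((x.1, i), (((gd ([] : List ℕ) x.2)[i]?).getD 0))) (by fun_prop) ?_
    refine US.and (by fun_prop) (US.of_cp (by fun_prop) (RE.cp_lt (by fun_prop) (by fun_prop))) ?_
    exact hA.comp (g := fun x : (α × ℕ) × ℕ =>
      ((x.1.1, x.2), (((gd ([] : List ℕ) x.1.2)[x.2]?).getD 0))) (by fun_prop)
  obtain ⟨T, hT, h1⟩ := h1
  refine ⟨fun x => cond (isz (f x.1)) (∀ i < g x.1, R ((x.1, i), 0))
    (T ((x.1, x.2.unpair.1), x.2.unpair.2)), ?_, ?_⟩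
  · refine re_cond ((cz hf).comp Computable.fst) ?_ ?_
    · refine RE.all_lt (p := fun (x : α × ℕ) i => R ((x.1, i), 0)) ?_ (by fun_prop)
      exact RE.comp hR (f := fun x : (α × ℕ) × ℕ => ((x.1.1, x.2), 0)) (by fun_prop)
    · exact RE.comp hT (f := fun x : α × ℕ => ((x.1, x.2.unpair.1), x.2.unpair.2)) (by fun_prop)
  · intro y
    have h' : ∀ a, P y a ↔ Alt (f y) (fun z => R ((y, a), z)) := fun a => hP (y, a)
    have h2 : ∀ w, (∃ i, i < g y ∧ Alt (f y - 1) fun z =>
        R ((y, i), Nat.pair (((gd ([] : List ℕ) w)[i]?).getD 0) z)) ↔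
        Alt (f y - 1) (fun z => T ((y, w), z)) := fun w => h1 (y, w)
    simp only [h']
    revert h2
    generalize f y = m
    intro h2
    cases m with
    | zero => simp [Alt]
    | succ k =>
      simp only [Alt, isz_succ, cond_false, Nat.unpair_pair]
      simp only [Nat.add_sub_cancel] at h2
      constructor
      · intro h3
        have h4 : ∀ i, ∃ a, i < g y → ¬ Alt k (fun z => R ((y, i), Nat.pair a z)) := by
          intro i
          by_cases hi : i < g y
          · obtain ⟨a, ha⟩ := h3 i hi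
            exact ⟨a, fun _ => ha⟩
          · exact ⟨0, fun h => absurd h hi⟩
        choose a ha using h4
        refine ⟨encode ((List.range (g y)).map a), ?_⟩
        rw [← h2]
        push Not
        intro i hi
        rw [gd_encode]
        have h5 : (((List.range (g y)).map a)[i]?).getD 0 = a i := by simp [hi]
        rw [h5]
        exact ha i hi
      · rintro ⟨w, hw⟩ i hi
        rw [← h2] at hw
        push Not at hw
        exact ⟨_, hw i hi⟩

theorem UP.ex_lt {f g : α → ℕ} (hf : Computable f) (hg : Computable g) {P : α → ℕ → Prop}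
    (h : UP (fun x : α × ℕ => f x.1) fun x => P x.1 x.2) : UP f fun y => ∃ i < g y, P y i := by
  refine US.of_iff (US.all_lt (P := fun y i => ¬ P y i) hf hg h) fun y => ?_
  push Not
  rfl

theorem US.ex_lt {f g : α → ℕ} (hf : Computable f) (hg : Computable g) {P : α → ℕ → Prop}
    (h : US (fun x : α × ℕ => f x.1) fun x => P x.1 x.2) : US f fun y => ∃ i < g y, P y i := by
  refine US.exN (P := fun y i => i < g y ∧ P y i) hf ?_
  exact US.and (by fun_prop) (US.of_cp (by fun_prop) (RE.cp_lt (by fun_prop) (by fun_prop))) h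

theorem UP.all_lt {f g : α → ℕ} (hf : Computable f) (hg : Computable g) {P : α → ℕ → Prop}
    (h : UP (fun x : α × ℕ => f x.1) fun x => P x.1 x.2) : UP f fun y => ∀ i < g y, P y i := by
  refine US.of_iff (US.ex_lt (P := fun y i => ¬ P y i) hf hg h) fun y => ?_
  push Not
  rfl

/-! ### Universal predicates -/

/-- membership in the `e`-th c.e. set -/
def Wn (e z : ℕ) : Prop := ∃ s, wst ℕ e s z = true

theorem wn_re : REPred fun x : ℕ × ℕ => Wn x.1 x.2 := by
  refine RE.exN (p := fun (x : ℕ × ℕ) s => wst ℕ x.1 s x.2 = true) (of_bool ?_)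
  exact wst_comp.comp (f := fun p : (ℕ × ℕ) × ℕ => wst ℕ p.1.1 p.1.2 p.2)
    (g := fun x : (ℕ × ℕ) × ℕ => ((x.1.1, x.2), x.1.2)) (by fun_prop)

/-- the universal predicate -/
def Un (m e : ℕ) : Prop := Alt m (Wn e)

theorem un_US : US (fun x : ℕ × ℕ => x.1) fun x => Un x.1 x.2 :=
  ⟨fun x => Wn x.1.2 x.2, RE.comp wn_re (f := fun x : (ℕ × ℕ) × ℕ => (x.1.2, x.2)) (by fun_prop),
    fun _ => Iff.rfl⟩

theorem wst_iff_dom (e : ℕ) (x : α) :
    (∃ s, wst α e s x = true) ↔
      (Nat.Partrec.Code.eval (Denumerable.ofNat Nat.Partrec.Code e) (encode x)).Dom := by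
  unfold wst
  rw [Part.dom_iff_mem]
  constructor
  · rintro ⟨k, hk⟩
    obtain ⟨y, hy⟩ := Option.isSome_iff_exists.1 hk
    exact ⟨y, Nat.Partrec.Code.evaln_complete.2 ⟨k, hy⟩⟩
  · rintro ⟨y, hy⟩
    obtain ⟨k, hk⟩ := Nat.Partrec.Code.evaln_complete.1 hy
    refine ⟨k, ?_⟩
    rw [Option.mem_def] at hk
    rw [hk]; rfl

theorem re_index {R : α × ℕ → Prop} (hR : REPred R) :
    ∃ h : α → ℕ, Computable h ∧ ∀ y z, R (y, z) ↔ Wn (h y) z := by
  obtain ⟨e, he⟩ := wst_univ hR
  refine ⟨fun y => encode (Nat.Partrec.Code.curry (Denumerable.ofNat Nat.Partrec.Code e)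
    (encode y)), ?_, ?_⟩
  · exact Computable.encode.comp ((Nat.Partrec.Code.primrec₂_curry.comp
      (Primrec.const _) Primrec.encode).to_comp)
  · intro y z
    rw [he, Wn, wst_iff_dom, wst_iff_dom, Denumerable.ofNat_encode, Nat.Partrec.Code.eval_curry]
    rfl

theorem US.index {f : α → ℕ} {P : α → Prop} (hP : US f P) :
    ∃ h : α → ℕ, Computable h ∧ ∀ y, P y ↔ Un (f y) (h y) := by
  obtain ⟨R, hR, hP⟩ := hP
  obtain ⟨h, hh, hR⟩ := re_index hR
  exact ⟨h, hh, fun y => (hP y).trans (Alt.congr fun z => hR y z)⟩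

/-- diagonalisation: the predicate not uniformly of level `g` -/
def Dg (g : ℕ → ℕ) (n : ℕ) : Prop :=
  ∃ e ∈ Nat.Partrec.Code.eval (Denumerable.ofNat Nat.Partrec.Code n) n, Un (g n) e

theorem dg_US {g : ℕ → ℕ} (hg : Computable g) : US g (Dg g) := by
  have h1 : US (fun x : ℕ × ℕ => g x.1) fun x =>
      x.2 ∈ Nat.Partrec.Code.eval (Denumerable.ofNat Nat.Partrec.Code x.1) x.1 := by
    have h2 : REPred fun x : ℕ × ℕ =>
        x.2 ∈ Nat.Partrec.Code.eval (Denumerable.ofNat Nat.Partrec.Code x.1) x.1 := by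
      have h3 : REPred fun x : ℕ × ℕ => ∃ s : ℕ,
          Nat.Partrec.Code.evaln s (Denumerable.ofNat Nat.Partrec.Code x.1) x.1 = some x.2 := by
        refine RE.exN (p := fun (x : ℕ × ℕ) (s : ℕ) =>
          Nat.Partrec.Code.evaln s (Denumerable.ofNat Nat.Partrec.Code x.1) x.1 = some x.2) ?_
        refine RE.eq ?_ (by fun_prop)
        have h1 : Computable fun x : (ℕ × Nat.Partrec.Code) × ℕ =>
            (Nat.Partrec.Code.evaln x.1.1 x.1.2 x.2) := Nat.Partrec.Code.primrec_evaln.to_comp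
        have h2 : Computable fun x : (ℕ × ℕ) × ℕ => Denumerable.ofNat Nat.Partrec.Code x.1.1 :=
          (Computable.ofNat Nat.Partrec.Code).comp (by fun_prop)
        exact h1.comp (((by fun_prop : Computable fun x : (ℕ × ℕ) × ℕ => x.2).pair h2).pair
          (by fun_prop))
      refine h3.of_eq fun x => ?_
      rw [Nat.Partrec.Code.evaln_complete]
      rfl
    exact US.of_re (by fun_prop) h2
  refine (US.exN (P := fun n e =>
    e ∈ Nat.Partrec.Code.eval (Denumerable.ofNat Nat.Partrec.Code n) n ∧ Un (g n) e) hg ?_).of_iff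
    fun n => Iff.rfl
  refine US.and (by fun_prop) h1 ?_
  exact un_US.comp (g := fun x : ℕ × ℕ => (g x.1, x.2)) (by fun_prop)

theorem dg_diag {g : ℕ → ℕ} (h : US g fun n => ¬ Dg g n) : False := by
  obtain ⟨k, hk, hD⟩ := h.index
  obtain ⟨c, hc⟩ := Nat.Partrec.Code.exists_code.1 (Partrec.nat_iff.1 hk.partrec)
  have h1 := hD (encode c)
  have h2 : Dg g (encode c) ↔ Un (g (encode c)) (k (encode c)) := by
    unfold Dg
    rw [Denumerable.ofNat_encode, hc]
    simp
  rw [h2] at h1
  exact iff_not_self h1.symm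

end Pool.Agent.H675R2.UH
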